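import Mathlib

/-!
Uniform spectral gap of `SL_k(ℤ)`, `k ≥ 3`, over all representations with a finite image:
definitions and the statements of the modules.
-/

set_option autoImplicit false

namespace Pool.Agent.TAU

/-- `SL_k(ℤ)` -/
abbrev SL (k : ℕ) : Type := Matrix.SpecialLinearGroup (Fin k) ℤ

/-- the elementary matrix `1 + t e_ij` -/
def el {k : ℕ} (i j : Fin k) (h : i ≠ j) (t : ℤ) : SL k :=
  ⟨Matrix.transvection i j t, Matrix.det_transvection_of_ne _ _ h _⟩

/-- `x` is an elementary matrix -/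
def IsEl {k : ℕ} (x : SL k) : Prop := ∃ (i j : Fin k) (h : i ≠ j) (t : ℤ), x = el i j h t

/-- `x` is a product of at most `r` elementary matrices -/
def ElProd {k : ℕ} (r : ℕ) (x : SL k) : Prop :=
  ∃ l : List (SL k), l.length ≤ r ∧ (∀ y ∈ l, IsEl y) ∧ l.prod = x

/-- the matrix is congruent to `1` modulo `m` -/
def Cong {k : ℕ} (m : ℕ) (x : SL k) : Prop :=
  ∀ i j : Fin k, (m : ℤ) ∣ x.1 i j - (1 : Matrix (Fin k) (Fin k) ℤ) i j

/-- `x` lies in the upper left `2 × 2` block -/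
def InBlock {k : ℕ} (x : SL k) : Prop :=
  ∀ i j : Fin k, (2 ≤ (i : ℕ) ∨ 2 ≤ (j : ℕ)) → x.1 i j = (1 : Matrix (Fin k) (Fin k) ℤ) i j

/-- adding a `1` at the last place -/
def up {k : ℕ} (g : SL k) : Matrix (Fin (k + 1)) (Fin (k + 1)) ℤ :=
  fun i j => Fin.lastCases (Fin.lastCases 1 (fun _ => 0) j)
    (fun i' => Fin.lastCases 0 (fun j' => g.1 i' j') j) i

end Pool.Agent.TAU
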