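import Mathlib
import Pool.Agent.TAU.Defs

/-!
Bounded reduction of `SL_k(ℤ)` to the upper left `2 × 2` block, congruent to `1` modulo `m`.
-/

set_option autoImplicit false

namespace Pool.Agent.TAU.M2

open Matrix Finset

variable {k : ℕ}

theorem el_mul_same (i j : Fin k) (h : i ≠ j) (t : ℤ) (x : SL k) (b : Fin k) :
    (el i j h t * x).1 i b = x.1 i b + t * x.1 j b :=
  Matrix.transvection_mul_apply_same i j b t x.1

theorem el_mul_ne (i j : Fin k) (h : i ≠ j) (t : ℤ) (x : SL k) (a b : Fin k) (ha : a ≠ i) :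
    (el i j h t * x).1 a b = x.1 a b :=
  Matrix.transvection_mul_apply_of_ne i j a b ha t x.1

theorem mul_el_same (i j : Fin k) (h : i ≠ j) (t : ℤ) (x : SL k) (a : Fin k) :
    (x * el i j h t).1 a j = x.1 a j + t * x.1 a i :=
  Matrix.mul_transvection_apply_same i j a t x.1

theorem mul_el_ne (i j : Fin k) (h : i ≠ j) (t : ℤ) (x : SL k) (a b : Fin k) (hb : b ≠ j) :
    (x * el i j h t).1 a b = x.1 a b :=
  Matrix.mul_transvection_apply_of_ne i j a b hb t x.1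

/-- `x` lies in the upper left `n × n` block -/
def InBlk (n : ℕ) (x : SL k) : Prop :=
  ∀ i j : Fin k, (n ≤ (i : ℕ) ∨ n ≤ (j : ℕ)) → x.1 i j = (1 : Matrix (Fin k) (Fin k) ℤ) i j

theorem mul_val (x y : SL k) (a b : Fin k) : (x * y).1 a b = ∑ c, x.1 a c * y.1 c b := rfl

theorem InBlk.mul {n : ℕ} {x y : SL k} (hx : InBlk n x) (hy : InBlk n y) : InBlk n (x * y) := by
  intro a b hab
  rw [mul_val]
  by_cases ha : n ≤ (a : ℕ)
  · have h1 : ∀ c, x.1 a c * y.1 c b = (1 : Matrix (Fin k) (Fin k) ℤ) a c * y.1 c b := by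
      intro c; rw [hx a c (Or.inl ha)]
    rw [Finset.sum_congr rfl (fun c _ => h1 c)]
    have h2 : ∑ c, (1 : Matrix (Fin k) (Fin k) ℤ) a c * y.1 c b = y.1 a b := by
      rw [← Matrix.mul_apply, Matrix.one_mul]
    rw [h2]; exact hy a b hab
  · have hb : n ≤ (b : ℕ) := hab.resolve_left ha
    have h1 : ∀ c, x.1 a c * y.1 c b = x.1 a c * (1 : Matrix (Fin k) (Fin k) ℤ) c b := by
      intro c; rw [hy c b (Or.inr hb)]
    rw [Finset.sum_congr rfl (fun c _ => h1 c)]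
    have h2 : ∑ c, x.1 a c * (1 : Matrix (Fin k) (Fin k) ℤ) c b = x.1 a b := by
      rw [← Matrix.mul_apply, Matrix.mul_one]
    rw [h2]; exact hx a b hab

theorem InBlk.one {n : ℕ} : InBlk n (1 : SL k) := fun _ _ _ => rfl

theorem InBlk.inv {n : ℕ} {x : SL k} (hx : InBlk n x) : InBlk n x⁻¹ := by
  intro a b hab
  by_cases ha : n ≤ (a : ℕ)
  · have h0 : (x * x⁻¹).1 a b = (1 : SL k).1 a b := by rw [mul_inv_cancel]
    rw [mul_val] at h0
    have h1 : ∀ c, x.1 a c * (x⁻¹).1 c b = (1 : Matrix (Fin k) (Fin k) ℤ) a c * (x⁻¹).1 c b := by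
      intro c; rw [hx a c (Or.inl ha)]
    rw [Finset.sum_congr rfl (fun c _ => h1 c), ← Matrix.mul_apply, Matrix.one_mul] at h0
    exact h0
  · have hb : n ≤ (b : ℕ) := hab.resolve_left ha
    have h0 : (x⁻¹ * x).1 a b = (1 : SL k).1 a b := by rw [inv_mul_cancel]
    rw [mul_val] at h0
    have h1 : ∀ c, (x⁻¹).1 a c * x.1 c b = (x⁻¹).1 a c * (1 : Matrix (Fin k) (Fin k) ℤ) c b := by
      intro c; rw [hx c b (Or.inr hb)]
    rw [Finset.sum_congr rfl (fun c _ => h1 c), ← Matrix.mul_apply, Matrix.mul_one] at h0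
    exact h0

theorem InBlk.el {n : ℕ} (i j : Fin k) (h : i ≠ j) (t : ℤ) (hi : (i : ℕ) < n) (hj : (j : ℕ) < n) :
    InBlk n (el i j h t) := by
  intro a b hab
  have h1 : (TAU.el i j h t).1 a b = (TAU.el i j h t * 1).1 a b := by rw [mul_one]
  rw [h1]
  by_cases ha : a = i
  · subst ha
    rw [el_mul_same]
    have hb : n ≤ (b : ℕ) := by
      rcases hab with h | h
      · omega
      · exact h
    have h2 : j ≠ b := by
      intro h; subst h; omega
    have h3 : (1 : SL k).1 j b = 0 := Matrix.one_apply_ne h2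
    rw [h3]; simp
  · rw [el_mul_ne _ _ _ _ _ _ _ ha]; rfl

theorem ElProd.one : ElProd 0 (1 : SL k) := ⟨[], by simp, by simp, rfl⟩

theorem ElProd.el (i j : Fin k) (h : i ≠ j) (t : ℤ) : ElProd 1 (el i j h t) :=
  ⟨[TAU.el i j h t], by simp, by simpa using ⟨i, j, h, t, rfl⟩, by simp⟩

theorem ElProd.mul {r s : ℕ} {x y : SL k} (hx : ElProd r x) (hy : ElProd s y) :
    ElProd (r + s) (x * y) := by
  obtain ⟨l, h1, h2, h3⟩ := hx
  obtain ⟨l', h1', h2', h3'⟩ := hy
  refine ⟨l ++ l', ?_, ?_, ?_⟩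
  · rw [List.length_append]; omega
  · intro z hz
    rcases List.mem_append.1 hz with h | h
    · exact h2 z h
    · exact h2' z h
  · rw [List.prod_append, h3, h3']

theorem ElProd.mono {r s : ℕ} {x : SL k} (hx : ElProd r x) (h : r ≤ s) : ElProd s x := by
  obtain ⟨l, h1, h2, h3⟩ := hx
  exact ⟨l, h1.trans h, h2, h3⟩

theorem el_inv (i j : Fin k) (h : i ≠ j) (t : ℤ) : (el i j h t)⁻¹ = el i j h (-t) := by
  rw [inv_eq_iff_mul_eq_one]
  apply Subtype.ext
  have h1 : (el i j h t * el i j h (-t)).1 =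
      Matrix.transvection i j t * Matrix.transvection i j (-t) := rfl
  rw [h1, Matrix.transvection_mul_transvection_same _ _ h, add_neg_cancel,
    Matrix.transvection_zero]
  rfl

theorem IsEl.inv {x : SL k} (hx : IsEl x) : IsEl x⁻¹ := by
  obtain ⟨i, j, h, t, rfl⟩ := hx
  exact ⟨i, j, h, -t, el_inv i j h t⟩

theorem ElProd.inv {r : ℕ} {x : SL k} (hx : ElProd r x) : ElProd r x⁻¹ := by
  obtain ⟨l, h1, h2, h3⟩ := hx
  refine ⟨(l.map (fun y => y⁻¹)).reverse, ?_, ?_, ?_⟩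
  · simpa using h1
  · intro z hz
    rw [List.mem_reverse, List.mem_map] at hz
    obtain ⟨y, hy, rfl⟩ := hz
    exact IsEl.inv (h2 y hy)
  · rw [← h3, List.prod_inv_reverse]

/-- the moves in the block `n` -/
def Mv (n r : ℕ) (p : SL k) : Prop := ElProd r p ∧ InBlk n p

theorem Mv.one {n : ℕ} : Mv n 0 (1 : SL k) := ⟨ElProd.one, InBlk.one⟩
theorem Mv.mul {n r s : ℕ} {x y : SL k} (hx : Mv n r x) (hy : Mv n s y) : Mv n (r + s) (x * y) :=
  ⟨ElProd.mul hx.1 hy.1, InBlk.mul hx.2 hy.2⟩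
theorem Mv.inv {n r : ℕ} {x : SL k} (hx : Mv n r x) : Mv n r x⁻¹ :=
  ⟨ElProd.inv hx.1, InBlk.inv hx.2⟩
theorem Mv.mono {n r s : ℕ} {x : SL k} (hx : Mv n r x) (h : r ≤ s) : Mv n s x :=
  ⟨ElProd.mono hx.1 h, hx.2⟩
theorem Mv.el {n : ℕ} (i j : Fin k) (h : i ≠ j) (t : ℤ) (hi : (i : ℕ) < n) (hj : (j : ℕ) < n) :
    Mv n 1 (el i j h t) := ⟨ElProd.el i j h t, InBlk.el i j h t hi hj⟩

/-- adding a combination of the rows in `S` to the row `l` -/
theorem rowsum {n : ℕ} (l : Fin k) (hl : (l : ℕ) < n) (c : Fin k → ℤ) (x : SL k)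
    (S : Finset (Fin k)) (hS : ∀ i ∈ S, (i : ℕ) < n ∧ i ≠ l) :
    ∃ p : SL k, Mv n S.card p ∧ (∀ a b, a ≠ l → (p * x).1 a b = x.1 a b) ∧
      ∀ b, (p * x).1 l b = x.1 l b + ∑ i ∈ S, c i * x.1 i b := by
  classical
  induction S using Finset.induction_on with
  | empty => exact ⟨1, Mv.one, by simp, by simp⟩
  | insert i S hi ih =>
    obtain ⟨p, h1, h2, h3⟩ := ih (fun j hj => hS j (Finset.mem_insert_of_mem hj))
    have hi' := hS i (Finset.mem_insert_self i S)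
    refine ⟨TAU.el l i hi'.2.symm (c i) * p, ?_, ?_, ?_⟩
    · rw [Finset.card_insert_of_notMem hi, add_comm]
      exact Mv.mul (Mv.el _ _ _ _ hl hi'.1) h1
    · intro a b ha
      rw [mul_assoc, el_mul_ne _ _ _ _ _ _ _ ha, h2 a b ha]
    · intro b
      rw [mul_assoc, el_mul_same, h3 b, h2 i b hi'.2, Finset.sum_insert hi]
      ring

/-- adding multiples of the row `l` to the rows in `S` -/
theorem rowclear {n : ℕ} (l : Fin k) (hl : (l : ℕ) < n) (d : Fin k → ℤ) (x : SL k)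
    (S : Finset (Fin k)) (hS : ∀ i ∈ S, (i : ℕ) < n ∧ i ≠ l) :
    ∃ p : SL k, Mv n S.card p ∧ (∀ a b, a ∉ S → (p * x).1 a b = x.1 a b) ∧
      ∀ a b, a ∈ S → (p * x).1 a b = x.1 a b + d a * x.1 l b := by
  classical
  induction S using Finset.induction_on with
  | empty => exact ⟨1, Mv.one, by simp, by simp⟩
  | insert i S hi ih =>
    obtain ⟨p, h1, h2, h3⟩ := ih (fun j hj => hS j (Finset.mem_insert_of_mem hj))
    have hi' := hS i (Finset.mem_insert_self i S)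
    have hlS : l ∉ S := fun h => (hS l (Finset.mem_insert_of_mem h)).2 rfl
    refine ⟨TAU.el i l hi'.2 (d i) * p, ?_, ?_, ?_⟩
    · rw [Finset.card_insert_of_notMem hi, add_comm]
      exact Mv.mul (Mv.el _ _ _ _ hi'.1 hl) h1
    · intro a b ha
      rw [Finset.mem_insert, not_or] at ha
      rw [mul_assoc, el_mul_ne _ _ _ _ _ _ _ ha.1, h2 a b ha.2]
    · intro a b ha
      rw [mul_assoc]
      by_cases h : a = i
      · subst h
        rw [el_mul_same, h2 a b hi, h2 l b hlS]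
      · rw [el_mul_ne _ _ _ _ _ _ _ h, h3 a b (Finset.mem_of_mem_insert_of_ne ha h)]

/-- adding multiples of the column `l` to the columns in `S` -/
theorem colclear {n : ℕ} (l : Fin k) (hl : (l : ℕ) < n) (d : Fin k → ℤ) (x : SL k)
    (S : Finset (Fin k)) (hS : ∀ i ∈ S, (i : ℕ) < n ∧ i ≠ l) :
    ∃ p : SL k, Mv n S.card p ∧ (∀ a b, b ∉ S → (x * p).1 a b = x.1 a b) ∧
      ∀ a b, b ∈ S → (x * p).1 a b = x.1 a b + d b * x.1 a l := by
  classical
  induction S using Finset.induction_on with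
  | empty => exact ⟨1, Mv.one, by simp, by simp⟩
  | insert i S hi ih =>
    obtain ⟨p, h1, h2, h3⟩ := ih (fun j hj => hS j (Finset.mem_insert_of_mem hj))
    have hi' := hS i (Finset.mem_insert_self i S)
    have hlS : l ∉ S := fun h => (hS l (Finset.mem_insert_of_mem h)).2 rfl
    refine ⟨p * TAU.el l i hi'.2.symm (d i), ?_, ?_, ?_⟩
    · rw [Finset.card_insert_of_notMem hi]
      exact Mv.mul h1 (Mv.el _ _ _ _ hl hi'.1)
    · intro a b hb
      rw [Finset.mem_insert, not_or] at hb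
      rw [← mul_assoc, mul_el_ne _ _ _ _ _ _ _ hb.1, h2 a b hb.2]
    · intro a b hb
      rw [← mul_assoc]
      by_cases h : b = i
      · subst h
        rw [mul_el_same, h2 a b hi, h2 a l hlS]
      · rw [mul_el_ne _ _ _ _ _ _ _ h, h3 a b (Finset.mem_of_mem_insert_of_ne hb h)]

/-- stable range: a multiple of `b` makes `a` coprime to `c ≠ 0` -/
theorem stable (a b c u v w : ℤ) (h : u * a + v * b + w * c = 1) (hc : c ≠ 0) :
    ∃ t : ℤ, IsCoprime (a + t * b) c := by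
  classical
  set P : Finset ℕ := c.natAbs.primeFactors.filter (fun p => ¬ ((p : ℤ) ∣ a)) with hP
  refine ⟨∏ p ∈ P, (p : ℤ), ?_⟩
  rw [Int.isCoprime_iff_gcd_eq_one]
  by_contra hne
  obtain ⟨p, hp, hpd⟩ := Nat.exists_prime_and_dvd hne
  have h1 : (p : ℤ) ∣ a + (∏ q ∈ P, (q : ℤ)) * b :=
    dvd_trans (Int.natCast_dvd_natCast.2 hpd) (Int.gcd_dvd_left _ _)
  have h2 : (p : ℤ) ∣ c := dvd_trans (Int.natCast_dvd_natCast.2 hpd) (Int.gcd_dvd_right _ _)
  have hp' : Prime (p : ℤ) := Nat.prime_iff_prime_int.1 hp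
  by_cases ha : (p : ℤ) ∣ a
  · have h3 : (p : ℤ) ∣ (∏ q ∈ P, (q : ℤ)) * b := by
      have := dvd_sub h1 ha
      rwa [add_sub_cancel_left] at this
    rcases hp'.dvd_or_dvd h3 with h4 | h4
    · rw [hp'.dvd_finsetProd_iff] at h4
      obtain ⟨q, hq, hpq⟩ := h4
      rw [hP, Finset.mem_filter, Nat.mem_primeFactors] at hq
      have h5 : p ∣ q := Int.natCast_dvd_natCast.1 hpq
      have h6 : p = q := (Nat.prime_dvd_prime_iff_eq hp hq.1.1).1 h5
      exact hq.2 (h6 ▸ ha)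
    · have h5 : (p : ℤ) ∣ 1 := by
        rw [← h]
        exact dvd_add (dvd_add (Dvd.dvd.mul_left ha _) (Dvd.dvd.mul_left h4 _))
          (Dvd.dvd.mul_left h2 _)
      exact hp'.not_dvd_one h5
  · have hmem : p ∈ P := by
      rw [hP, Finset.mem_filter, Nat.mem_primeFactors]
      refine ⟨⟨hp, Int.natCast_dvd.1 h2, ?_⟩, ha⟩
      exact Int.natAbs_ne_zero.2 hc
    have h3 : (p : ℤ) ∣ (∏ q ∈ P, (q : ℤ)) * b :=
      Dvd.dvd.mul_right (Finset.dvd_prod_of_mem _ hmem) _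
    have := dvd_sub h1 h3
    rw [add_sub_cancel_right] at this
    exact ha this

/-- a generator of a finitely generated ideal of the integers -/
theorem gcdcomb {ι : Type} [DecidableEq ι] (S : Finset ι) (f : ι → ℤ) :
    ∃ (b : ℤ) (c : ι → ℤ), b = ∑ i ∈ S, c i * f i ∧ ∀ i ∈ S, b ∣ f i := by
  induction S using Finset.induction_on with
  | empty => exact ⟨0, 0, by simp, by simp⟩
  | insert j S hj ih =>
    obtain ⟨b, c, h1, h2⟩ := ih
    refine ⟨(Int.gcd b (f j) : ℤ), fun i => if i = j then Int.gcdB b (f j) else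
      Int.gcdA b (f j) * c i, ?_, ?_⟩
    · rw [Finset.sum_insert hj, Int.gcd_eq_gcd_ab]
      dsimp only
      rw [if_pos rfl]
      have h3 : ∑ i ∈ S, (if i = j then Int.gcdB b (f j) else Int.gcdA b (f j) * c i) * f i =
          Int.gcdA b (f j) * ∑ i ∈ S, c i * f i := by
        rw [Finset.mul_sum]
        refine Finset.sum_congr rfl fun i hi => ?_
        have : i ≠ j := fun h => hj (h ▸ hi)
        rw [if_neg this]; ring
      rw [h3, ← h1]; ring
    · intro i hi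
      rcases Finset.mem_insert.1 hi with h | h
      · subst h; exact Int.gcd_dvd_right _ _
      · exact dvd_trans (Int.gcd_dvd_left _ _) (h2 i h)

/-- the rows above `l = n - 1` -/
def T (k n : ℕ) : Finset (Fin k) := Finset.univ.filter (fun i : Fin k => (i : ℕ) < n - 1)

theorem mem_T {n : ℕ} {i : Fin k} : i ∈ T k n ↔ (i : ℕ) < n - 1 := by simp [T]

theorem colone {n : ℕ} (hn : 1 ≤ n) (l : Fin k) (hl : (l : ℕ) = n - 1) (x : SL k)
    (hx : InBlk n x) :
    ∑ i ∈ T k n, (x⁻¹).1 l i * x.1 i l + (x⁻¹).1 l l * x.1 l l = 1 := by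
  classical
  have h0 : (x⁻¹ * x).1 l l = (1 : SL k).1 l l := by rw [inv_mul_cancel]
  rw [mul_val] at h0
  have h1 : (1 : SL k).1 l l = 1 := Matrix.one_apply_eq l
  rw [h1] at h0
  have hlT : l ∉ T k n := by rw [mem_T]; omega
  refine Eq.trans ?_ h0
  rw [add_comm, ← Finset.sum_insert (f := fun i => (x⁻¹).1 l i * x.1 i l) hlT]
  refine Finset.sum_subset (Finset.subset_univ _) ?_
  intro i _ hi
  rw [Finset.mem_insert, not_or, mem_T] at hi
  have h2 : n ≤ (i : ℕ) := by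
    have h3 : (i : ℕ) ≠ (l : ℕ) := fun h => hi.1 (Fin.ext h)
    omega
  have h3 : x.1 i l = 0 := by
    rw [hx i l (Or.inl h2)]
    exact Matrix.one_apply_ne hi.1
  rw [h3, mul_zero]

/-- two moves make the part of the column above `l` unimodular -/
theorem unim {n : ℕ} (hn : 3 ≤ n) (hk : n ≤ k) (l : Fin k) (hl : (l : ℕ) = n - 1) (x : SL k)
    (hx : InBlk n x) :
    ∃ (p : SL k) (c : Fin k → ℤ), Mv n 2 p ∧ ∑ i ∈ T k n, c i * (p * x).1 i l = 1 := by
  classical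
  have h1 := colone (by omega) l hl x hx
  by_cases h0 : x.1 l l = 0
  · refine ⟨1, fun i => (x⁻¹).1 l i, Mv.one.mono (by omega), ?_⟩
    rw [h0, mul_zero, add_zero] at h1
    rw [one_mul]; exact h1
  · have hk0 : 0 < k := by omega
    have hk1 : 1 < k := by omega
    set i0 : Fin k := ⟨0, hk0⟩ with hi0
    set i1 : Fin k := ⟨1, hk1⟩ with hi1
    have h1l : i1 ≠ l := by
      intro h; rw [← h] at hl; simp [hi1] at hl; omega
    have h0l : i0 ≠ l := by
      intro h; rw [← h] at hl; simp [hi0] at hl; omega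
    have h01 : i0 ≠ i1 := by
      intro h; simp [hi0, hi1] at h
    have hln : (l : ℕ) < n := by omega
    have m1 : Mv n 1 (TAU.el i1 l h1l (if x.1 i1 l = 0 then 1 else 0)) :=
      Mv.el _ _ _ _ (by simp [hi1]; omega) hln
    set e1 := TAU.el i1 l h1l (if x.1 i1 l = 0 then 1 else 0) with he1
    have hx1 : InBlk n (e1 * x) := InBlk.mul m1.2 hx
    have a1 : (e1 * x).1 i1 l ≠ 0 := by
      rw [he1, el_mul_same]
      split_ifs with h
      · rw [h, zero_add, one_mul]; exact h0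
      · rw [zero_mul, add_zero]; exact h
    obtain ⟨b, c, hb, hdiv⟩ := gcdcomb ((T k n).erase i0) (fun i => (e1 * x).1 i l)
    have hi1T : i1 ∈ (T k n).erase i0 := by
      rw [Finset.mem_erase, mem_T]; exact ⟨h01.symm, by simp [hi1]; omega⟩
    have hi0T : i0 ∈ T k n := by rw [mem_T]; simp [hi0]; omega
    have hb0 : b ≠ 0 := by
      intro h
      have h2 := hdiv i1 hi1T
      rw [h] at h2
      exact a1 (zero_dvd_iff.1 h2)
    have h2 := colone (by omega) l hl (e1 * x) hx1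
    rw [← Finset.add_sum_erase _ _ hi0T] at h2
    have h3 : b ∣ ∑ i ∈ (T k n).erase i0, ((e1 * x)⁻¹).1 l i * (e1 * x).1 i l :=
      Finset.dvd_sum fun i hi => Dvd.dvd.mul_left (hdiv i hi) _
    obtain ⟨w, hw⟩ := h3
    rw [hw] at h2
    obtain ⟨t, u, v, ht⟩ := stable ((e1 * x).1 i0 l) ((e1 * x).1 l l) b
      (((e1 * x)⁻¹).1 l i0) (((e1 * x)⁻¹).1 l l) w (by linarith) hb0
    have m0 : Mv n 1 (TAU.el i0 l h0l t) := Mv.el _ _ _ _ (by simp [hi0]; omega) hln
    refine ⟨TAU.el i0 l h0l t * e1, fun i => if i = i0 then u else v * c i, ?_, ?_⟩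
    · exact Mv.mul m0 m1
    · rw [← Finset.add_sum_erase _ _ hi0T]
      dsimp only
      rw [if_pos rfl, mul_assoc, el_mul_same]
      have h4 : ∑ i ∈ (T k n).erase i0, (if i = i0 then u else v * c i) *
          (TAU.el i0 l h0l t * (e1 * x)).1 i l = v * b := by
        rw [hb, Finset.mul_sum]
        refine Finset.sum_congr rfl fun i hi => ?_
        have hi' := (Finset.mem_erase.1 hi).1
        rw [if_neg hi', el_mul_ne _ _ _ _ _ _ _ hi']; ring
      rw [h4]; exact ht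

/-- one step of the reduction -/
theorem step {n : ℕ} (hn : 3 ≤ n) (hk : n ≤ k) (x : SL k) (hx : InBlk n x) :
    ∃ p y q : SL k, ElProd (2 * k + 2) p ∧ ElProd (2 * k + 2) q ∧ InBlk (n - 1) y ∧
      x = p * y * q := by
  classical
  set l : Fin k := ⟨n - 1, by omega⟩ with hl'
  have hl : (l : ℕ) = n - 1 := rfl
  have hln : (l : ℕ) < n := by omega
  have hT : ∀ i ∈ T k n, (i : ℕ) < n ∧ i ≠ l := by
    intro i hi
    rw [mem_T] at hi
    refine ⟨by omega, ?_⟩
    intro h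
    rw [h] at hi
    omega
  have hlT : l ∉ T k n := fun h => (hT l h).2 rfl
  have hcard : (T k n).card ≤ k := by
    have := Finset.card_le_univ (T k n)
    rwa [Fintype.card_fin] at this
  obtain ⟨p1, c, m1, h1⟩ := unim hn hk l hl x hx
  obtain ⟨p2, m2, h2, h2'⟩ := rowsum l hln (fun i => (1 - (p1 * x).1 l l) * c i) (p1 * x)
    (T k n) hT
  have hll : (p2 * (p1 * x)).1 l l = 1 := by
    rw [h2' l]
    have h3 : ∑ i ∈ T k n, (fun i => (1 - (p1 * x).1 l l) * c i) i * (p1 * x).1 i l =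
        (1 - (p1 * x).1 l l) * ∑ i ∈ T k n, c i * (p1 * x).1 i l := by
      rw [Finset.mul_sum]
      refine Finset.sum_congr rfl fun i _ => ?_
      ring
    rw [h3, h1]; ring
  set x2 := p2 * (p1 * x) with hx2
  obtain ⟨p3, m3, h3, h3'⟩ := rowclear l hln (fun i => - x2.1 i l) x2 (T k n) hT
  set x3 := p3 * x2 with hx3
  have hb3 : InBlk n x3 := InBlk.mul m3.2 (InBlk.mul m2.2 (InBlk.mul m1.2 hx))
  have h3l : x3.1 l l = 1 := by rw [h3 l l hlT, hll]
  have h3c : ∀ i, i ≠ l → x3.1 i l = 0 := by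
    intro i hi
    by_cases h : i ∈ T k n
    · rw [h3' i l h, hll]; ring
    · have h4 : n ≤ (i : ℕ) := by
        rw [mem_T] at h
        have h5 : (i : ℕ) ≠ (l : ℕ) := fun h => hi (Fin.ext h)
        omega
      rw [hb3 i l (Or.inl h4)]
      exact Matrix.one_apply_ne hi
  obtain ⟨q, m4, h4, h4'⟩ := colclear l hln (fun j => - x3.1 l j) x3 (T k n) hT
  have hb4 : InBlk n (x3 * q) := InBlk.mul hb3 m4.2
  have hy : InBlk (n - 1) (x3 * q) := by
    intro i j hij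
    by_cases hc : n ≤ (i : ℕ) ∨ n ≤ (j : ℕ)
    · exact hb4 i j hc
    · rw [not_or] at hc
      by_cases hj : j = l
      · subst hj
        rw [h4 i l hlT]
        by_cases hi : i = l
        · rw [hi, h3l, Matrix.one_apply_eq]
        · rw [h3c i hi, Matrix.one_apply_ne hi]
      · have hi : i = l := by
          apply Fin.ext
          have h5 : (j : ℕ) ≠ (l : ℕ) := fun h => hj (Fin.ext h)
          omega
        have hjT : j ∈ T k n := by
          rw [mem_T]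
          have h5 : (j : ℕ) ≠ (l : ℕ) := fun h => hj (Fin.ext h)
          omega
        rw [hi, h4' l j hjT, h3l, Matrix.one_apply_ne (Ne.symm hj)]
        ring
  refine ⟨(p3 * (p2 * p1))⁻¹, x3 * q, q⁻¹, ?_, ?_, hy, ?_⟩
  · have h5 := (Mv.mul m3 (Mv.mul m2 m1)).inv.1
    exact ElProd.mono h5 (by omega)
  · exact ElProd.mono m4.inv.1 (by omega)
  · rw [hx3, hx2]; group

/-- reduction to the `2 × 2` block -/
theorem reduce (n : ℕ) : 2 ≤ n → n ≤ k → ∀ x : SL k, InBlk n x →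
    ∃ p y q : SL k, ElProd (n * (2 * k + 2)) p ∧ ElProd (n * (2 * k + 2)) q ∧ InBlk 2 y ∧
      x = p * y * q := by
  induction n with
  | zero => intro h; omega
  | succ n ih =>
    intro hn hk x hx
    by_cases h : n + 1 = 2
    · refine ⟨1, x, 1, ElProd.mono ElProd.one (by omega), ElProd.mono ElProd.one (by omega), ?_, by simp⟩
      rw [h] at hx; exact hx
    · obtain ⟨p, y, q, h1, h2, h3, h4⟩ := step (by omega) hk x hx
      obtain ⟨p', y', q', h1', h2', h3', h4'⟩ := ih (by omega) (by omega) y h3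
      refine ⟨p * p', y', q' * q, ?_, ?_, h3', ?_⟩
      · exact ElProd.mono (ElProd.mul h1 h1') (le_of_eq (by ring))
      · exact ElProd.mono (ElProd.mul h2' h2) (le_of_eq (by ring))
      · rw [h4, h4']; group

/-- the `2 × 2` block: five moves make it congruent to `1` -/
theorem block (hk : 2 ≤ k) (m : ℕ) (hm : m ≠ 0) (x : SL k) (hx : InBlk 2 x) :
    ∃ p : SL k, Mv 2 5 p ∧ Cong m (p * x) := by
  classical
  set i0 : Fin k := ⟨0, by omega⟩ with hi0
  set i1 : Fin k := ⟨1, by omega⟩ with hi1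
  have h01 : i0 ≠ i1 := by intro h; simp [hi0, hi1] at h
  have hi0' : (i0 : ℕ) < 2 := by simp [hi0]
  have hi1' : (i1 : ℕ) < 2 := by simp [hi1]
  have h2 := colone (n := 2) (by omega) i1 (by simp [hi1]) x hx
  -- the first column is unimodular
  have hcol : ∃ u v : ℤ, u * x.1 i0 i0 + v * x.1 i1 i0 = 1 := by
    have h0 : (x⁻¹ * x).1 i0 i0 = (1 : SL k).1 i0 i0 := by rw [inv_mul_cancel]
    rw [mul_val] at h0
    have h1 : (1 : SL k).1 i0 i0 = 1 := Matrix.one_apply_eq i0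
    rw [h1] at h0
    refine ⟨(x⁻¹).1 i0 i0, (x⁻¹).1 i0 i1, ?_⟩
    refine Eq.trans ?_ h0
    rw [← Finset.sum_pair (f := fun i => (x⁻¹).1 i0 i * x.1 i i0) h01]
    refine Finset.sum_subset (Finset.subset_univ _) ?_
    intro i _ hi
    rw [Finset.mem_insert, Finset.mem_singleton, not_or] at hi
    have h3 : 2 ≤ (i : ℕ) := by
      have h4 : (i : ℕ) ≠ 0 := fun h => hi.1 (Fin.ext h)
      have h5 : (i : ℕ) ≠ 1 := fun h => hi.2 (Fin.ext h)
      omega
    have h6 : x.1 i i0 = 0 := by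
      rw [hx i i0 (Or.inl h3)]; exact Matrix.one_apply_ne hi.1
    rw [h6, mul_zero]
  obtain ⟨u, v, huv⟩ := hcol
  obtain ⟨t, u', v', ht⟩ := stable (x.1 i0 i0) (x.1 i1 i0) (m : ℤ) u v 0 (by linarith)
    (by exact_mod_cast hm)
  set y1 := TAU.el i0 i1 h01 t * x with hy1
  have e1 : y1.1 i0 i0 = x.1 i0 i0 + t * x.1 i1 i0 := el_mul_same _ _ _ _ _ _
  have e1' : y1.1 i1 i0 = x.1 i1 i0 := el_mul_ne _ _ _ _ _ _ _ h01.symm
  set y2 := TAU.el i1 i0 h01.symm (u' * (1 - y1.1 i1 i0)) * y1 with hy2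
  have e2 : y2.1 i1 i0 = y1.1 i1 i0 + u' * (1 - y1.1 i1 i0) * y1.1 i0 i0 :=
    el_mul_same _ _ _ _ _ _
  have e2' : y2.1 i0 i0 = y1.1 i0 i0 := el_mul_ne _ _ _ _ _ _ _ h01
  set y3 := TAU.el i0 i1 h01 (1 - y2.1 i0 i0) * y2 with hy3
  have e3 : y3.1 i0 i0 = y2.1 i0 i0 + (1 - y2.1 i0 i0) * y2.1 i1 i0 := el_mul_same _ _ _ _ _ _
  have e3' : y3.1 i1 i0 = y2.1 i1 i0 := el_mul_ne _ _ _ _ _ _ _ h01.symm
  set y4 := TAU.el i1 i0 h01.symm (-1) * y3 with hy4
  have e4 : y4.1 i1 i0 = y3.1 i1 i0 + (-1) * y3.1 i0 i0 := el_mul_same _ _ _ _ _ _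
  have e4' : y4.1 i0 i0 = y3.1 i0 i0 := el_mul_ne _ _ _ _ _ _ _ h01
  set y5 := TAU.el i0 i1 h01 (-(y4.1 i0 i1)) * y4 with hy5
  have e5 : ∀ b, y5.1 i0 b = y4.1 i0 b + (-(y4.1 i0 i1)) * y4.1 i1 b :=
    fun b => el_mul_same _ _ _ _ _ _
  have e5' : ∀ b, y5.1 i1 b = y4.1 i1 b := fun b => el_mul_ne _ _ _ _ _ _ _ h01.symm
  have m1 : Mv 2 1 (TAU.el i0 i1 h01 t) := Mv.el _ _ _ _ hi0' hi1'
  have m2 : Mv 2 1 (TAU.el i1 i0 h01.symm (u' * (1 - y1.1 i1 i0))) := Mv.el _ _ _ _ hi1' hi0'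
  have m3 : Mv 2 1 (TAU.el i0 i1 h01 (1 - y2.1 i0 i0)) := Mv.el _ _ _ _ hi0' hi1'
  have m4 : Mv 2 1 (TAU.el i1 i0 h01.symm (-1)) := Mv.el _ _ _ _ hi1' hi0'
  have m5 : Mv 2 1 (TAU.el i0 i1 h01 (-(y4.1 i0 i1))) := Mv.el _ _ _ _ hi0' hi1'
  have b4 : InBlk 2 y4 :=
    InBlk.mul m4.2 (InBlk.mul m3.2 (InBlk.mul m2.2 (InBlk.mul m1.2 hx)))
  have b5 : InBlk 2 y5 := InBlk.mul m5.2 b4
  -- congruences
  have hmz : ((m : ℤ) : ZMod m) = 0 := by simp
  have c1 : (u' : ZMod m) * (y1.1 i0 i0 : ℤ) = 1 := by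
    have h3 : ((u' * (x.1 i0 i0 + t * x.1 i1 i0) + v' * (m : ℤ) : ℤ) : ZMod m) =
        ((1 : ℤ) : ZMod m) := by rw [ht]
    rw [e1]
    push_cast at h3 ⊢
    rw [ZMod.natCast_self, mul_zero, add_zero] at h3
    exact h3
  have c2 : ((y2.1 i1 i0 : ℤ) : ZMod m) = 1 := by
    rw [e2]; push_cast
    linear_combination (1 - ((y1.1 i1 i0 : ℤ) : ZMod m)) * c1
  have c3 : ((y3.1 i0 i0 : ℤ) : ZMod m) = 1 := by
    rw [e3]; push_cast; rw [c2]; ring
  have c3' : ((y3.1 i1 i0 : ℤ) : ZMod m) = 1 := by rw [e3', c2]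
  have c4 : ((y4.1 i1 i0 : ℤ) : ZMod m) = 0 := by
    rw [e4]; push_cast; rw [c3, c3']; ring
  have c4' : ((y4.1 i0 i0 : ℤ) : ZMod m) = 1 := by rw [e4', c3]
  -- the determinant modulo `m`
  have c6 : ((y4.1 i1 i1 : ℤ) : ZMod m) = 1 := by
    set M : Matrix (Fin k) (Fin k) (ZMod m) := y4.1.map (Int.castRingHom (ZMod m)) with hM
    have hdet : M.det = 1 := by
      have h3 := RingHom.map_det (Int.castRingHom (ZMod m)) y4.1
      rw [y4.2, map_one] at h3
      exact h3.symm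
    have hMe : ∀ i j, M i j = ((y4.1 i j : ℤ) : ZMod m) := fun i j => rfl
    have htri : M.BlockTriangular id := by
      intro i j hij
      have hij' : (j : ℕ) < (i : ℕ) := hij
      rw [hMe]
      by_cases h3 : 2 ≤ (i : ℕ)
      · rw [b4 i j (Or.inl h3), Matrix.one_apply_ne (fun h => by rw [h] at hij'; omega)]
        simp
      · have h4 : i = i1 := Fin.ext (by simp [hi1]; omega)
        have h5 : j = i0 := Fin.ext (by simp [hi0]; omega)
        rw [h4, h5, c4]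
    rw [Matrix.det_of_isUpperTriangular htri] at hdet
    rw [Finset.prod_eq_single i1] at hdet
    · rw [hMe] at hdet; exact hdet
    · intro i _ hi
      rw [hMe]
      by_cases h3 : 2 ≤ (i : ℕ)
      · rw [b4 i i (Or.inl h3), Matrix.one_apply_eq]; simp
      · have h4 : i = i0 := by
          apply Fin.ext
          have h5 : (i : ℕ) ≠ 1 := fun h => hi (Fin.ext h)
          simp [hi0]; omega
        rw [h4, c4']
    · intro h; exact absurd (Finset.mem_univ _) h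
  refine ⟨TAU.el i0 i1 h01 (-(y4.1 i0 i1)) * (TAU.el i1 i0 h01.symm (-1) *
    (TAU.el i0 i1 h01 (1 - y2.1 i0 i0) * (TAU.el i1 i0 h01.symm (u' * (1 - y1.1 i1 i0)) *
      TAU.el i0 i1 h01 t))), ?_, ?_⟩
  · exact Mv.mul m5 (Mv.mul m4 (Mv.mul m3 (Mv.mul m2 m1)))
  · have hy : TAU.el i0 i1 h01 (-(y4.1 i0 i1)) * (TAU.el i1 i0 h01.symm (-1) *
        (TAU.el i0 i1 h01 (1 - y2.1 i0 i0) * (TAU.el i1 i0 h01.symm (u' * (1 - y1.1 i1 i0)) *
          TAU.el i0 i1 h01 t))) * x = y5 := by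
      simp only [hy5, hy4, hy3, hy2, hy1, mul_assoc]
    rw [hy]
    intro i j
    by_cases hc : 2 ≤ (i : ℕ) ∨ 2 ≤ (j : ℕ)
    · rw [b5 i j hc, sub_self]; exact dvd_zero _
    · rw [not_or] at hc
      rw [← ZMod.intCast_zmod_eq_zero_iff_dvd]
      push_cast
      rw [sub_eq_zero]
      have hi : i = i0 ∨ i = i1 := by
        by_cases h : (i : ℕ) = 0
        · exact Or.inl (Fin.ext h)
        · exact Or.inr (Fin.ext (by simp [hi1]; omega))
      have hj : j = i0 ∨ j = i1 := by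
        by_cases h : (j : ℕ) = 0
        · exact Or.inl (Fin.ext h)
        · exact Or.inr (Fin.ext (by simp [hi1]; omega))
      rcases hi with rfl | rfl <;> rcases hj with rfl | rfl
      · rw [e5, Matrix.one_apply_eq]; push_cast; rw [c4, c4']; simp
      · rw [e5, Matrix.one_apply_ne h01]; push_cast; rw [c6]; ring
      · rw [e5', Matrix.one_apply_ne h01.symm, c4]; simp
      · rw [e5', Matrix.one_apply_eq, c6]; simp

/-- bounded reduction to the `2 × 2` block, congruent to `1` modulo `m` -/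
theorem decomp (k : ℕ) (hk : 2 ≤ k) : ∃ r : ℕ, ∀ (m : ℕ), 0 < m → ∀ g : SL k,
    ∃ p q c : SL k, ElProd r p ∧ ElProd r q ∧ InBlock c ∧ Cong m c ∧ g = p * c * q := by
  refine ⟨k * (2 * k + 2) + 5, fun m hm g => ?_⟩
  obtain ⟨p, y, q, h1, h2, h3, h4⟩ := reduce k hk le_rfl g
    (fun i j h => by have := i.2; have := j.2; omega)
  obtain ⟨p', h5, h6⟩ := block hk m hm.ne' y h3
  refine ⟨p * p'⁻¹, q, p' * y, ElProd.mul h1 h5.inv.1, ElProd.mono h2 (by omega), ?_, h6, ?_⟩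
  · exact InBlk.mul h5.2 h3
  · rw [h4]; group

end Pool.Agent.TAU.M2
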