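import Mathlib
import Pool.Agent.TAU.Defs
import Pool.Agent.TAU.M2

set_option autoImplicit false

namespace Pool.Agent.TAU

/-! ### adding a `1` at the last place, as a homomorphism -/

theorem gup_cc {k : ℕ} (g : SL k) (i j : Fin k) : up g i.castSucc j.castSucc = g.1 i j := by
  simp [up]

theorem gup_ll {k : ℕ} (g : SL k) : up g (Fin.last k) (Fin.last k) = 1 := by
  simp [up]

theorem gup_cl {k : ℕ} (g : SL k) (i : Fin k) : up g i.castSucc (Fin.last k) = 0 := by
  simp [up]

theorem gup_lc {k : ℕ} (g : SL k) (j : Fin k) : up g (Fin.last k) j.castSucc = 0 := by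
  simp [up]

theorem gup_det {k : ℕ} (g : SL k) : (up g).det = 1 := by
  rw [Matrix.det_succ_row (up g) (Fin.last k), Fin.sum_univ_castSucc]
  rw [Finset.sum_eq_zero]
  · rw [gup_ll, zero_add, mul_one]
    have h1 : ((-1 : ℤ)) ^ (((Fin.last k : Fin (k + 1)) : ℕ) + ((Fin.last k : Fin (k + 1)) : ℕ)) = 1 := by
      rw [← two_mul, pow_mul]; simp
    have h2 : (up g).submatrix (Fin.last k).succAbove (Fin.last k).succAbove = g.1 := by
      ext i j
      rw [Matrix.submatrix_apply, Fin.succAbove_last, gup_cc]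
    rw [h1, one_mul, h2]
    exact g.2
  · intro j _
    rw [gup_lc, mul_zero, zero_mul]

theorem gup_one {k : ℕ} : up (1 : SL k) = 1 := by
  ext i j
  refine Fin.lastCases ?_ (fun i => ?_) i <;> refine Fin.lastCases ?_ (fun j => ?_) j
  · rw [gup_ll, Matrix.one_apply_eq]
  · rw [gup_lc, Matrix.one_apply_ne]
    exact (Fin.castSucc_lt_last j).ne'
  · rw [gup_cl, Matrix.one_apply_ne]
    exact (Fin.castSucc_lt_last i).ne
  · rw [gup_cc]
    by_cases h : i = j
    · subst h
      rw [Matrix.one_apply_eq]; exact Matrix.one_apply_eq i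
    · rw [Matrix.one_apply_ne (fun h' => h (Fin.castSucc_injective k h'))]
      exact Matrix.one_apply_ne h

theorem gup_mul {k : ℕ} (g h : SL k) : up (g * h) = up g * up h := by
  ext i j
  rw [Matrix.mul_apply, Fin.sum_univ_castSucc]
  refine Fin.lastCases ?_ (fun i => ?_) i <;> refine Fin.lastCases ?_ (fun j => ?_) j
  · simp only [gup_ll, gup_lc, gup_cl, zero_mul, Finset.sum_const_zero, mul_one, zero_add]
  · simp only [gup_ll, gup_lc, zero_mul, Finset.sum_const_zero, mul_zero, zero_add]
  · simp only [gup_ll, gup_cl, mul_zero, Finset.sum_const_zero, mul_one, zero_add]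
  · simp only [gup_cc, gup_cl, zero_mul, add_zero]
    show (g.1 * h.1) i j = _
    rw [Matrix.mul_apply]

/-- `up` as a homomorphism -/
def upHom (k : ℕ) : SL k →* SL (k + 1) where
  toFun g := ⟨up g, gup_det g⟩
  map_one' := Subtype.ext gup_one
  map_mul' g h := Subtype.ext (gup_mul g h)

theorem upHom_el {k : ℕ} (i j : Fin k) (h : i ≠ j) (t : ℤ) :
    upHom k (el i j h t) = el i.castSucc j.castSucc (fun h' => h (Fin.castSucc_injective k h')) t := by
  apply Subtype.ext
  show up (el i j h t) = Matrix.transvection i.castSucc j.castSucc t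
  ext a b
  unfold Matrix.transvection
  rw [Matrix.add_apply]
  refine Fin.lastCases ?_ (fun a => ?_) a <;> refine Fin.lastCases ?_ (fun b => ?_) b
  · rw [gup_ll, Matrix.one_apply_eq, Matrix.single_apply_of_ne, add_zero]
    intro h'; exact (Fin.castSucc_lt_last i).ne h'.1
  · rw [gup_lc, Matrix.one_apply_ne (Fin.castSucc_lt_last b).ne', Matrix.single_apply_of_ne, add_zero]
    intro h'; exact (Fin.castSucc_lt_last i).ne h'.1
  · rw [gup_cl, Matrix.one_apply_ne (Fin.castSucc_lt_last a).ne, Matrix.single_apply_of_ne, add_zero]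
    intro h'; exact (Fin.castSucc_lt_last j).ne h'.2
  · rw [gup_cc]
    show (Matrix.transvection i j t) a b = _
    unfold Matrix.transvection
    rw [Matrix.add_apply]
    congr 1
    · by_cases h1 : a = b
      · subst h1; rw [Matrix.one_apply_eq, Matrix.one_apply_eq]
      · rw [Matrix.one_apply_ne h1, Matrix.one_apply_ne (fun h' => h1 (Fin.castSucc_injective k h'))]
    · simp only [Matrix.single_apply, (Fin.castSucc_injective k).eq_iff]


/-! ### generation by elementary matrices -/

theorem mem_closure_of_elProd {k r : ℕ} {x : SL k} (h : ElProd r x) :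
    x ∈ Subgroup.closure {x : SL k | IsEl x} := by
  obtain ⟨l, _, hl, rfl⟩ := h
  exact Subgroup.list_prod_mem _ (fun y hy => Subgroup.subset_closure (hl y hy))

open ModularGroup in
theorem gen_two : Subgroup.closure {x : SL 2 | IsEl x} = ⊤ := by
  rw [eq_top_iff, ← SpecialLinearGroup.SL2Z_generators, Subgroup.closure_le]
  have hT : T = el (0 : Fin 2) 1 (by decide) 1 := by
    apply Subtype.ext
    show (T : Matrix.SpecialLinearGroup (Fin 2) ℤ).1 = Matrix.transvection 0 1 1
    ext a b
    fin_cases a <;> fin_cases b <;> simp [T, Matrix.transvection]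
  have hS : S = el (0 : Fin 2) 1 (by decide) (-1) * el (1 : Fin 2) 0 (by decide) 1 *
      el (0 : Fin 2) 1 (by decide) (-1) := by
    apply Subtype.ext
    show (S : Matrix.SpecialLinearGroup (Fin 2) ℤ).1 = Matrix.transvection 0 1 (-1) *
      Matrix.transvection 1 0 1 * Matrix.transvection 0 1 (-1)
    ext a b
    fin_cases a <;> fin_cases b <;>
      simp [S, Matrix.transvection, Matrix.single_apply, Matrix.mul_apply, Fin.sum_univ_two]
  rintro x (rfl | rfl)
  · rw [hS]
    exact mul_mem (mul_mem (Subgroup.subset_closure ⟨_, _, _, _, rfl⟩)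
      (Subgroup.subset_closure ⟨_, _, _, _, rfl⟩)) (Subgroup.subset_closure ⟨_, _, _, _, rfl⟩)
  · rw [hT]
    exact Subgroup.subset_closure ⟨_, _, _, _, rfl⟩

theorem gen_of_stepK (st : ∀ k : ℕ, 2 ≤ k → ∃ r : ℕ, ∀ g : SL (k + 1), ∃ p q : SL (k + 1),
    ∃ g' : SL k, ElProd r p ∧ ElProd r q ∧ (p * g * q).1 = up g') (k : ℕ) (hk : 2 ≤ k) :
    Subgroup.closure {x : SL k | IsEl x} = ⊤ := by
  induction k, hk using Nat.le_induction with
  | base => exact gen_two
  | succ k hk ih =>
    obtain ⟨r, hr⟩ := st k hk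
    rw [eq_top_iff]
    intro g _
    obtain ⟨p, q, g', hp, hq, hg⟩ := hr g
    have hmap : (Subgroup.closure {x : SL k | IsEl x}).map (upHom k) ≤
        Subgroup.closure {x : SL (k + 1) | IsEl x} := by
      rw [MonoidHom.map_closure, Subgroup.closure_le]
      rintro _ ⟨x, ⟨i, j, h, t, rfl⟩, rfl⟩
      rw [upHom_el]
      exact Subgroup.subset_closure ⟨_, _, _, _, rfl⟩
    have hu : upHom k g' ∈ Subgroup.closure {x : SL (k + 1) | IsEl x} :=
      hmap ⟨g', by rw [ih]; trivial, rfl⟩
    have he : p * g * q = upHom k g' := Subtype.ext hg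
    have hg2 : g = p⁻¹ * upHom k g' * q⁻¹ := by rw [← he]; group
    rw [hg2]
    exact mul_mem (mul_mem (inv_mem (mem_closure_of_elProd hp)) hu)
      (inv_mem (mem_closure_of_elProd hq))

theorem el_comm {k : ℕ} (i j l : Fin k) (hij : i ≠ j) (hil : i ≠ l) (hlj : l ≠ j) (t : ℤ) :
    el i l hil t * el l j hlj 1 = el i j hij t * el l j hlj 1 * el i l hil t := by
  apply Subtype.ext
  show Matrix.transvection i l t * Matrix.transvection l j 1 =
    Matrix.transvection i j t * Matrix.transvection l j 1 * Matrix.transvection i l t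
  unfold Matrix.transvection
  simp only [mul_add, add_mul, one_mul, mul_one, Matrix.single_mul_single_same,
    Matrix.single_mul_single_of_ne _ _ _ _ hij.symm, Matrix.single_mul_single_of_ne _ _ _ _ hlj.symm,
    add_zero]
  abel

theorem perfect_of_gen {k : ℕ} (hk : 3 ≤ k)
    (hg : Subgroup.closure {x : SL k | IsEl x} = ⊤) (A : Type) [CommGroup A] (f : SL k →* A)
    (x : SL k) : f x = 1 := by
  have hx : x ∈ Subgroup.closure {x : SL k | IsEl x} := by rw [hg]; trivial
  have hle : Subgroup.closure {x : SL k | IsEl x} ≤ f.ker := by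
    rw [Subgroup.closure_le]
    rintro _ ⟨i, j, h, t, rfl⟩
    show f (el i j h t) = 1
    have hl : ∃ l : Fin k, i ≠ l ∧ l ≠ j := by
      by_contra hcon
      push Not at hcon
      have hcard : (Finset.univ : Finset (Fin k)).card ≤ ({i, j} : Finset (Fin k)).card := by
        apply Finset.card_le_card
        intro l _
        rw [Finset.mem_insert, Finset.mem_singleton]
        by_cases h1 : i = l
        · exact Or.inl h1.symm
        · exact Or.inr (hcon l h1)
      have h2 := Finset.card_le_two (a := i) (b := j)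
      rw [Finset.card_univ, Fintype.card_fin] at hcard
      omega
    obtain ⟨l, hil, hlj⟩ := hl
    have h1 := congrArg f (el_comm i j l h hil hlj t)
    simp only [map_mul] at h1
    have h2 : f (el i j h t) * (f (el i l hil t) * f (el l j hlj 1)) =
        f (el i l hil t) * f (el l j hlj 1) := by
      refine Eq.trans ?_ h1.symm
      rw [mul_comm (f (el i l hil t)) (f (el l j hlj 1)), mul_assoc]
    exact mul_eq_right.1 h2
  exact hle hx

/-! ### generation from the decomposition -/

theorem gup_closure {k : ℕ} : (Subgroup.closure {x : SL k | IsEl x}).map (upHom k) ≤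
    Subgroup.closure {x : SL (k + 1) | IsEl x} := by
  rw [MonoidHom.map_closure, Subgroup.closure_le]
  rintro _ ⟨x, ⟨i, j, h, t, rfl⟩, rfl⟩
  rw [upHom_el]
  exact Subgroup.subset_closure ⟨_, _, _, _, rfl⟩

theorem exists_upHom {k : ℕ} (x : SL (k + 1))
    (h1 : ∀ j : Fin (k + 1), x.1 (Fin.last k) j = (1 : Matrix (Fin (k + 1)) (Fin (k + 1)) ℤ) (Fin.last k) j)
    (h2 : ∀ i : Fin (k + 1), x.1 i (Fin.last k) = (1 : Matrix (Fin (k + 1)) (Fin (k + 1)) ℤ) i (Fin.last k)) :
    ∃ y : SL k, upHom k y = x ∧ ∀ i j : Fin k, y.1 i j = x.1 i.castSucc j.castSucc := by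
  have hdet : (x.1.submatrix Fin.castSucc Fin.castSucc).det = 1 := by
    have h3 := x.2
    rw [Matrix.det_succ_row x.1 (Fin.last k), Fin.sum_univ_castSucc, Finset.sum_eq_zero] at h3
    · rw [h1, Matrix.one_apply_eq, zero_add, mul_one] at h3
      have h4 : ((-1 : ℤ)) ^ (((Fin.last k : Fin (k + 1)) : ℕ) +
          ((Fin.last k : Fin (k + 1)) : ℕ)) = 1 := by
        rw [← two_mul, pow_mul]; simp
      rw [h4, one_mul, Fin.succAbove_last] at h3
      exact h3
    · intro j _
      rw [h1, Matrix.one_apply_ne (Fin.castSucc_lt_last j).ne', mul_zero, zero_mul]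
  refine ⟨⟨x.1.submatrix Fin.castSucc Fin.castSucc, hdet⟩, ?_, fun i j => rfl⟩
  apply Subtype.ext
  show up _ = x.1
  ext i j
  refine Fin.lastCases ?_ (fun i => ?_) i
  · rw [h1]
    refine Fin.lastCases ?_ (fun j => ?_) j
    · rw [gup_ll, Matrix.one_apply_eq]
    · rw [gup_lc, Matrix.one_apply_ne (Fin.castSucc_lt_last j).ne']
  · refine Fin.lastCases ?_ (fun j => ?_) j
    · rw [h2, gup_cl, Matrix.one_apply_ne (Fin.castSucc_lt_last i).ne]
    · rw [gup_cc]
      rfl

theorem block_mem (n : ℕ) : ∀ x : SL (2 + n), InBlock x →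
    x ∈ Subgroup.closure {x : SL (2 + n) | IsEl x} := by
  induction n with
  | zero =>
    intro x _
    have : Subgroup.closure {x : SL 2 | IsEl x} = ⊤ := gen_two
    exact this.symm ▸ Subgroup.mem_top x
  | succ n ih =>
    intro x hx
    obtain ⟨y, rfl, hy⟩ := exists_upHom (k := 2 + n) x
      (fun j => hx _ _ (Or.inl (by simp [Fin.val_last])))
      (fun i => hx _ _ (Or.inr (by simp [Fin.val_last])))
    apply gup_closure
    refine ⟨y, ih y ?_, rfl⟩
    intro i j hij
    rw [hy, hx i.castSucc j.castSucc hij]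
    by_cases h : i = j
    · subst h; rw [Matrix.one_apply_eq, Matrix.one_apply_eq]
    · rw [Matrix.one_apply_ne h, Matrix.one_apply_ne (fun h' => h (Fin.castSucc_injective _ h'))]

theorem gen (k : ℕ) (hk : 2 ≤ k) : Subgroup.closure {x : SL k | IsEl x} = ⊤ := by
  obtain ⟨r, hr⟩ := M2.decomp k hk
  rw [eq_top_iff]
  intro g _
  obtain ⟨p, q, c, hp, hq, hc, _, rfl⟩ := hr 1 one_pos g
  have hcm : c ∈ Subgroup.closure {x : SL k | IsEl x} := by
    obtain ⟨n, rfl⟩ := Nat.exists_eq_add_of_le hk
    exact block_mem n c hc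
  exact mul_mem (mul_mem (mem_closure_of_elProd hp) hcm) (mem_closure_of_elProd hq)

theorem perfect (k : ℕ) (hk : 3 ≤ k) (A : Type) [CommGroup A] (f : SL k →* A) (x : SL k) :
    f x = 1 :=
  perfect_of_gen hk (gen k (by omega)) A f x

end Pool.Agent.TAU
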