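import Pool.Agent.TAU.Defs

/-!
Elementary matrices: relations, and the root bound: all the `1 + t e_ij` move a vector by at most
a constant times what the `1 + e_ij` do, given the relative spectral gap (`relgap`) as a
hypothesis.
-/

set_option autoImplicit false
open Finset

namespace Pool.Agent.TAU

variable {k : ℕ}

theorem rt_mul (i j : Fin k) (h : i ≠ j) (s t : ℤ) : el i j h s * el i j h t = el i j h (s + t) := by
  apply Subtype.ext
  show Matrix.transvection i j s * Matrix.transvection i j t = Matrix.transvection i j (s + t)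
  exact Matrix.transvection_mul_transvection_same i j h s t

theorem rt_zero (i j : Fin k) (h : i ≠ j) : el i j h 0 = 1 := by
  apply Subtype.ext
  show Matrix.transvection i j (0 : ℤ) = 1
  exact Matrix.transvection_zero i j

theorem rt_inv (i j : Fin k) (h : i ≠ j) (t : ℤ) : (el i j h t)⁻¹ = el i j h (-t) := by
  rw [inv_eq_iff_mul_eq_one, rt_mul, add_neg_cancel, rt_zero]

theorem rt_pow (i j : Fin k) (h : i ≠ j) (t : ℤ) (n : ℕ) : el i j h t ^ n = el i j h (n * t) := by
  induction n with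
  | zero => simp [rt_zero]
  | succ n ih =>
    rw [pow_succ, ih, rt_mul]
    congr 1
    push_cast
    ring

theorem rt_zpow (i j : Fin k) (h : i ≠ j) (t s : ℤ) : el i j h t ^ s = el i j h (s * t) := by
  rcases s with n | n
  · rw [Int.ofNat_eq_natCast, zpow_natCast, rt_pow]
  · rw [zpow_negSucc, rt_pow, rt_inv]
    congr 1
    rw [Int.negSucc_eq]
    push_cast
    ring

/-- same column -/
theorem rt_comm_col (i j l : Fin k) (hi : i ≠ l) (hj : j ≠ l) (s t : ℤ) :
    el i l hi s * el j l hj t = el j l hj t * el i l hi s := by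
  apply Subtype.ext
  show Matrix.transvection i l s * Matrix.transvection j l t
    = Matrix.transvection j l t * Matrix.transvection i l s
  simp only [Matrix.transvection, mul_add, add_mul, one_mul, mul_one]
  rw [Matrix.single_mul_single_of_ne _ _ _ _ hj.symm, Matrix.single_mul_single_of_ne _ _ _ _ hi.symm]
  abel

/-- same row -/
theorem rt_comm_row (i j l : Fin k) (hi : i ≠ j) (hj : i ≠ l) (s t : ℤ) :
    el i j hi s * el i l hj t = el i l hj t * el i j hi s := by
  apply Subtype.ext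
  show Matrix.transvection i j s * Matrix.transvection i l t
    = Matrix.transvection i l t * Matrix.transvection i j s
  simp only [Matrix.transvection, mul_add, add_mul, one_mul, mul_one]
  rw [Matrix.single_mul_single_of_ne _ _ _ _ hi.symm, Matrix.single_mul_single_of_ne _ _ _ _ hj.symm]
  abel

/-- the commutator relation -/
theorem rt_rel (i j l : Fin k) (hij : i ≠ j) (hjl : j ≠ l) (hil : i ≠ l) (s t : ℤ) :
    el i j hij s * el j l hjl t = el i l hil (s * t) * el j l hjl t * el i j hij s := by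
  apply Subtype.ext
  show Matrix.transvection i j s * Matrix.transvection j l t
    = Matrix.transvection i l (s * t) * Matrix.transvection j l t * Matrix.transvection i j s
  simp only [Matrix.transvection, mul_add, add_mul, one_mul, mul_one]
  rw [Matrix.single_mul_single_same, Matrix.single_mul_single_of_ne _ _ _ _ hjl.symm,
    Matrix.single_mul_single_of_ne _ _ _ _ hil.symm, Matrix.single_mul_single_of_ne _ _ _ _ hil.symm]
  simp only [zero_mul]
  abel

/-- the matrices `1 + e_ij` -/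
def gens (k : ℕ) : Finset (SL k) :=
  (Finset.univ : Finset {p : Fin k × Fin k // p.1 ≠ p.2}).image fun p => el p.1.1 p.1.2 p.2 1

theorem mem_gens (i j : Fin k) (h : i ≠ j) : el i j h 1 ∈ gens k := by
  unfold gens
  exact Finset.mem_image.2 ⟨⟨(i, j), h⟩, Finset.mem_univ _, rfl⟩

variable {H : Type} [NormedAddCommGroup H] [InnerProductSpace ℂ H]

theorem le_energy (ρ : SL k →* (H ≃ₗᵢ[ℂ] H)) (v : H) (i j : Fin k) (h : i ≠ j) :
    ‖ρ (el i j h 1) v - v‖ ^ 2 ≤ ∑ a ∈ gens k, ‖ρ a v - v‖ ^ 2 :=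
  Finset.single_le_sum (f := fun a => ‖ρ a v - v‖ ^ 2) (fun _ _ => sq_nonneg _) (mem_gens i j h)

theorem energy_nonneg (ρ : SL k →* (H ≃ₗᵢ[ℂ] H)) (v : H) :
    0 ≤ ∑ a ∈ gens k, ‖ρ a v - v‖ ^ 2 := Finset.sum_nonneg fun _ _ => sq_nonneg _

/-- the root bound, from the relative gap -/
theorem root_bound (hrel : ∃ C : ℝ, 0 < C ∧ ∀ (G H : Type) [Group G] [NormedAddCommGroup H]
    [InnerProductSpace ℂ H] (ρ : G →* (H ≃ₗᵢ[ℂ] H)) (a b g l : G) (m : ℕ), 0 < m →
    a * b = b * a → g * a = a * g → g * b = a * b * g → l * a = a * b * l → l * b = b * l →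
    ρ (a ^ m) = 1 → ρ (b ^ m) = 1 → ∀ (v : H) (s : ℤ), ‖ρ (a ^ s) v - v‖ ^ 2 ≤
      C * (‖ρ a v - v‖ ^ 2 + ‖ρ b v - v‖ ^ 2 + ‖ρ g v - v‖ ^ 2 + ‖ρ l v - v‖ ^ 2))
    (k : ℕ) (hk : 3 ≤ k) : ∃ C : ℝ, 0 < C ∧ ∀ (H : Type) [NormedAddCommGroup H]
      [InnerProductSpace ℂ H] (ρ : SL k →* (H ≃ₗᵢ[ℂ] H)), (ρ.ker).FiniteIndex →
      ∀ (i j : Fin k) (h : i ≠ j) (t : ℤ) (v : H),
        ‖ρ (el i j h t) v - v‖ ^ 2 ≤ C * ∑ a ∈ gens k, ‖ρ a v - v‖ ^ 2 := by
  obtain ⟨C, hC, hrel⟩ := hrel
  refine ⟨4 * C, by linarith, ?_⟩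
  intro H _ _ ρ hfin i l hil t v
  obtain ⟨j, hj⟩ : ∃ j : Fin k, j ≠ i ∧ j ≠ l := by
    by_contra hcon
    push Not at hcon
    have h1 : (Finset.univ : Finset (Fin k)) ⊆ {i, l} := by
      intro j _
      rw [Finset.mem_insert, Finset.mem_singleton]
      by_cases hji : j = i
      · exact Or.inl hji
      · exact Or.inr (hcon j hji)
    have h2 := Finset.card_le_card h1
    have h3 : ({i, l} : Finset (Fin k)).card ≤ 2 := Finset.card_le_two
    rw [Finset.card_univ, Fintype.card_fin] at h2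
    omega
  have hij : i ≠ j := hj.1.symm
  have hji : j ≠ i := hj.1
  have hjl : j ≠ l := hj.2
  have hm : 0 < (ρ.ker).index := Nat.pos_of_ne_zero hfin.index_ne_zero
  have hker : ∀ x : SL k, ρ (x ^ (ρ.ker).index) = 1 := fun x =>
    MonoidHom.mem_ker.1 (Subgroup.pow_index_mem (ρ.ker) x)
  have h1 := hrel (SL k) H ρ (el i l hil 1) (el j l hjl 1) (el i j hij 1) (el j i hji 1)
    (ρ.ker).index hm (rt_comm_col i j l hil hjl 1 1) (rt_comm_row i j l hij hil 1 1)
    (by rw [rt_rel i j l hij hjl hil 1 1, mul_one])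
    (by rw [rt_rel j i l hji hil hjl 1 1, mul_one, rt_comm_col j i l hjl hil 1 1])
    (rt_comm_row j i l hji hjl 1 1) (hker _) (hker _) v t
  rw [rt_zpow, mul_one] at h1
  have e1 := le_energy ρ v i l hil
  have e2 := le_energy ρ v j l hjl
  have e3 := le_energy ρ v i j hij
  have e4 := le_energy ρ v j i hji
  have e5 := energy_nonneg ρ v
  calc ‖ρ (el i l hil t) v - v‖ ^ 2 ≤ C * (‖ρ (el i l hil 1) v - v‖ ^ 2
        + ‖ρ (el j l hjl 1) v - v‖ ^ 2 + ‖ρ (el i j hij 1) v - v‖ ^ 2
        + ‖ρ (el j i hji 1) v - v‖ ^ 2) := h1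
    _ ≤ C * (4 * ∑ a ∈ gens k, ‖ρ a v - v‖ ^ 2) :=
        mul_le_mul_of_nonneg_left (by linarith) hC.le
    _ = 4 * C * ∑ a ∈ gens k, ‖ρ a v - v‖ ^ 2 := by ring

/-- products of at most `r` elementary matrices -/
theorem elprod_bound (ρ : SL k →* (H ≃ₗᵢ[ℂ] H)) (v : H) (B : ℝ)
    (hB : ∀ (i j : Fin k) (h : i ≠ j) (t : ℤ), ‖ρ (el i j h t) v - v‖ ≤ B) (hB0 : 0 ≤ B)
    (r : ℕ) (x : SL k) (hx : ElProd r x) : ‖ρ x v - v‖ ≤ r * B := by
  obtain ⟨L, hL, hel, rfl⟩ := hx
  have key : ∀ L : List (SL k), (∀ y ∈ L, IsEl y) → ‖ρ L.prod v - v‖ ≤ L.length * B := by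
    intro L
    induction L with
    | nil =>
      intro _
      simp
    | cons y L ih =>
      intro h
      have h1 : ‖ρ y v - v‖ ≤ B := by
        obtain ⟨i, j, hij, t, rfl⟩ := h y (by simp)
        exact hB i j hij t
      have h2 := ih fun z hz => h z (by simp [hz])
      have h3 : ρ (y :: L).prod v - v = ρ y (ρ L.prod v - v) + (ρ y v - v) := by
        rw [List.prod_cons, map_mul, map_sub]
        show ρ y (ρ L.prod v) - v = _
        abel
      rw [h3]
      calc ‖ρ y (ρ L.prod v - v) + (ρ y v - v)‖ ≤ ‖ρ y (ρ L.prod v - v)‖ + ‖ρ y v - v‖ :=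
            norm_add_le _ _
        _ ≤ L.length * B + B := by
            rw [LinearIsometryEquiv.norm_map]
            exact add_le_add h2 h1
        _ = ((y :: L).length : ℝ) * B := by
            rw [List.length_cons]
            push_cast
            ring
  refine (key L hel).trans ?_
  exact mul_le_mul_of_nonneg_right (by exact_mod_cast hL) hB0

end Pool.Agent.TAU
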