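import Pool.Agent.TAU.Shift

/-!
The relative spectral gap for `ℤ² ⋊ SL_2(ℤ)`, representations with a finite image of `ℤ²`.
-/

set_option autoImplicit false
open Finset

namespace Pool.Agent.TAU

section group

variable {K : Type} [Group K] {m : ℕ} [NeZero m]

theorem pow_val_add {u : K} (hu : u ^ m = 1) (s t : ZMod m) :
    u ^ (s + t).val = u ^ s.val * u ^ t.val := by
  rw [ZMod.val_add, ← pow_add]
  exact (pow_eq_pow_mod _ hu).symm

theorem pow_val_one {u : K} (hu : u ^ m = 1) : u ^ (1 : ZMod m).val = u := by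
  rw [ZMod.val_one_eq_one_mod, ← pow_eq_pow_mod _ hu, pow_one]

/-- the homomorphism given by two commuting elements with `u ^ m = 1` -/
def pi2 (u1 u2 : K) (h : Commute u1 u2) (h1 : u1 ^ m = 1) (h2 : u2 ^ m = 1) :
    Multiplicative (ZMod m × ZMod m) →* K where
  toFun x := u1 ^ (Multiplicative.toAdd x).1.val * u2 ^ (Multiplicative.toAdd x).2.val
  map_one' := by
    show u1 ^ (0 : ZMod m).val * u2 ^ (0 : ZMod m).val = 1
    rw [ZMod.val_zero, pow_zero, pow_zero, one_mul]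
  map_mul' x y := by
    show u1 ^ ((Multiplicative.toAdd x).1 + (Multiplicative.toAdd y).1).val *
      u2 ^ ((Multiplicative.toAdd x).2 + (Multiplicative.toAdd y).2).val = _
    rw [pow_val_add h1, pow_val_add h2]
    exact ((h.pow_pow _ _).mul_mul_mul_comm _ _)

variable (u1 u2 : K) (h : Commute u1 u2) (h1 : u1 ^ m = 1) (h2 : u2 ^ m = 1)

theorem pi2_e1 : pi2 u1 u2 h h1 h2 (Multiplicative.ofAdd (1, 0)) = u1 := by
  show u1 ^ (1 : ZMod m).val * u2 ^ (0 : ZMod m).val = u1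
  rw [pow_val_one h1, ZMod.val_zero, pow_zero, mul_one]

theorem pi2_e2 : pi2 u1 u2 h h1 h2 (Multiplicative.ofAdd (0, 1)) = u2 := by
  show u1 ^ (0 : ZMod m).val * u2 ^ (1 : ZMod m).val = u2
  rw [pow_val_one h2, ZMod.val_zero, pow_zero, one_mul]

/-- the shear `(s, t) ↦ (s, s + t)` -/
def sl (m : ℕ) : ZMod m × ZMod m ≃+ ZMod m × ZMod m where
  toFun x := (x.1, x.1 + x.2)
  invFun x := (x.1, x.2 - x.1)
  left_inv x := by
    ext <;> simp
  right_inv x := by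
    ext <;> simp
  map_add' x y := by
    ext
    · rfl
    · show x.1 + y.1 + (x.2 + y.2) = x.1 + x.2 + (y.1 + y.2)
      ring

/-- the shear `(s, t) ↦ (s + t, t)` -/
def sg (m : ℕ) : ZMod m × ZMod m ≃+ ZMod m × ZMod m where
  toFun x := (x.1 + x.2, x.2)
  invFun x := (x.1 - x.2, x.2)
  left_inv x := by
    ext <;> simp
  right_inv x := by
    ext <;> simp
  map_add' x y := by
    ext
    · show x.1 + y.1 + (x.2 + y.2) = x.1 + x.2 + (y.1 + y.2)
      ring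
    · rfl

theorem pi2_l (u : K) (e1 : u * u1 = u1 * u2 * u) (e2 : u * u2 = u2 * u) (x : ZMod m × ZMod m) :
    u * pi2 u1 u2 h h1 h2 (Multiplicative.ofAdd x) =
      pi2 u1 u2 h h1 h2 (Multiplicative.ofAdd (sl m x)) * u := by
  show u * (u1 ^ x.1.val * u2 ^ x.2.val) = u1 ^ x.1.val * u2 ^ (x.1 + x.2).val * u
  rw [pow_val_add h2, ← mul_assoc (u1 ^ x.1.val), ← h.mul_pow]
  have a1 : SemiconjBy u u1 (u1 * u2) := e1
  have a2 : SemiconjBy u u2 u2 := e2
  exact (a1.pow_right _).mul_right (a2.pow_right _)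

theorem pi2_g (u : K) (e1 : u * u1 = u1 * u) (e2 : u * u2 = u1 * u2 * u) (x : ZMod m × ZMod m) :
    u * pi2 u1 u2 h h1 h2 (Multiplicative.ofAdd x) =
      pi2 u1 u2 h h1 h2 (Multiplicative.ofAdd (sg m x)) * u := by
  show u * (u1 ^ x.1.val * u2 ^ x.2.val) = u1 ^ (x.1 + x.2).val * u2 ^ x.2.val * u
  rw [pow_val_add h1, mul_assoc (u1 ^ x.1.val), ← h.mul_pow]
  have a1 : SemiconjBy u u1 u1 := e1
  have a2 : SemiconjBy u u2 (u1 * u2) := e2
  exact (a1.pow_right _).mul_right (a2.pow_right _)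

end group

section args

theorem arg_add {z w : ℂ} (hz : ‖z‖ = 1) (hw : ‖w‖ = 1) (h1 : |z.arg| < Real.pi / 4)
    (h2 : |w.arg| < Real.pi / 4) : (z * w).arg = z.arg + w.arg := by
  have hz0 : z ≠ 0 := by
    intro h
    rw [h, norm_zero] at hz
    exact zero_ne_one hz
  have hw0 : w ≠ 0 := by
    intro h
    rw [h, norm_zero] at hw
    exact zero_ne_one hw
  rw [abs_lt] at h1 h2
  have := Real.pi_pos
  exact (Complex.arg_mul_eq_add_arg_iff hz0 hw0).2 ⟨by linarith [h1.1, h2.1], by linarith [h1.2, h2.2]⟩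

theorem arg_inv' {w : ℂ} (h2 : |w.arg| < Real.pi / 4) : (w⁻¹).arg = - w.arg := by
  rw [abs_lt] at h2
  have := Real.pi_pos
  rw [Complex.arg_inv, if_neg]
  intro h
  linarith [h2.2]

theorem arg_sub {z w : ℂ} (hz : ‖z‖ = 1) (hw : ‖w‖ = 1) (h1 : |z.arg| < Real.pi / 4)
    (h2 : |w.arg| < Real.pi / 4) : (z * w⁻¹).arg = z.arg - w.arg := by
  rw [arg_add hz (by rw [norm_inv, hw, inv_one]) h1 (by rw [arg_inv' h2, abs_neg]; exact h2),
    arg_inv' h2, sub_eq_add_neg]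

theorem far {z : ℂ} (hz : ‖z‖ = 1) (h : Real.pi / 4 ≤ |z.arg|) : 1 ≤ 2 * ‖z - 1‖ ^ 2 := by
  have hz0 : z ≠ 0 := by
    intro h
    rw [h, norm_zero] at hz
    exact zero_ne_one hz
  have h1 : ‖z - 1‖ ^ 2 = 2 - 2 * z.re := by
    rw [← Complex.normSq_eq_norm_sq, Complex.normSq_sub, Complex.normSq_eq_norm_sq, hz]
    simp
    ring
  have h2 : Real.cos z.arg = z.re := by
    rw [Complex.cos_arg hz0, hz, div_one]
  have h3 : Real.cos |z.arg| ≤ Real.cos (Real.pi / 4) :=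
    Real.cos_le_cos_of_nonneg_of_le_pi (by positivity) (Complex.abs_arg_le_pi z) h
  rw [Real.cos_abs, h2, Real.cos_pi_div_four] at h3
  have h4 : Real.sqrt 2 ≤ 3 / 2 := by
    rw [Real.sqrt_le_left (by norm_num)]
    norm_num
  linarith

theorem eq_one_of_arg {z : ℂ} (hz : ‖z‖ = 1) (h : z.arg = 0) : z = 1 := by
  have := Complex.norm_mul_exp_arg_mul_I z
  rw [hz, h] at this
  simpa using this.symm

end args

section fixed

variable {A : Type} [AddCommGroup A] [Fintype A]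
variable {H : Type} [NormedAddCommGroup H] [InnerProductSpace ℂ H]

theorem pr_of_fixed (π : Multiplicative A →* (H ≃ₗᵢ[ℂ] H)) (v : H)
    (hv : ∀ a, π (Multiplicative.ofAdd a) v = v) : pr π 1 v = v := by
  simp only [pr, hv, AddChar.one_apply, one_smul, Finset.sum_const, Finset.card_univ]
  rw [← Nat.cast_smul_eq_nsmul ℂ, smul_smul, inv_mul_cancel₀ card_ne, one_smul]

theorem pr_one_fixed (π : Multiplicative A →* (H ≃ₗᵢ[ℂ] H)) (v : H) (a : A) :
    π (Multiplicative.ofAdd a) (pr π 1 v) = pr π 1 v := by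
  rw [pr_eigen, AddChar.one_apply, one_smul]

theorem pr_le (π : Multiplicative A →* (H ≃ₗᵢ[ℂ] H)) (ψ : AddChar A ℂ) (v : H) :
    ‖pr π ψ v‖ ≤ ‖v‖ := by
  rw [← Real.sqrt_sq (norm_nonneg v), ← pr_norm π v]
  apply Real.le_sqrt_of_sq_le
  exact Finset.single_le_sum (f := fun ψ => ‖pr π ψ v‖ ^ 2) (fun _ _ => sq_nonneg _) (mem_univ ψ)

theorem pr_move (π : Multiplicative A →* (H ≃ₗᵢ[ℂ] H)) (ψ : AddChar A ℂ) (v : H) (b : A) :
    pr π ψ (π (Multiplicative.ofAdd b) v - v) = (ψ b - 1) • pr π ψ v := by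
  have h : π (Multiplicative.ofAdd b) (pr π ψ v) = pr π ψ (π (Multiplicative.ofAdd b) v) := by
    apply pr_comm
    intro a w
    have h1 : π (Multiplicative.ofAdd b) * π (Multiplicative.ofAdd a) =
        π (Multiplicative.ofAdd a) * π (Multiplicative.ofAdd b) := by
      rw [← map_mul π, ← map_mul π, mul_comm]
    exact congrArg (fun f : H ≃ₗᵢ[ℂ] H => f w) h1
  rw [pr_sub, ← h, pr_eigen, sub_smul, one_smul]

/-- the mass of the characters with `ψ b` far from `1` -/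
theorem mass_far (π : Multiplicative A →* (H ≃ₗᵢ[ℂ] H)) (v : H) (b : A) :
    mu (fun ψ : AddChar A ℂ => ‖pr π ψ v‖ ^ 2) (fun ψ => Real.pi / 4 ≤ |(ψ b).arg|) ≤
      2 * ‖π (Multiplicative.ofAdd b) v - v‖ ^ 2 := by
  classical
  rw [mu_eq, ← pr_norm π (π (Multiplicative.ofAdd b) v - v), Finset.mul_sum]
  refine le_trans (Finset.sum_le_sum fun ψ hψ => ?_)
    (Finset.sum_le_sum_of_subset_of_nonneg (Finset.filter_subset (fun ψ : AddChar A ℂ =>
      Real.pi / 4 ≤ |(ψ b).arg|) univ) fun ψ _ _ => by positivity)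
  rw [pr_move, norm_smul, mul_pow]
  have h1 := far (char_norm ψ b) (mem_filter.1 hψ).2
  have h2 := sq_nonneg ‖pr π ψ v‖
  nlinarith

theorem shift_inv (π : Multiplicative A →* (H ≃ₗᵢ[ℂ] H)) (σ : A ≃+ A) (u : H ≃ₗᵢ[ℂ] H)
    (hu : ∀ a v, u (π (Multiplicative.ofAdd a) v) = π (Multiplicative.ofAdd (σ a)) (u v)) :
    ∀ a v, u.symm (π (Multiplicative.ofAdd a) v) =
      π (Multiplicative.ofAdd (σ.symm a)) (u.symm v) := by
  intro a v
  apply u.injective
  rw [u.apply_symm_apply, hu, u.apply_symm_apply, σ.apply_symm_apply]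

theorem symm_sub (u : H ≃ₗᵢ[ℂ] H) (v : H) : ‖u.symm v - v‖ = ‖u v - v‖ := by
  rw [← u.norm_map (u.symm v - v), map_sub, u.apply_symm_apply, norm_sub_rev]

theorem one_comp (σ : A ≃+ A) : (1 : AddChar A ℂ).compAddMonoidHom (σ : A →+ A) = 1 := by
  apply AddChar.ext
  intro a
  rfl

/-- removing the fixed part -/
theorem remove (π : Multiplicative A →* (H ≃ₗᵢ[ℂ] H)) (σ : A ≃+ A) (u : H ≃ₗᵢ[ℂ] H)
    (hu : ∀ a v, u (π (Multiplicative.ofAdd a) v) = π (Multiplicative.ofAdd (σ a)) (u v)) (v : H) :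
    ‖u (v - pr π 1 v) - (v - pr π 1 v)‖ ^ 2 ≤ 4 * ‖u v - v‖ ^ 2 := by
  have h1 : pr π 1 (u v) = u (pr π 1 v) := by
    rw [pr_shift π σ u hu, one_comp]
  have h2 : u (v - pr π 1 v) - (v - pr π 1 v) = (u v - v) - pr π 1 (u v - v) := by
    rw [pr_sub, h1, map_sub]
    abel
  rw [h2]
  have h3 : ‖(u v - v) - pr π 1 (u v - v)‖ ≤ 2 * ‖u v - v‖ := by
    refine (norm_sub_le _ _).trans ?_
    have := pr_le π 1 (u v - v)
    linarith
  have h4 := pow_le_pow_left₀ (norm_nonneg _) h3 2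
  nlinarith

end fixed

section main

variable {H : Type} [NormedAddCommGroup H] [InnerProductSpace ℂ H] {m : ℕ} [NeZero m]

theorem char_trivial (ψ : AddChar (ZMod m × ZMod m) ℂ) (h1 : ψ (1, 0) = 1) (h2 : ψ (0, 1) = 1) :
    ψ = 1 := by
  apply AddChar.ext
  rintro ⟨s, t⟩
  have e : ((s, t) : ZMod m × ZMod m) = s.val • (1, 0) + t.val • (0, 1) := by
    ext <;> simp
  rw [e, AddChar.map_add_eq_mul, AddChar.map_nsmul_eq_pow, AddChar.map_nsmul_eq_pow, h1, h2,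
    one_pow, one_pow, one_mul, AddChar.one_apply]

theorem relgap0 (u1 u2 g l : H ≃ₗᵢ[ℂ] H) (h : Commute u1 u2) (h1 : u1 ^ m = 1) (h2 : u2 ^ m = 1)
    (g1 : g * u1 = u1 * g) (g2 : g * u2 = u1 * u2 * g) (l1 : l * u1 = u1 * u2 * l)
    (l2 : l * u2 = u2 * l) (v : H) (hv : pr (pi2 u1 u2 h h1 h2) 1 v = 0) :
    ‖v‖ ^ 2 ≤ 400 * (‖u1 v - v‖ ^ 2 + ‖u2 v - v‖ ^ 2 + ‖g v - v‖ ^ 2 + ‖l v - v‖ ^ 2) := by
  classical
  set π := pi2 u1 u2 h h1 h2 with hπ
  set E := ‖u1 v - v‖ ^ 2 + ‖u2 v - v‖ ^ 2 + ‖g v - v‖ ^ 2 + ‖l v - v‖ ^ 2 with hE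
  have hE0 : 0 ≤ E := by positivity
  have hπ1 : π (Multiplicative.ofAdd (1, 0)) = u1 := pi2_e1 u1 u2 h h1 h2
  have hπ2 : π (Multiplicative.ofAdd (0, 1)) = u2 := pi2_e2 u1 u2 h h1 h2
  have hl : ∀ a w, l (π (Multiplicative.ofAdd a) w) = π (Multiplicative.ofAdd (sl m a)) (l w) :=
    fun a w => congrArg (fun f : H ≃ₗᵢ[ℂ] H => f w) (pi2_l u1 u2 h h1 h2 l l1 l2 a)
  have hg : ∀ a w, g (π (Multiplicative.ofAdd a) w) = π (Multiplicative.ofAdd (sg m a)) (g w) :=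
    fun a w => congrArg (fun f : H ≃ₗᵢ[ℂ] H => f w) (pi2_g u1 u2 h h1 h2 g g1 g2 a)
  have hl' := shift_inv π (sl m) l hl
  have hg' := shift_inv π (sg m) g hg
  have bl : ‖l v - v‖ ≤ Real.sqrt E := by
    apply Real.le_sqrt_of_sq_le
    rw [hE]
    nlinarith [sq_nonneg ‖u1 v - v‖, sq_nonneg ‖u2 v - v‖, sq_nonneg ‖g v - v‖]
  have bg : ‖g v - v‖ ≤ Real.sqrt E := by
    apply Real.le_sqrt_of_sq_le
    rw [hE]
    nlinarith [sq_nonneg ‖u1 v - v‖, sq_nonneg ‖u2 v - v‖, sq_nonneg ‖l v - v‖]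
  have bl' : ‖l.symm v - v‖ ≤ Real.sqrt E := by rw [symm_sub]; exact bl
  have bg' : ‖g.symm v - v‖ ≤ Real.sqrt E := by rw [symm_sub]; exact bg
  have hn : ∀ (ψ : AddChar (ZMod m × ZMod m) ℂ) a, ‖ψ a‖ = 1 := fun ψ a => char_norm ψ a
  have key := cone (w := fun ψ : AddChar (ZMod m × ZMod m) ℂ => ‖pr π ψ v‖ ^ 2)
    (fun _ => sq_nonneg _) (fun ψ => (ψ (1, 0)).arg) (fun ψ => (ψ (0, 1)).arg)
    (fun ψ => |(ψ (1, 0)).arg| < Real.pi / 4 ∧ |(ψ (0, 1)).arg| < Real.pi / 4)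
    (fun ψ => ψ.compAddMonoidHom (sl m : ZMod m × ZMod m →+ ZMod m × ZMod m)) (fun ψ => ψ.compAddMonoidHom (sg m : ZMod m × ZMod m →+ ZMod m × ZMod m))
    (fun ψ => ψ.compAddMonoidHom ((sl m).symm : ZMod m × ZMod m →+ ZMod m × ZMod m))
    (fun ψ => ψ.compAddMonoidHom ((sg m).symm : ZMod m × ZMod m →+ ZMod m × ZMod m))
    (V := ‖v‖) (ε := Real.sqrt E) (norm_nonneg _) (Real.sqrt_nonneg _)
    (by
      rw [mu_eq]
      simp only [Finset.filter_true]
      exact (pr_norm π v).symm)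
    (by
      refine le_trans (mu_mono (fun _ => sq_nonneg _) (P' := fun ψ => Real.pi / 4 ≤ |(ψ (1, 0)).arg|
        ∨ Real.pi / 4 ≤ |(ψ (0, 1)).arg|) ?_) (le_trans (mu_or (fun _ => sq_nonneg _) _ _) ?_)
      · intro ψ hψ
        rw [not_and_or, not_lt, not_lt] at hψ
        exact hψ
      · have m1 := mass_far π v (1, 0)
        have m2 := mass_far π v (0, 1)
        rw [hπ1] at m1
        rw [hπ2] at m2
        rw [Real.sq_sqrt hE0]
        have := sq_nonneg ‖g v - v‖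
        have := sq_nonneg ‖l v - v‖
        linarith)
    (fun P P' hP => shift_mass π (sl m) l hl v _ bl P P' hP)
    (fun P P' hP => shift_mass π (sg m) g hg v _ bg P P' hP)
    (fun P P' hP => shift_mass π (sl m).symm l.symm hl' v _ bl' P P' hP)
    (fun P P' hP => shift_mass π (sg m).symm g.symm hg' v _ bg' P P' hP)
    (by
      rintro ψ ⟨q1, q2⟩
      have e1 : (ψ.compAddMonoidHom (sl m : ZMod m × ZMod m →+ ZMod m × ZMod m)) (1, 0) = ψ (1, 0) * ψ (0, 1) := by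
        show ψ (1, 1 + 0) = _
        rw [← AddChar.map_add_eq_mul]
        simp
      have e2 : (ψ.compAddMonoidHom (sl m : ZMod m × ZMod m →+ ZMod m × ZMod m)) (0, 1) = ψ (0, 1) := by
        show ψ (0, 0 + 1) = _
        simp
      refine ⟨?_, ?_⟩
      · rw [e1]
        exact arg_add (hn _ _) (hn _ _) q1 q2
      · rw [e2])
    (by
      rintro ψ ⟨q1, q2⟩
      have e1 : (ψ.compAddMonoidHom (sg m : ZMod m × ZMod m →+ ZMod m × ZMod m)) (0, 1) = ψ (1, 0) * ψ (0, 1) := by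
        show ψ (0 + 1, 1) = _
        rw [← AddChar.map_add_eq_mul]
        simp
      have e2 : (ψ.compAddMonoidHom (sg m : ZMod m × ZMod m →+ ZMod m × ZMod m)) (1, 0) = ψ (1, 0) := by
        show ψ (1 + 0, 0) = _
        simp
      refine ⟨?_, ?_⟩
      · rw [e1]
        exact arg_add (hn _ _) (hn _ _) q1 q2
      · rw [e2])
    (by
      rintro ψ ⟨q1, q2⟩
      have e1 : (ψ.compAddMonoidHom ((sl m).symm : ZMod m × ZMod m →+ ZMod m × ZMod m)) (1, 0) = ψ (1, 0) * (ψ (0, 1))⁻¹ := by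
        show ψ (1, 0 - 1) = _
        rw [← AddChar.map_neg_eq_inv, ← AddChar.map_add_eq_mul]
        simp
      have e2 : (ψ.compAddMonoidHom ((sl m).symm : ZMod m × ZMod m →+ ZMod m × ZMod m)) (0, 1) = ψ (0, 1) := by
        show ψ (0, 1 - 0) = _
        simp
      refine ⟨?_, ?_⟩
      · rw [e1]
        exact arg_sub (hn _ _) (hn _ _) q1 q2
      · rw [e2])
    (by
      rintro ψ ⟨q1, q2⟩
      have e1 : (ψ.compAddMonoidHom ((sg m).symm : ZMod m × ZMod m →+ ZMod m × ZMod m)) (0, 1) = ψ (0, 1) * (ψ (1, 0))⁻¹ := by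
        show ψ (0 - 1, 1) = _
        rw [← AddChar.map_neg_eq_inv, ← AddChar.map_add_eq_mul]
        simp
      have e2 : (ψ.compAddMonoidHom ((sg m).symm : ZMod m × ZMod m →+ ZMod m × ZMod m)) (1, 0) = ψ (1, 0) := by
        show ψ (1 - 0, 0) = _
        simp
      refine ⟨?_, ?_⟩
      · rw [e1]
        exact arg_sub (hn _ _) (hn _ _) q2 q1
      · rw [e2])
    (by
      rintro ψ - x0 y0
      have := char_trivial ψ (eq_one_of_arg (hn _ _) x0) (eq_one_of_arg (hn _ _) y0)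
      show ‖pr π ψ v‖ ^ 2 = 0
      rw [this, hv, norm_zero]
      norm_num)
  rwa [Real.sq_sqrt hE0] at key

theorem fixed_zpow (u : H ≃ₗᵢ[ℂ] H) (v : H) (h : u v = v) (s : ℤ) : (u ^ s) v = v := by
  have h1 : ∀ n : ℕ, (u ^ n) v = v := by
    intro n
    induction n with
    | zero => rfl
    | succ n ih =>
      rw [pow_succ]
      show (u ^ n) (u v) = v
      rw [h, ih]
  rcases s with n | n
  · rw [Int.ofNat_eq_natCast, zpow_natCast]
    exact h1 n
  · rw [zpow_negSucc]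
    apply (u ^ (n + 1)).injective
    rw [h1]
    show (u ^ (n + 1) * (u ^ (n + 1))⁻¹) v = v
    rw [mul_inv_cancel]
    rfl

/-- the relative spectral gap -/
theorem relgap : ∃ C : ℝ, 0 < C ∧ ∀ (G H : Type) [Group G] [NormedAddCommGroup H]
    [InnerProductSpace ℂ H] (ρ : G →* (H ≃ₗᵢ[ℂ] H)) (a b g l : G) (m : ℕ), 0 < m →
    a * b = b * a → g * a = a * g → g * b = a * b * g → l * a = a * b * l → l * b = b * l →
    ρ (a ^ m) = 1 → ρ (b ^ m) = 1 → ∀ (v : H) (s : ℤ), ‖ρ (a ^ s) v - v‖ ^ 2 ≤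
      C * (‖ρ a v - v‖ ^ 2 + ‖ρ b v - v‖ ^ 2 + ‖ρ g v - v‖ ^ 2 + ‖ρ l v - v‖ ^ 2) := by
  refine ⟨6400, by norm_num, ?_⟩
  intro G H _ _ _ ρ a b g l m hm hab hga hgb hla hlb ha hb v s
  have : NeZero m := ⟨hm.ne'⟩
  have h : Commute (ρ a) (ρ b) := by
    show ρ a * ρ b = ρ b * ρ a
    rw [← map_mul, ← map_mul, hab]
  have h1 : ρ a ^ m = 1 := by rw [← map_pow, ha]
  have h2 : ρ b ^ m = 1 := by rw [← map_pow, hb]
  have g1 : ρ g * ρ a = ρ a * ρ g := by rw [← map_mul, ← map_mul, hga]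
  have g2 : ρ g * ρ b = ρ a * ρ b * ρ g := by rw [← map_mul, ← map_mul, ← map_mul, hgb]
  have l1 : ρ l * ρ a = ρ a * ρ b * ρ l := by rw [← map_mul, ← map_mul, ← map_mul, hla]
  have l2 : ρ l * ρ b = ρ b * ρ l := by rw [← map_mul, ← map_mul, hlb]
  set π := pi2 (ρ a) (ρ b) h h1 h2 with hπ
  have hπ1 : π (Multiplicative.ofAdd (1, 0)) = ρ a := pi2_e1 _ _ h h1 h2
  have hπ2 : π (Multiplicative.ofAdd (0, 1)) = ρ b := pi2_e2 _ _ h h1 h2
  have hl : ∀ c w, ρ l (π (Multiplicative.ofAdd c) w) =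
      π (Multiplicative.ofAdd (sl m c)) (ρ l w) :=
    fun c w => congrArg (fun f : H ≃ₗᵢ[ℂ] H => f w) (pi2_l _ _ h h1 h2 _ l1 l2 c)
  have hg : ∀ c w, ρ g (π (Multiplicative.ofAdd c) w) =
      π (Multiplicative.ofAdd (sg m c)) (ρ g w) :=
    fun c w => congrArg (fun f : H ≃ₗᵢ[ℂ] H => f w) (pi2_g _ _ h h1 h2 _ g1 g2 c)
  have hc : ∀ b' c w, π (Multiplicative.ofAdd b') (π (Multiplicative.ofAdd c) w) =
      π (Multiplicative.ofAdd ((AddEquiv.refl (ZMod m × ZMod m)) c))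
        (π (Multiplicative.ofAdd b') w) := by
    intro b' c w
    have e : π (Multiplicative.ofAdd b') * π (Multiplicative.ofAdd c) =
        π (Multiplicative.ofAdd c) * π (Multiplicative.ofAdd b') := by
      rw [← map_mul π, ← map_mul π, mul_comm]
    exact congrArg (fun f : H ≃ₗᵢ[ℂ] H => f w) e
  set v0 := pr π 1 v with hv0
  set v' := v - v0 with hv'
  have r1 := remove π (AddEquiv.refl _) (π (Multiplicative.ofAdd (1, 0))) (hc _) v
  have r2 := remove π (AddEquiv.refl _) (π (Multiplicative.ofAdd (0, 1))) (hc _) v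
  have r3 := remove π (sg m) (ρ g) hg v
  have r4 := remove π (sl m) (ρ l) hl v
  rw [hπ1] at r1
  rw [hπ2] at r2
  have hz : pr π 1 v' = 0 := by
    rw [hv', pr_sub, pr_of_fixed π v0 (fun c => pr_one_fixed π v c), ← hv0, sub_self]
  have k := relgap0 (ρ a) (ρ b) (ρ g) (ρ l) h h1 h2 g1 g2 l1 l2 v' hz
  have hfix : ρ a v0 = v0 := by
    rw [← hπ1]
    exact pr_one_fixed π v _
  have hs : ρ (a ^ s) v0 = v0 := by
    rw [map_zpow]
    exact fixed_zpow _ _ hfix s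
  have e : ρ (a ^ s) v - v = ρ (a ^ s) v' - v' := by
    rw [hv', map_sub, hs]
    abel
  have n1 : ‖ρ (a ^ s) v' - v'‖ ≤ 2 * ‖v'‖ := by
    refine (norm_sub_le _ _).trans ?_
    rw [LinearIsometryEquiv.norm_map]
    linarith
  have n2 := pow_le_pow_left₀ (norm_nonneg _) n1 2
  rw [e]
  nlinarith

end main

end Pool.Agent.TAU
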