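import Pool.Agent.TAU.Fin
import Pool.Agent.TAU.Rel
import Pool.Agent.TAU12.Comp

/-!
`SL_k(ℤ)`, `k ≥ 3`: uniform spectral gap for all representations with finite image, and almost
invariant sets of finite actions are close to invariant sets. Property (T) is not used.
-/

set_option autoImplicit false
open Finset

namespace Pool.Agent.TAU

open Pool.Agent.H51K

/-- uniform spectral gap of `SL_k(ℤ)`, `k ≥ 3`, over the representations with finite image -/
theorem gapSL (k : ℕ) (hk : 3 ≤ k) : ∃ (F : Finset (SL k)) (ε : ℝ), 0 < ε ∧ ∀ (H : Type)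
    [NormedAddCommGroup H] [InnerProductSpace ℂ H] [CompleteSpace H]
    (ρ : SL k →* (H ≃ₗᵢ[ℂ] H)), (ρ.ker).FiniteIndex → ∀ v ∈ (invS ρ)ᗮ,
      ε ^ 2 * ‖v‖ ^ 2 ≤ ∑ a ∈ F, ‖ρ a v - v‖ ^ 2 :=
  gapSL_of relgap k hk fun H _ _ _ ρ hfin Z hZ F v hv hv0 =>
    Pool.Agent.TAU12.component ρ hfin Z hZ F v hv hv0

/-- almost invariant sets are close to invariant sets, for all actions of `SL_k(ℤ)`, `k ≥ 3`, on
finite sets -/
theorem hasNear (k : ℕ) (hk : 3 ≤ k) :
    Pool.Agent.FS84.HasNear (Matrix.SpecialLinearGroup (Fin k) ℤ) :=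
  near_of_gap (gapSL k hk)

end Pool.Agent.TAU
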