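import Pool.Agent.TAU.Defs

/-!
An element of the upper left `2 × 2` block which is congruent to `1` modulo `m` is central modulo
every normal subgroup which contains the `m`-th powers of the elementary matrices.
-/

set_option autoImplicit false

namespace Pool.Agent.TAU

private theorem cen_el_mul {k : ℕ} (i j : Fin k) (t : ℤ) (M : Matrix (Fin k) (Fin k) ℤ)
    (a b : Fin k) :
    (Matrix.transvection i j t * M) a b = M a b + if a = i then t * M j b else 0 := by
  by_cases ha : a = i
  · subst ha
    rw [Matrix.transvection_mul_apply_same, if_pos rfl]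
  · rw [Matrix.transvection_mul_apply_of_ne _ _ _ _ ha, if_neg ha, add_zero]

private theorem cen_mul_el {k : ℕ} (i j : Fin k) (t : ℤ) (M : Matrix (Fin k) (Fin k) ℤ)
    (a b : Fin k) :
    (M * Matrix.transvection i j t) a b = M a b + if b = j then t * M a i else 0 := by
  by_cases hb : b = j
  · subst hb
    rw [Matrix.mul_transvection_apply_same, if_pos rfl]
  · rw [Matrix.mul_transvection_apply_of_ne _ _ _ _ hb, if_neg hb, add_zero]

private theorem cen_col (k : ℕ) (hk : 3 ≤ k) (m : ℕ) (N : Subgroup (SL k))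
    (hN : ∀ (i j : Fin k) (h : i ≠ j) (t : ℤ), el i j h (m * t) ∈ N) (c : SL k)
    (hc : InBlock c) (hm : Cong m c) (i j : Fin k) (h : i ≠ j) (hj : 2 ≤ (j : ℕ)) (t : ℤ) :
    c * el i j h t * c⁻¹ * (el i j h t)⁻¹ ∈ N := by
  have e0 : 0 < k := by omega
  have e1 : 1 < k := by omega
  obtain ⟨w0, hw0⟩ := hm ⟨0, e0⟩ i
  obtain ⟨w1, hw1⟩ := hm ⟨1, e1⟩ i
  have h0 : (⟨0, e0⟩ : Fin k) ≠ j := by
    intro e
    rw [← e] at hj
    simp at hj
  have h1 : (⟨1, e1⟩ : Fin k) ≠ j := by
    intro e
    rw [← e] at hj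
    simp at hj
  have key : c * el i j h t
      = (el ⟨0, e0⟩ j h0 (m * (t * w0)) * el ⟨1, e1⟩ j h1 (m * (t * w1))) * (el i j h t * c) := by
    apply Subtype.ext
    ext a b
    have g1 : (c * el i j h t).1 = c.1 * Matrix.transvection i j t := rfl
    have g2 : ((el ⟨0, e0⟩ j h0 (m * (t * w0)) * el ⟨1, e1⟩ j h1 (m * (t * w1)))
        * (el i j h t * c)).1
        = (Matrix.transvection ⟨0, e0⟩ j (m * (t * w0)) * Matrix.transvection ⟨1, e1⟩ j
            (m * (t * w1))) * (Matrix.transvection i j t * c.1) := rfl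
    rw [g1, g2, Matrix.mul_assoc]
    have r1 : c.1 j b = (1 : Matrix (Fin k) (Fin k) ℤ) j b := hc j b (Or.inl hj)
    simp only [cen_mul_el, cen_el_mul, if_neg h0.symm, if_neg h1.symm, if_neg h.symm, add_zero, r1]
    by_cases hb : b = j
    · subst hb
      rw [if_pos rfl, Matrix.one_apply_eq]
      by_cases ha : 2 ≤ (a : ℕ)
      · have r2 : c.1 a i = (1 : Matrix (Fin k) (Fin k) ℤ) a i := hc a i (Or.inl ha)
        have a0 : a ≠ ⟨0, e0⟩ := by
          intro e
          rw [e] at ha
          simp at ha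
        have a1 : a ≠ ⟨1, e1⟩ := by
          intro e
          rw [e] at ha
          simp at ha
        rw [if_neg a0, if_neg a1, r2]
        by_cases hai : a = i
        · subst hai
          rw [if_pos rfl, Matrix.one_apply_eq]
          ring
        · rw [if_neg hai, Matrix.one_apply_ne hai]
          ring
      · have h01 : a = ⟨0, e0⟩ ∨ a = ⟨1, e1⟩ := by
          rcases (by omega : (a : ℕ) = 0 ∨ (a : ℕ) = 1) with h2 | h2
          · exact Or.inl (Fin.ext h2)
          · exact Or.inr (Fin.ext h2)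
        have n01 : (⟨0, e0⟩ : Fin k) ≠ ⟨1, e1⟩ := by
          intro e
          have := congrArg Fin.val e
          simp at this
        rcases h01 with h2 | h2
        · subst h2
          rw [if_pos rfl, if_neg n01]
          by_cases hai : (⟨0, e0⟩ : Fin k) = i
          · rw [← hai] at hw0 ⊢
            rw [Matrix.one_apply_eq] at hw0
            rw [if_pos rfl]
            linear_combination t * hw0
          · rw [Matrix.one_apply_ne hai] at hw0
            rw [if_neg hai]
            linear_combination t * hw0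
        · subst h2
          rw [if_neg n01.symm, if_pos rfl]
          by_cases hai : (⟨1, e1⟩ : Fin k) = i
          · rw [← hai] at hw1 ⊢
            rw [Matrix.one_apply_eq] at hw1
            rw [if_pos rfl]
            linear_combination t * hw1
          · rw [Matrix.one_apply_ne hai] at hw1
            rw [if_neg hai]
            linear_combination t * hw1
    · rw [if_neg hb, Matrix.one_apply_ne (Ne.symm hb)]
      simp
  rw [key]
  have e2 : (el ⟨0, e0⟩ j h0 (m * (t * w0)) * el ⟨1, e1⟩ j h1 (m * (t * w1)))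
      * (el i j h t * c) * c⁻¹ * (el i j h t)⁻¹
      = el ⟨0, e0⟩ j h0 (m * (t * w0)) * el ⟨1, e1⟩ j h1 (m * (t * w1)) := by
    group
  rw [e2]
  exact N.mul_mem (hN _ _ _ _) (hN _ _ _ _)

private theorem cen_row (k : ℕ) (hk : 3 ≤ k) (m : ℕ) (N : Subgroup (SL k)) [hNn : N.Normal]
    (hN : ∀ (i j : Fin k) (h : i ≠ j) (t : ℤ), el i j h (m * t) ∈ N) (c : SL k)
    (hc : InBlock c) (hm : Cong m c) (i j : Fin k) (h : i ≠ j) (hi : 2 ≤ (i : ℕ)) (t : ℤ) :
    c * el i j h t * c⁻¹ * (el i j h t)⁻¹ ∈ N := by
  have e0 : 0 < k := by omega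
  have e1 : 1 < k := by omega
  obtain ⟨w0, hw0⟩ := hm j ⟨0, e0⟩
  obtain ⟨w1, hw1⟩ := hm j ⟨1, e1⟩
  have h0 : i ≠ (⟨0, e0⟩ : Fin k) := by
    intro e
    rw [e] at hi
    simp at hi
  have h1 : i ≠ (⟨1, e1⟩ : Fin k) := by
    intro e
    rw [e] at hi
    simp at hi
  have key : el i j h t * c
      = (c * el i j h t) * el i ⟨0, e0⟩ h0 (m * (t * w0)) * el i ⟨1, e1⟩ h1 (m * (t * w1)) := by
    apply Subtype.ext
    ext a b
    have g1 : (el i j h t * c).1 = Matrix.transvection i j t * c.1 := rfl
    have g2 : ((c * el i j h t) * el i ⟨0, e0⟩ h0 (m * (t * w0))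
        * el i ⟨1, e1⟩ h1 (m * (t * w1))).1
        = ((c.1 * Matrix.transvection i j t) * Matrix.transvection i ⟨0, e0⟩ (m * (t * w0)))
          * Matrix.transvection i ⟨1, e1⟩ (m * (t * w1)) := rfl
    rw [g1, g2]
    have r1 : c.1 a i = (1 : Matrix (Fin k) (Fin k) ℤ) a i := hc a i (Or.inr hi)
    simp only [cen_mul_el, cen_el_mul, if_neg h0, if_neg h1, if_neg h, add_zero, r1]
    by_cases ha : a = i
    · subst ha
      rw [if_pos rfl, Matrix.one_apply_eq]
      by_cases hb : 2 ≤ (b : ℕ)
      · have r2 : c.1 j b = (1 : Matrix (Fin k) (Fin k) ℤ) j b := hc j b (Or.inr hb)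
        have b0 : b ≠ ⟨0, e0⟩ := by
          intro e
          rw [e] at hb
          simp at hb
        have b1 : b ≠ ⟨1, e1⟩ := by
          intro e
          rw [e] at hb
          simp at hb
        rw [if_neg b0, if_neg b1, r2]
        by_cases hbj : b = j
        · subst hbj
          rw [if_pos rfl, Matrix.one_apply_eq]
          ring
        · rw [if_neg hbj, Matrix.one_apply_ne (Ne.symm hbj)]
          ring
      · have h01 : b = ⟨0, e0⟩ ∨ b = ⟨1, e1⟩ := by
          rcases (by omega : (b : ℕ) = 0 ∨ (b : ℕ) = 1) with h2 | h2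
          · exact Or.inl (Fin.ext h2)
          · exact Or.inr (Fin.ext h2)
        have n01 : (⟨0, e0⟩ : Fin k) ≠ ⟨1, e1⟩ := by
          intro e
          have := congrArg Fin.val e
          simp at this
        rcases h01 with h2 | h2
        · subst h2
          rw [if_pos rfl, if_neg n01]
          by_cases hbj : (⟨0, e0⟩ : Fin k) = j
          · rw [← hbj] at hw0 ⊢
            rw [Matrix.one_apply_eq] at hw0
            rw [if_pos rfl]
            linear_combination t * hw0
          · rw [Matrix.one_apply_ne (Ne.symm hbj)] at hw0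
            rw [if_neg hbj]
            linear_combination t * hw0
        · subst h2
          rw [if_neg n01.symm, if_pos rfl]
          by_cases hbj : (⟨1, e1⟩ : Fin k) = j
          · rw [← hbj] at hw1 ⊢
            rw [Matrix.one_apply_eq] at hw1
            rw [if_pos rfl]
            linear_combination t * hw1
          · rw [Matrix.one_apply_ne (Ne.symm hbj)] at hw1
            rw [if_neg hbj]
            linear_combination t * hw1
    · rw [if_neg ha, Matrix.one_apply_ne ha]
      simp
  have e2 : c * el i j h t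
      = (el i j h t * c) * (el i ⟨0, e0⟩ h0 (m * (t * w0)) * el i ⟨1, e1⟩ h1 (m * (t * w1)))⁻¹ := by
    rw [key]
    group
  have e3 : c * el i j h t * c⁻¹ * (el i j h t)⁻¹
      = (el i j h t * c) * (el i ⟨0, e0⟩ h0 (m * (t * w0)) * el i ⟨1, e1⟩ h1 (m * (t * w1)))⁻¹
        * (el i j h t * c)⁻¹ := by
    rw [e2]
    group
  rw [e3]
  exact hNn.conj_mem _ (N.inv_mem (N.mul_mem (hN _ _ _ _) (hN _ _ _ _))) _

private theorem cen_comm {k : ℕ} (i j l : Fin k) (hij : i ≠ j) (hil : i ≠ l) (hlj : l ≠ j)
    (t : ℤ) :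
    el i j hij t = el i l hil t * el l j hlj 1 * (el i l hil t)⁻¹ * (el l j hlj 1)⁻¹ := by
  have key : el i l hil t * el l j hlj 1 = el i j hij t * (el l j hlj 1 * el i l hil t) := by
    apply Subtype.ext
    ext a b
    have g1 : (el i l hil t * el l j hlj 1).1
        = Matrix.transvection i l t * Matrix.transvection l j 1 := rfl
    have g2 : (el i j hij t * (el l j hlj 1 * el i l hil t)).1
        = Matrix.transvection i j t * (Matrix.transvection l j 1 * Matrix.transvection i l t) := rfl
    have tv : ∀ (p q : Fin k) (s : ℤ) (u v : Fin k), Matrix.transvection p q s u v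
        = (1 : Matrix (Fin k) (Fin k) ℤ) u v
          + if u = p then s * (1 : Matrix (Fin k) (Fin k) ℤ) q v else 0 := by
      intro p q s u v
      have := cen_el_mul p q s 1 u v
      rw [Matrix.mul_one] at this
      exact this
    rw [g1, g2]
    simp only [cen_el_mul, tv, if_neg hlj.symm, if_neg hij.symm, if_neg hil.symm, if_true,
      add_zero]
    by_cases ha : a = i
    · subst ha
      simp only [if_true, if_neg hil, if_neg hij]
      ring
    · simp only [if_neg ha]
      ring
  have : el i l hil t * el l j hlj 1 * (el i l hil t)⁻¹ * (el l j hlj 1)⁻¹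
      = el i j hij t * (el l j hlj 1 * el i l hil t) * (el i l hil t)⁻¹ * (el l j hlj 1)⁻¹ := by
    rw [key]
  rw [this]
  group

/-- the elements of the block congruent to `1` modulo `m` are central modulo `N` -/
theorem central (k : ℕ) (hk : 3 ≤ k) (m : ℕ) (N : Subgroup (SL k)) [N.Normal]
    (hN : ∀ (i j : Fin k) (h : i ≠ j) (t : ℤ), el i j h (m * t) ∈ N) (c : SL k)
    (hc : InBlock c) (hm : Cong m c) (x : SL k) (hx : IsEl x) : c * x * c⁻¹ * x⁻¹ ∈ N := by
  obtain ⟨i, j, h, t, rfl⟩ := hx
  by_cases hj : 2 ≤ (j : ℕ)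
  · exact cen_col k hk m N hN c hc hm i j h hj t
  by_cases hi : 2 ≤ (i : ℕ)
  · exact cen_row k hk m N hN c hc hm i j h hi t
  have e2 : 2 < k := by omega
  have hil : i ≠ (⟨2, e2⟩ : Fin k) := by
    intro e
    rw [e] at hi
    simp at hi
  have hlj : (⟨2, e2⟩ : Fin k) ≠ j := by
    intro e
    rw [← e] at hj
    simp at hj
  have c1 := cen_col k hk m N hN c hc hm i ⟨2, e2⟩ hil (le_refl 2) t
  have c2 := cen_row k hk m N hN c hc hm ⟨2, e2⟩ j hlj (le_refl 2) 1
  have toC : ∀ y : SL k, c * y * c⁻¹ * y⁻¹ ∈ N →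
      Commute (QuotientGroup.mk' N c) (QuotientGroup.mk' N y) := by
    intro y hy
    have h1 : QuotientGroup.mk' N (c * y * c⁻¹ * y⁻¹) = 1 := (QuotientGroup.eq_one_iff _).2 hy
    rw [map_mul, map_mul, map_mul, map_inv, map_inv] at h1
    exact commutatorElement_eq_one_iff_commute.1 h1
  have d1 := toC _ c1
  have d2 := toC _ c2
  have d3 : Commute (QuotientGroup.mk' N c) (QuotientGroup.mk' N (el i j h t)) := by
    rw [cen_comm i j ⟨2, e2⟩ h hil hlj t, map_mul, map_mul, map_mul, map_inv, map_inv]
    exact ((d1.mul_right d2).mul_right d1.inv_right).mul_right d2.inv_right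
  have h2 : QuotientGroup.mk' N (c * el i j h t * c⁻¹ * (el i j h t)⁻¹) = 1 := by
    rw [map_mul, map_mul, map_mul, map_inv, map_inv]
    exact commutatorElement_eq_one_iff_commute.2 d3
  exact (QuotientGroup.eq_one_iff _).1 h2

end Pool.Agent.TAU
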