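import Pool.Agent.TAU.M2

/-!
The statement of the module M2 under its agreed name.
-/

set_option autoImplicit false

namespace Pool.Agent.TAU

theorem decomp (k : ℕ) (hk : 2 ≤ k) : ∃ r : ℕ, ∀ (m : ℕ), 0 < m → ∀ g : SL k,
    ∃ p q c : SL k, ElProd r p ∧ ElProd r q ∧ InBlock c ∧ Cong m c ∧ g = p * c * q :=
  M2.decomp k hk

end Pool.Agent.TAU
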