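import Pool.Agent.TAU.Fin4

/-!
Assembly of the spectral gap from the modules.
-/

set_option autoImplicit false
open Finset

namespace Pool.Agent.TAU

open Pool.Agent.H51K

theorem asm_el_pow {k : ℕ} (i j : Fin k) (h : i ≠ j) (t : ℤ) (n : ℕ) :
    (el i j h t) ^ n = el i j h ((n : ℤ) * t) := by
  induction n with
  | zero =>
    rw [pow_zero]
    apply Subtype.ext
    change (1 : Matrix (Fin k) (Fin k) ℤ) = Matrix.transvection i j (((0 : ℕ) : ℤ) * t)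
    rw [Nat.cast_zero, zero_mul, Matrix.transvection_zero]
  | succ n ih =>
    rw [pow_succ, ih]
    apply Subtype.ext
    change Matrix.transvection i j ((n : ℤ) * t) * Matrix.transvection i j t
      = Matrix.transvection i j (((n + 1 : ℕ) : ℤ) * t)
    rw [Matrix.transvection_mul_transvection_same i j h]
    congr 1
    push_cast
    ring

/-- short products of elementary matrices move a vector a little -/
theorem asm_elProd_bound {k : ℕ} {H : Type} [NormedAddCommGroup H] [InnerProductSpace ℂ H]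
    (ρ : SL k →* (H ≃ₗᵢ[ℂ] H)) (h : H) (δ : ℝ) (hδ : 0 ≤ δ)
    (hel : ∀ x : SL k, IsEl x → ‖ρ x h - h‖ ≤ δ) (r : ℕ) (p : SL k) (hp : ElProd r p) :
    ‖ρ p h - h‖ ≤ r * δ := by
  obtain ⟨l, hl, hy, rfl⟩ := hp
  have key : ∀ l : List (SL k), (∀ y ∈ l, IsEl y) → ‖ρ l.prod h - h‖ ≤ l.length * δ := by
    intro l
    induction l with
    | nil =>
      intro _
      simp
    | cons a l ih =>
      intro hl
      have h1 := ih (fun y hy => hl y (List.mem_cons_of_mem _ hy))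
      have h2 := hel a (hl a List.mem_cons_self)
      have e : ρ (a :: l).prod h - h = ρ a (ρ l.prod h - h) + (ρ a h - h) := by
        rw [List.prod_cons, map_mul, map_sub]
        change ρ a (ρ l.prod h) - h = _
        abel
      rw [e]
      refine (norm_add_le _ _).trans ?_
      rw [LinearIsometryEquiv.norm_map, List.length_cons]
      push_cast
      linarith
  refine (key l hy).trans ?_
  have : (l.length : ℝ) ≤ r := by exact_mod_cast hl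
  exact mul_le_mul_of_nonneg_right this hδ

theorem gap_of {k : ℕ} (F : Finset (SL k)) (C : ℝ) (hC : 0 < C)
    (hroot : ∀ (H : Type) [NormedAddCommGroup H] [InnerProductSpace ℂ H] [CompleteSpace H]
      (ρ : SL k →* (H ≃ₗᵢ[ℂ] H)), (ρ.ker).FiniteIndex → ∀ (v : H) (i j : Fin k) (h : i ≠ j)
      (t : ℤ), ‖ρ (el i j h t) v - v‖ ^ 2 ≤ C * ∑ a ∈ F, ‖ρ a v - v‖ ^ 2)
    (hdec : ∃ r : ℕ, ∀ (m : ℕ), 0 < m → ∀ g : SL k,
      ∃ p q c : SL k, ElProd r p ∧ ElProd r q ∧ InBlock c ∧ Cong m c ∧ g = p * c * q)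
    (hcen : ∀ (m : ℕ) (N : Subgroup (SL k)) [N.Normal],
      (∀ (i j : Fin k) (h : i ≠ j) (t : ℤ), el i j h (m * t) ∈ N) → ∀ (c : SL k),
      InBlock c → Cong m c → ∀ (x : SL k), IsEl x → c * x * c⁻¹ * x⁻¹ ∈ N)
    (hgen : Subgroup.closure {x : SL k | IsEl x} = ⊤)
    (hulam : ∀ (Q : Type) [Group Q] [Fintype Q] (z : Q → ℂ) (η : ℝ), η ≤ 1 / 10 →
      (∀ q, ‖z q‖ = 1) → (∀ q q', ‖z (q * q') - z q * z q'‖ ≤ η) →
      ∃ ζ : Q →* ℂˣ, ∀ q, ‖(ζ q : ℂ) - z q‖ ≤ 2 * η)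
    (hperf : ∀ (f : SL k →* ℂˣ) (x : SL k), f x = 1)
    (hcomp : ∀ (H : Type) [NormedAddCommGroup H] [InnerProductSpace ℂ H] [CompleteSpace H]
      (ρ : SL k →* (H ≃ₗᵢ[ℂ] H)), (ρ.ker).FiniteIndex → ∀ (Z : Set (SL k)),
      (∀ c ∈ Z, ∀ g, ρ (c * g) = ρ (g * c)) → ∀ (F : Finset (SL k)) (v : H),
      v ∈ (invS ρ)ᗮ → v ≠ 0 → ∃ h : H, h ≠ 0 ∧ h ∈ (invS ρ)ᗮ ∧
      (∑ a ∈ F, ‖ρ a h - h‖ ^ 2) * ‖v‖ ^ 2 ≤ (∑ a ∈ F, ‖ρ a v - v‖ ^ 2) * ‖h‖ ^ 2 ∧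
      ∀ c ∈ Z, ∃ z : ℂ, ‖z‖ = 1 ∧ ρ c h = z • h) :
    ∃ ε : ℝ, 0 < ε ∧ ∀ (H : Type) [NormedAddCommGroup H] [InnerProductSpace ℂ H]
      [CompleteSpace H] (ρ : SL k →* (H ≃ₗᵢ[ℂ] H)), (ρ.ker).FiniteIndex → ∀ v ∈ (invS ρ)ᗮ,
      ε ^ 2 * ‖v‖ ^ 2 ≤ ∑ a ∈ F, ‖ρ a v - v‖ ^ 2 := by
  obtain ⟨r, hr⟩ := hdec
  have hsC : 0 < Real.sqrt C := Real.sqrt_pos.2 hC
  have hr1 : (0 : ℝ) < (r : ℝ) + 1 := by positivity
  refine ⟨1 / (60 * ((r : ℝ) + 1) * Real.sqrt C), by positivity, ?_⟩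
  set ε : ℝ := 1 / (60 * ((r : ℝ) + 1) * Real.sqrt C) with hε
  have hεpos : 0 < ε := by positivity
  have hεC : Real.sqrt C * ε * (60 * ((r : ℝ) + 1)) = 1 := by
    rw [hε]
    field_simp
  intro H _ _ _ ρ hfin v hv
  by_cases hv0 : v = 0
  · subst hv0
    rw [norm_zero]
    have : (0 : ℝ) ≤ ∑ a ∈ F, ‖ρ a (0 : H) - 0‖ ^ 2 := Finset.sum_nonneg fun _ _ => sq_nonneg _
    simpa using this
  by_contra hcon
  have hcon' : ∑ a ∈ F, ‖ρ a v - v‖ ^ 2 < ε ^ 2 * ‖v‖ ^ 2 := not_le.1 hcon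
  have hvpos : 0 < ‖v‖ ^ 2 := by
    have := norm_pos_iff.2 hv0
    positivity
  let m : ℕ := (ρ.ker).index
  have hm : 0 < m := Nat.pos_of_ne_zero hfin.index_ne_zero
  have hN : ∀ (i j : Fin k) (h : i ≠ j) (t : ℤ), el i j h ((m : ℤ) * t) ∈ ρ.ker := by
    intro i j h t
    rw [← asm_el_pow]
    exact Subgroup.pow_index_mem (H := ρ.ker) _
  let Z : Set (SL k) := {c | InBlock c ∧ Cong m c}
  have hZ : ∀ c ∈ Z, ∀ g, ρ (c * g) = ρ (g * c) := by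
    rintro c ⟨hc1, hc2⟩ g
    have hg : g ∈ Subgroup.closure {x : SL k | IsEl x} := by
      rw [hgen]
      exact Subgroup.mem_top g
    have hcc : ∀ x ∈ Subgroup.closure {x : SL k | IsEl x}, ρ c * ρ x = ρ x * ρ c := by
      intro x hx
      induction hx using Subgroup.closure_induction with
      | mem x hx =>
        have h1 : ρ (c * x * c⁻¹ * x⁻¹) = 1 := hcen m ρ.ker hN c hc1 hc2 x hx
        have h2 : ρ c * ρ x * (ρ c)⁻¹ * (ρ x)⁻¹ = 1 := by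
          rw [← h1, map_mul, map_mul, map_mul, map_inv, map_inv]
        calc ρ c * ρ x = (ρ c * ρ x * (ρ c)⁻¹ * (ρ x)⁻¹) * (ρ x * ρ c) := by group
          _ = ρ x * ρ c := by rw [h2, one_mul]
      | one => rw [map_one, mul_one, one_mul]
      | mul x y _ _ hx hy =>
        rw [map_mul, ← mul_assoc, hx, mul_assoc, hy, mul_assoc]
      | inv x _ hx =>
        rw [map_inv]
        have : (ρ x)⁻¹ * (ρ c * ρ x) * (ρ x)⁻¹ = (ρ x)⁻¹ * (ρ x * ρ c) * (ρ x)⁻¹ := by rw [hx]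
        calc ρ c * (ρ x)⁻¹ = (ρ x)⁻¹ * (ρ x * ρ c) * (ρ x)⁻¹ := by group
          _ = (ρ x)⁻¹ * (ρ c * ρ x) * (ρ x)⁻¹ := this.symm
          _ = (ρ x)⁻¹ * ρ c := by group
    rw [map_mul, map_mul]
    exact hcc g hg
  obtain ⟨h, hh0, hhperp, hE, hscal⟩ := hcomp H ρ hfin Z hZ F v hv hv0
  have hhpos : 0 < ‖h‖ := norm_pos_iff.2 hh0
  have hEh : ∑ a ∈ F, ‖ρ a h - h‖ ^ 2 ≤ ε ^ 2 * ‖h‖ ^ 2 := by
    have h1 : (∑ a ∈ F, ‖ρ a h - h‖ ^ 2) * ‖v‖ ^ 2 ≤ (ε ^ 2 * ‖h‖ ^ 2) * ‖v‖ ^ 2 := by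
      refine hE.trans ?_
      have h2 := mul_le_mul_of_nonneg_right hcon'.le (sq_nonneg ‖h‖)
      calc (∑ a ∈ F, ‖ρ a v - v‖ ^ 2) * ‖h‖ ^ 2 ≤ ε ^ 2 * ‖v‖ ^ 2 * ‖h‖ ^ 2 := h2
        _ = (ε ^ 2 * ‖h‖ ^ 2) * ‖v‖ ^ 2 := by ring
    exact le_of_mul_le_mul_right h1 hvpos
  let δ : ℝ := Real.sqrt C * ε * ‖h‖
  have hδ : 0 ≤ δ := by positivity
  have hel : ∀ x : SL k, IsEl x → ‖ρ x h - h‖ ≤ δ := by
    rintro x ⟨i, j, hij, t, rfl⟩
    have h1 := hroot H ρ hfin h i j hij t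
    have h2 : ‖ρ (el i j hij t) h - h‖ ^ 2 ≤ δ ^ 2 := by
      refine h1.trans ?_
      have h3 : δ ^ 2 = C * (ε ^ 2 * ‖h‖ ^ 2) := by
        change (Real.sqrt C * ε * ‖h‖) ^ 2 = _
        rw [mul_pow, mul_pow, Real.sq_sqrt hC.le]
        ring
      rw [h3]
      exact mul_le_mul_of_nonneg_left hEh hC.le
    exact le_of_sq_le_sq h2 hδ
  apply hh0
  refine step4 ρ hfin h hhperp (2 * (r * (Real.sqrt C * ε))) ?_ ?_ hulam hperf
  · have h1 : Real.sqrt C * ε = 1 / (60 * ((r : ℝ) + 1)) := by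
      rw [eq_div_iff (by positivity)]
      exact hεC
    rw [h1]
    rw [mul_one_div, ← mul_div_assoc, div_le_div_iff₀ (by positivity) (by norm_num)]
    linarith
  · intro g
    obtain ⟨p, q, c, hp, hq, hc1, hc2, rfl⟩ := hr m hm g
    obtain ⟨z, hz1, hz2⟩ := hscal c ⟨hc1, hc2⟩
    refine ⟨z, hz1, ?_⟩
    have b1 := asm_elProd_bound ρ h δ hδ hel r p hp
    have b2 := asm_elProd_bound ρ h δ hδ hel r q hq
    have e : ρ (p * c * q) h - z • h = ρ p (ρ c (ρ q h - h)) + z • (ρ p h - h) := by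
      rw [map_mul, map_mul]
      change ρ p (ρ c (ρ q h)) - z • h = _
      rw [map_sub, map_sub, hz2, map_smul, smul_sub]
      abel
    rw [e]
    refine (norm_add_le _ _).trans ?_
    rw [LinearIsometryEquiv.norm_map, LinearIsometryEquiv.norm_map, norm_smul, hz1, one_mul]
    have e2 : 2 * (r * (Real.sqrt C * ε)) * ‖h‖ = r * δ + r * δ := by
      change _ = r * (Real.sqrt C * ε * ‖h‖) + r * (Real.sqrt C * ε * ‖h‖)
      ring
    rw [e2]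
    exact add_le_add b2 b1

end Pool.Agent.TAU
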