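import Pool.Agent.H51K.KazGap

/-!
Averaging over a finite quotient: a vector orthogonal to the invariant vectors that every group
element moves by less than `√2` times its norm is zero.
-/

set_option autoImplicit false
open Finset

namespace Pool.Agent.TAU

open Pool.Agent.H51K

variable {G H : Type} [Group G] [NormedAddCommGroup H] [InnerProductSpace ℂ H] [CompleteSpace H]

/-- values of a homomorphism on representatives -/
theorem rho_out (ρ : G →* (H ≃ₗᵢ[ℂ] H)) (g : G) (q : G ⧸ ρ.ker) :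
    ρ (g • q).out = ρ (g * q.out) := by
  have h1 : ((g • q).out : G ⧸ ρ.ker) = ((g * q.out : G) : G ⧸ ρ.ker) := by
    rw [QuotientGroup.out_eq']
    conv_lhs => rw [← QuotientGroup.out_eq' q]
    rfl
  have h2 := QuotientGroup.eq.1 h1
  have h3 := MonoidHom.mem_ker.1 h2
  rw [map_mul, map_inv] at h3
  exact inv_mul_eq_one.1 h3

/-- the sum over the finite quotient is invariant -/
theorem sum_mem_inv (ρ : G →* (H ≃ₗᵢ[ℂ] H)) [Fintype (G ⧸ ρ.ker)] (h : H) :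
    (∑ q : G ⧸ ρ.ker, ρ q.out h) ∈ invS ρ := by
  intro g
  rw [map_sum]
  have h1 : ∀ q : G ⧸ ρ.ker, ρ g (ρ q.out h) = ρ (g • q).out h := by
    intro q
    rw [rho_out, map_mul]
    rfl
  rw [Finset.sum_congr rfl fun q _ => h1 q]
  exact Fintype.sum_equiv (MulAction.toPerm g) _ _ fun q => rfl

/-- a vector orthogonal to the invariants and moved little by everything is zero -/
theorem avg_fixed (ρ : G →* (H ≃ₗᵢ[ℂ] H)) (hfin : (ρ.ker).FiniteIndex) (h : H)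
    (hh : h ∈ (invS ρ)ᗮ) (δ : ℝ) (hδ : δ ≤ 1) (hmove : ∀ g, ‖ρ g h - h‖ ≤ δ * ‖h‖) : h = 0 := by
  classical
  haveI : Finite (G ⧸ ρ.ker) := Subgroup.finite_quotient_of_finiteIndex
  letI : Fintype (G ⧸ ρ.ker) := Fintype.ofFinite _
  have h1 := (Submodule.mem_orthogonal _ _).1 hh _ (sum_mem_inv ρ h)
  rw [sum_inner] at h1
  have h2 : ∀ g, (1 / 2) * ‖h‖ ^ 2 ≤ (inner ℂ (ρ g h) h).re := by
    intro g
    have e1 := @norm_sub_sq ℂ H _ _ _ (ρ g h) h
    rw [LinearIsometryEquiv.norm_map] at e1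
    have e2 : ‖ρ g h - h‖ ^ 2 ≤ ‖h‖ ^ 2 := by
      have e3 : ‖ρ g h - h‖ ≤ ‖h‖ :=
        (hmove g).trans (by nlinarith [norm_nonneg h])
      exact pow_le_pow_left₀ (norm_nonneg _) e3 2
    have e4 : RCLike.re (inner ℂ (ρ g h) h) = (inner ℂ (ρ g h) h).re := rfl
    rw [e4] at e1
    linarith
  have h3 : ∑ q : G ⧸ ρ.ker, (1 / 2) * ‖h‖ ^ 2 ≤ 0 := by
    calc ∑ q : G ⧸ ρ.ker, (1 / 2) * ‖h‖ ^ 2
        ≤ ∑ q : G ⧸ ρ.ker, (inner ℂ (ρ q.out h) h).re := Finset.sum_le_sum fun q _ => h2 _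
      _ = (∑ q : G ⧸ ρ.ker, inner ℂ (ρ q.out h) h).re := (Complex.re_sum _ _).symm
      _ = 0 := by rw [h1]; rfl
  rw [Finset.sum_const, nsmul_eq_mul, Finset.card_univ] at h3
  have h4 : (0 : ℝ) < Fintype.card (G ⧸ ρ.ker) := by
    exact_mod_cast Fintype.card_pos
  have h5 : ‖h‖ ^ 2 ≤ 0 := by
    by_contra hc
    have h6 : 0 < ‖h‖ ^ 2 := not_le.1 hc
    have : 0 < (Fintype.card (G ⧸ ρ.ker) : ℝ) * (1 / 2 * ‖h‖ ^ 2) := by positivity
    linarith
  have h7 : ‖h‖ = 0 := by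
    nlinarith [norm_nonneg h, sq_nonneg ‖h‖]
  exact norm_eq_zero.1 h7

end Pool.Agent.TAU
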