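import Pool.Agent.TAU.Four
import Pool.Agent.H51K.KazGap

/-!
A vector orthogonal to the invariant vectors can be replaced by one on which a set of elements,
central modulo the kernel, acts by scalars.
-/

set_option autoImplicit false
open Finset

namespace Pool.Agent.TAU

open Pool.Agent.H51K

theorem component_aux {G H A : Type} [Group G] [NormedAddCommGroup H] [InnerProductSpace ℂ H]
    [AddCommGroup A] [Fintype A] (ρ : G →* (H ≃ₗᵢ[ℂ] H)) (π : Multiplicative A →* (H ≃ₗᵢ[ℂ] H))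
    (hπ : ∀ a, ∃ g, π (Multiplicative.ofAdd a) = ρ g)
    (hcomm : ∀ (g : G) (a : A) (w : H),
      ρ g (π (Multiplicative.ofAdd a) w) = π (Multiplicative.ofAdd a) (ρ g w))
    (F : Finset G) (v : H) (hv : v ∈ (invS ρ)ᗮ) (hv0 : v ≠ 0) :
    ∃ h : H, h ≠ 0 ∧ h ∈ (invS ρ)ᗮ ∧
      (∑ a ∈ F, ‖ρ a h - h‖ ^ 2) * ‖v‖ ^ 2 ≤ (∑ a ∈ F, ‖ρ a v - v‖ ^ 2) * ‖h‖ ^ 2 ∧
      ∀ a : A, ∃ z : ℂ, ‖z‖ = 1 ∧ π (Multiplicative.ofAdd a) h = z • h := by
  classical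
  have hpc : ∀ (g : G) (ψ : AddChar A ℂ) (w : H), ρ g (pr π ψ w) = pr π ψ (ρ g w) :=
    fun g ψ w => pr_comm π (ρ g) (hcomm g) ψ w
  have hE : ∑ ψ : AddChar A ℂ,
      (∑ a ∈ F, ‖ρ a (pr π ψ v) - pr π ψ v‖ ^ 2) = ∑ a ∈ F, ‖ρ a v - v‖ ^ 2 := by
    rw [Finset.sum_comm]
    apply Finset.sum_congr rfl
    intro a _
    rw [← pr_norm π (ρ a v - v)]
    apply Finset.sum_congr rfl
    intro ψ _
    rw [hpc, pr_sub]
  have hN := pr_norm π v
  have hex : ∃ ψ : AddChar A ℂ, pr π ψ v ≠ 0 ∧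
      (∑ a ∈ F, ‖ρ a (pr π ψ v) - pr π ψ v‖ ^ 2) * ‖v‖ ^ 2
        ≤ (∑ a ∈ F, ‖ρ a v - v‖ ^ 2) * ‖pr π ψ v‖ ^ 2 := by
    by_contra hcon
    push Not at hcon
    have h0 : ∃ ψ : AddChar A ℂ, pr π ψ v ≠ 0 := by
      by_contra h
      push Not at h
      apply hv0
      rw [← pr_sum π v]
      exact Finset.sum_eq_zero fun ψ _ => h ψ
    obtain ⟨ψ0, hψ0⟩ := h0
    have hlt : ∑ ψ : AddChar A ℂ, (∑ a ∈ F, ‖ρ a v - v‖ ^ 2) * ‖pr π ψ v‖ ^ 2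
        < ∑ ψ : AddChar A ℂ, (∑ a ∈ F, ‖ρ a (pr π ψ v) - pr π ψ v‖ ^ 2) * ‖v‖ ^ 2 := by
      apply Finset.sum_lt_sum
      · intro ψ _
        by_cases h : pr π ψ v = 0
        · simp [h]
        · exact (hcon ψ h).le
      · exact ⟨ψ0, mem_univ _, hcon ψ0 hψ0⟩
    rw [← Finset.mul_sum, ← Finset.sum_mul, hE, hN] at hlt
    exact lt_irrefl _ hlt
  obtain ⟨ψ, hne, hle⟩ := hex
  refine ⟨pr π ψ v, hne, ?_, hle, ?_⟩
  · have hmem : ∀ a : A, π (Multiplicative.ofAdd a) v ∈ (invS ρ)ᗮ := by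
      intro a
      obtain ⟨g, hg⟩ := hπ a
      rw [hg]
      exact rho_mem_orth ρ g hv
    unfold pr
    exact Submodule.smul_mem _ _ (Submodule.sum_mem _ fun a _ =>
      Submodule.smul_mem _ _ (hmem a))
  · intro a
    exact ⟨ψ a, char_norm _ _, pr_eigen π ψ v a⟩

theorem component {G H : Type} [Group G] [NormedAddCommGroup H] [InnerProductSpace ℂ H]
    [CompleteSpace H] (ρ : G →* (H ≃ₗᵢ[ℂ] H)) (hfin : (ρ.ker).FiniteIndex) (Z : Set G)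
    (hZ : ∀ c ∈ Z, ∀ g, ρ (c * g) = ρ (g * c)) (F : Finset G) (v : H)
    (hv : v ∈ (invS ρ)ᗮ) (hv0 : v ≠ 0) :
    ∃ h : H, h ≠ 0 ∧ h ∈ (invS ρ)ᗮ ∧
      (∑ a ∈ F, ‖ρ a h - h‖ ^ 2) * ‖v‖ ^ 2 ≤ (∑ a ∈ F, ‖ρ a v - v‖ ^ 2) * ‖h‖ ^ 2 ∧
      ∀ c ∈ Z, ∃ z : ℂ, ‖z‖ = 1 ∧ ρ c h = z • h := by
  classical
  have hfr : Finite ρ.range := by
    have h1 : Finite (G ⧸ ρ.ker) := Subgroup.finite_quotient_of_finiteIndex
    exact Finite.of_equiv _ (QuotientGroup.quotientKerEquivRange ρ).toEquiv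
  let _ : CommGroup (Subgroup.center ρ.range) :=
    { (inferInstance : Group (Subgroup.center ρ.range)) with
      mul_comm := fun a b => Subtype.ext (Subgroup.mem_center_iff.1 b.2 a.1) }
  have hfc : Finite (Additive (Subgroup.center ρ.range)) :=
    inferInstanceAs (Finite (Subgroup.center ρ.range))
  have : Fintype (Additive (Subgroup.center ρ.range)) := Fintype.ofFinite _
  obtain ⟨h, h1, h2, h3, h4⟩ := component_aux (A := Additive (Subgroup.center ρ.range)) ρ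
    { toFun := fun a => (Additive.toMul (Multiplicative.toAdd a)).1.1
      map_one' := rfl
      map_mul' := fun _ _ => rfl }
    (by
      intro a
      obtain ⟨g, hg⟩ := (Additive.toMul a).1.2
      exact ⟨g, hg.symm⟩)
    (by
      intro g a w
      have h1 := Subgroup.mem_center_iff.1 (Additive.toMul a).2 ⟨ρ g, g, rfl⟩
      exact congrArg (fun x : ρ.range => x.1 w) h1)
    F v hv hv0
  refine ⟨h, h1, h2, h3, ?_⟩
  intro c hc
  have hcen : (⟨ρ c, c, rfl⟩ : ρ.range) ∈ Subgroup.center ρ.range := by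
    rw [Subgroup.mem_center_iff]
    rintro ⟨_, g, rfl⟩
    apply Subtype.ext
    change ρ g * ρ c = ρ c * ρ g
    rw [← map_mul, ← map_mul, hZ c hc g]
  exact h4 (Additive.ofMul ⟨⟨ρ c, c, rfl⟩, hcen⟩)

end Pool.Agent.TAU
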