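import Pool.Agent.TAU.Defs

/-!
The cone argument for the relative spectral gap, in an abstract form.
-/

set_option autoImplicit false
open Finset

namespace Pool.Agent.TAU

variable {ι : Type} [Fintype ι]

/-- the mass of a set of characters -/
noncomputable def mu (w : ι → ℝ) (P : ι → Prop) : ℝ := ∑ i, Set.indicator {i | P i} w i

theorem ind_nonneg {w : ι → ℝ} (hw : ∀ i, 0 ≤ w i) (P : ι → Prop) (i : ι) :
    0 ≤ Set.indicator {i | P i} w i := Set.indicator_nonneg (fun i _ => hw i) i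

theorem mu_nonneg {w : ι → ℝ} (hw : ∀ i, 0 ≤ w i) (P : ι → Prop) : 0 ≤ mu w P :=
  Finset.sum_nonneg fun i _ => ind_nonneg hw P i

theorem mu_mono {w : ι → ℝ} (hw : ∀ i, 0 ≤ w i) {P P' : ι → Prop} (h : ∀ i, P i → P' i) :
    mu w P ≤ mu w P' := by
  classical
  apply Finset.sum_le_sum
  intro i _
  exact Set.indicator_le_indicator_of_subset (fun i hi => h i hi) hw i

theorem mu_or {w : ι → ℝ} (hw : ∀ i, 0 ≤ w i) (P P' : ι → Prop) :
    mu w (fun i => P i ∨ P' i) ≤ mu w P + mu w P' := by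
  classical
  unfold mu
  rw [← Finset.sum_add_distrib]
  apply Finset.sum_le_sum
  intro i _
  have h := hw i
  by_cases h1 : P i <;> by_cases h2 : P' i <;> simp [Set.indicator, h1, h2, h]

theorem mu_disj {w : ι → ℝ} (P P' R : ι → Prop) (hd : ∀ i, P i → P' i → False)
    (hw : ∀ i, 0 ≤ w i) (h : ∀ i, P i ∨ P' i → R i) :
    mu w P + mu w P' ≤ mu w R := by
  classical
  unfold mu
  rw [← Finset.sum_add_distrib]
  apply Finset.sum_le_sum
  intro i _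
  have h0 := hw i
  by_cases h1 : P i
  · have h2 : ¬ P' i := fun h2 => hd i h1 h2
    have h3 := h i (Or.inl h1)
    simp [Set.indicator, h1, h2, h3]
  · by_cases h2 : P' i
    · have h3 := h i (Or.inr h2)
      simp [Set.indicator, h1, h2, h3]
    · have := ind_nonneg hw R i
      simp only [Set.indicator, Set.mem_ofPred_eq, h1, h2, if_false, add_zero] at this ⊢
      exact this

theorem sq_of_sqrt {p q ε : ℝ} (hq : 0 ≤ q) (hp : 0 ≤ p) (hε : 0 ≤ ε)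
    (h : Real.sqrt p ≤ Real.sqrt q + ε) : p ≤ q + 2 * ε * Real.sqrt q + ε ^ 2 := by
  have h1 : Real.sqrt p ^ 2 ≤ (Real.sqrt q + ε) ^ 2 :=
    pow_le_pow_left₀ (Real.sqrt_nonneg _) h 2
  rw [Real.sq_sqrt hp] at h1
  have h2 := Real.sq_sqrt hq
  nlinarith

theorem sq_of_sqrt2 {p q ε : ℝ} (hq : 0 ≤ q) (hp : 0 ≤ p) (hε : 0 ≤ ε)
    (h : Real.sqrt p ≤ Real.sqrt q + ε) : p ≤ 2 * q + 2 * ε ^ 2 := by
  have h1 : Real.sqrt p ^ 2 ≤ (Real.sqrt q + ε) ^ 2 :=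
    pow_le_pow_left₀ (Real.sqrt_nonneg _) h 2
  rw [Real.sq_sqrt hp] at h1
  have h2 := Real.sq_sqrt hq
  nlinarith [sq_nonneg (Real.sqrt q - ε)]

/-- one of the four shears -/
theorem cone_step {w : ι → ℝ} (hw : ∀ i, 0 ≤ w i) (x y : ι → ℝ) (Q : ι → Prop) (T : ι → ι)
    {V ε : ℝ} (hV0 : 0 ≤ V) (hε : 0 ≤ ε) (hV : ∀ P, mu w P ≤ V ^ 2)
    (hq : mu w (fun i => ¬ Q i) ≤ 2 * ε ^ 2)
    (hT : ∀ P P' : ι → Prop, (∀ i, P i → P' (T i)) →
      Real.sqrt (mu w P) ≤ Real.sqrt (mu w P') + ε)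
    (hQ : ∀ i, Q i → x (T i) = x i + y i ∧ y (T i) = y i) :
    mu w (fun i => Q i ∧ 0 ≤ x i * y i ∧ |x i| < |y i|) ≤ 3 * ε ^ 2 + 2 * ε * V ∧
    mu w (fun i => Q i ∧ x i = y i ∧ y i ≠ 0) ≤
      2 * (mu w (fun i => Q i ∧ 0 ≤ x i * y i ∧ |y i| < |x i|) + 2 * ε ^ 2) + 2 * ε ^ 2 := by
  constructor
  · -- the half open cone
    set D : ι → Prop := fun i => Q i ∧ 0 ≤ x i * y i ∧ y i ≠ 0 with hD
    set E : ι → Prop := fun i => 0 ≤ x i * y i ∧ |y i| ≤ |x i| ∧ y i ≠ 0 with hE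
    have h1 := hT D E (by
      rintro i ⟨hi, h1, h2⟩
      obtain ⟨e1, e2⟩ := hQ i hi
      refine ⟨?_, ?_, ?_⟩
      · rw [e1, e2]
        nlinarith [sq_nonneg (y i)]
      · rw [e1, e2]
        have h3 : 0 ≤ (x i + y i) * y i := by nlinarith [sq_nonneg (y i)]
        rw [← sq_le_sq]
        nlinarith
      · rw [e2]
        exact h2)
    have h2 := sq_of_sqrt (mu_nonneg hw E) (mu_nonneg hw D) hε h1
    have h3 : Real.sqrt (mu w E) ≤ V := by
      rw [← Real.sqrt_sq hV0]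
      exact Real.sqrt_le_sqrt (hV E)
    have h4 : mu w E ≤ mu w (fun i => Q i ∧ E i) + mu w (fun i => ¬ Q i) := by
      refine le_trans (mu_mono hw ?_) (mu_or hw _ _)
      intro i hi
      by_cases hqi : Q i
      · exact Or.inl ⟨hqi, hi⟩
      · exact Or.inr hqi
    have h5 : mu w (fun i => Q i ∧ 0 ≤ x i * y i ∧ |x i| < |y i|) + mu w (fun i => Q i ∧ E i) ≤
        mu w D := by
      apply mu_disj _ _ _ _ hw
      · rintro i (⟨h6, h7, h8⟩ | ⟨h6, h7, h8, h9⟩)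
        · refine ⟨h6, h7, ?_⟩
          intro h0
          rw [h0, abs_zero] at h8
          exact absurd h8 (not_lt.2 (abs_nonneg _))
        · exact ⟨h6, h7, h9⟩
      · rintro i ⟨-, -, h8⟩ ⟨-, -, h9, -⟩
        exact absurd h8 (not_lt.2 h9)
    have h6 : 2 * ε * Real.sqrt (mu w E) ≤ 2 * ε * V :=
      mul_le_mul_of_nonneg_left h3 (by positivity)
    linarith
  · have h1 := hT (fun i => Q i ∧ x i = y i ∧ y i ≠ 0) (fun i => 0 ≤ x i * y i ∧ |y i| < |x i|) (by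
      rintro i ⟨hi, h1, h2⟩
      obtain ⟨e1, e2⟩ := hQ i hi
      rw [e1, e2, h1]
      refine ⟨by nlinarith [sq_nonneg (y i)], ?_⟩
      rw [← two_mul, abs_mul, abs_two]
      have : 0 < |y i| := abs_pos.2 h2
      linarith)
    have h2 := sq_of_sqrt2 (mu_nonneg hw _) (mu_nonneg hw _) hε h1
    have h4 : mu w (fun i => 0 ≤ x i * y i ∧ |y i| < |x i|) ≤
        mu w (fun i => Q i ∧ 0 ≤ x i * y i ∧ |y i| < |x i|) + mu w (fun i => ¬ Q i) := by
      refine le_trans (mu_mono hw ?_) (mu_or hw _ _)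
      intro i hi
      by_cases hqi : Q i
      · exact Or.inl ⟨hqi, hi⟩
      · exact Or.inr hqi
    linarith

/-- the cone argument -/
theorem cone {w : ι → ℝ} (hw : ∀ i, 0 ≤ w i) (x y : ι → ℝ) (Q : ι → Prop) (T₁ T₂ T₃ T₄ : ι → ι)
    {V ε : ℝ} (hV0 : 0 ≤ V) (hε : 0 ≤ ε) (hV : V ^ 2 = mu w (fun _ => True))
    (hq : mu w (fun i => ¬ Q i) ≤ 2 * ε ^ 2)
    (hT₁ : ∀ P P' : ι → Prop, (∀ i, P i → P' (T₁ i)) →
      Real.sqrt (mu w P) ≤ Real.sqrt (mu w P') + ε)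
    (hT₂ : ∀ P P' : ι → Prop, (∀ i, P i → P' (T₂ i)) →
      Real.sqrt (mu w P) ≤ Real.sqrt (mu w P') + ε)
    (hT₃ : ∀ P P' : ι → Prop, (∀ i, P i → P' (T₃ i)) →
      Real.sqrt (mu w P) ≤ Real.sqrt (mu w P') + ε)
    (hT₄ : ∀ P P' : ι → Prop, (∀ i, P i → P' (T₄ i)) →
      Real.sqrt (mu w P) ≤ Real.sqrt (mu w P') + ε)
    (hQ₁ : ∀ i, Q i → x (T₁ i) = x i + y i ∧ y (T₁ i) = y i)
    (hQ₂ : ∀ i, Q i → y (T₂ i) = x i + y i ∧ x (T₂ i) = x i)
    (hQ₃ : ∀ i, Q i → x (T₃ i) = x i - y i ∧ y (T₃ i) = y i)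
    (hQ₄ : ∀ i, Q i → y (T₄ i) = y i - x i ∧ x (T₄ i) = x i)
    (h0 : ∀ i, Q i → x i = 0 → y i = 0 → w i = 0) : V ^ 2 ≤ 400 * ε ^ 2 := by
  classical
  have hV' : ∀ P, mu w P ≤ V ^ 2 := by
    intro P
    rw [hV]
    exact mu_mono hw fun _ _ => trivial
  obtain ⟨a1, a2⟩ := cone_step hw x y Q T₁ hV0 hε hV' hq hT₁ hQ₁
  obtain ⟨b1, b2⟩ := cone_step hw y x Q T₂ hV0 hε hV' hq hT₂ (fun i hi => by
    obtain ⟨h1, h2⟩ := hQ₂ i hi
    exact ⟨by rw [h1, add_comm], h2⟩)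
  obtain ⟨c1, c2⟩ := cone_step hw (fun i => - x i) y Q T₃ hV0 hε hV' hq hT₃ (fun i hi => by
    obtain ⟨h1, h2⟩ := hQ₃ i hi
    exact ⟨by rw [h1]; ring, h2⟩)
  obtain ⟨d1, d2⟩ := cone_step hw (fun i => - y i) x Q T₄ hV0 hε hV' hq hT₄ (fun i hi => by
    obtain ⟨h1, h2⟩ := hQ₄ i hi
    exact ⟨by rw [h1]; ring, h2⟩)
  -- the pieces
  have hz : mu w (fun i => Q i ∧ x i = 0 ∧ y i = 0) = 0 := by
    unfold mu
    apply Finset.sum_eq_zero
    intro i _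
    by_cases hi : Q i ∧ x i = 0 ∧ y i = 0
    · rw [Set.indicator_of_mem (by exact hi)]
      exact h0 i hi.1 hi.2.1 hi.2.2
    · exact Set.indicator_of_notMem (by exact hi) _
  have key : mu w (fun _ => True) ≤ mu w (fun i => ¬ Q i) + (
      mu w (fun i => Q i ∧ 0 ≤ x i * y i ∧ |x i| < |y i|) +
      (mu w (fun i => Q i ∧ 0 ≤ y i * x i ∧ |y i| < |x i|) +
      (mu w (fun i => Q i ∧ 0 ≤ (- x i) * y i ∧ |- x i| < |y i|) +
      (mu w (fun i => Q i ∧ 0 ≤ (- y i) * x i ∧ |- y i| < |x i|) +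
      (mu w (fun i => Q i ∧ x i = y i ∧ y i ≠ 0) +
      (mu w (fun i => Q i ∧ - x i = y i ∧ y i ≠ 0) +
      mu w (fun i => Q i ∧ x i = 0 ∧ y i = 0))))))) := by
    refine le_trans (mu_mono hw ?_) (le_trans (mu_or hw _ _) (add_le_add_right (le_trans
      (mu_or hw _ _) (add_le_add_right (le_trans (mu_or hw _ _) (add_le_add_right (le_trans
      (mu_or hw _ _) (add_le_add_right (le_trans (mu_or hw _ _) (add_le_add_right (le_trans
      (mu_or hw _ _) (add_le_add_right (mu_or hw _ _) _)) _)) _)) _)) _)) _))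
    intro i _
    by_cases hqi : Q i
    · right
      rcases lt_trichotomy (|x i|) (|y i|) with h1 | h1 | h1
      · rcases le_total 0 (x i * y i) with h2 | h2
        · exact Or.inl ⟨hqi, h2, h1⟩
        · refine Or.inr (Or.inr (Or.inl ⟨hqi, by linarith [neg_mul (x i) (y i)], ?_⟩))
          rwa [abs_neg]
      · by_cases hy : y i = 0
        · have hx : x i = 0 := by
            rw [hy, abs_zero] at h1
            exact abs_eq_zero.1 h1
          exact Or.inr (Or.inr (Or.inr (Or.inr (Or.inr (Or.inr ⟨hqi, hx, hy⟩)))))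
        · rcases abs_eq_abs.1 h1 with h2 | h2
          · exact Or.inr (Or.inr (Or.inr (Or.inr (Or.inl ⟨hqi, h2, hy⟩))))
          · refine Or.inr (Or.inr (Or.inr (Or.inr (Or.inr (Or.inl ⟨hqi, ?_, hy⟩)))))
            rw [h2, neg_neg]
      · rcases le_total 0 (x i * y i) with h2 | h2
        · exact Or.inr (Or.inl ⟨hqi, by rwa [mul_comm], h1⟩)
        · refine Or.inr (Or.inr (Or.inr (Or.inl ⟨hqi, by linarith [neg_mul (y i) (x i), mul_comm (x i) (y i)], ?_⟩)))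
          rwa [abs_neg]
    · exact Or.inl hqi
  have e1 : mu w (fun i => Q i ∧ 0 ≤ x i * y i ∧ |y i| < |x i|)
      = mu w (fun i => Q i ∧ 0 ≤ y i * x i ∧ |y i| < |x i|) := by
    congr 1
    funext i
    rw [mul_comm]
  have e2 : mu w (fun i => Q i ∧ 0 ≤ (- x i) * y i ∧ |y i| < |- x i|)
      = mu w (fun i => Q i ∧ 0 ≤ (- y i) * x i ∧ |- y i| < |x i|) := by
    congr 1
    funext i
    rw [abs_neg, abs_neg, neg_mul, neg_mul, mul_comm]
  rw [e1] at a2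
  rw [e2] at c2
  rw [← hV, hz] at key
  have h3 : V ^ 2 ≤ 38 * ε ^ 2 + 16 * ε * V := by linarith
  nlinarith [sq_nonneg (V - 8 * ε), sq_nonneg (V - 20 * ε)]

end Pool.Agent.TAU
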