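import Pool.Agent.TAU.Defs

/-!
Every element of `SL_k(ℤ)` is, up to boundedly many elementary factors on both sides, in the upper
left block and congruent to one modulo `m` (from the statements of StepK and Mod2).
-/

set_option autoImplicit false

namespace Pool.Agent.TAU.Dec

/-- the statement of the module StepK -/
def StepStmt : Prop := ∀ k : ℕ, 2 ≤ k → ∃ r : ℕ, ∀ g : SL (k + 1), ∃ p q : SL (k + 1), ∃ g' : SL k,
    ElProd r p ∧ ElProd r q ∧ (p * g * q).1 = up g'

/-- the statement of the module Mod2 -/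
def ModStmt : Prop := ∃ r : ℕ, ∀ (m : ℕ), 0 < m → ∀ g : SL 2, ∃ p : SL 2,
    ElProd r p ∧ Cong m (p * g)

section updefs

variable {k : ℕ}

theorem up_ll (g : SL k) : up g (Fin.last k) (Fin.last k) = 1 := by
  simp [up]

theorem up_lc (g : SL k) (j : Fin k) : up g (Fin.last k) j.castSucc = 0 := by
  simp [up]

theorem up_cl (g : SL k) (i : Fin k) : up g i.castSucc (Fin.last k) = 0 := by
  simp [up]

theorem up_cc (g : SL k) (i j : Fin k) : up g i.castSucc j.castSucc = g.1 i j := by
  simp [up]

/-- two matrices of size `k + 1` are equal if the four parts are -/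
theorem ext4 {A B : Matrix (Fin (k + 1)) (Fin (k + 1)) ℤ}
    (h1 : A (Fin.last k) (Fin.last k) = B (Fin.last k) (Fin.last k))
    (h2 : ∀ j : Fin k, A (Fin.last k) j.castSucc = B (Fin.last k) j.castSucc)
    (h3 : ∀ i : Fin k, A i.castSucc (Fin.last k) = B i.castSucc (Fin.last k))
    (h4 : ∀ i j : Fin k, A i.castSucc j.castSucc = B i.castSucc j.castSucc) : A = B := by
  ext i j
  refine Fin.lastCases ?_ (fun i' => ?_) i
  · refine Fin.lastCases ?_ (fun j' => ?_) j
    · exact h1
    · exact h2 j'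
  · refine Fin.lastCases ?_ (fun j' => ?_) j
    · exact h3 i'
    · exact h4 i' j'

theorem up_mul (g h : SL k) : up (g * h) = up g * up h := by
  apply ext4
  · rw [Matrix.mul_apply, Fin.sum_univ_castSucc]
    simp [up_ll, up_lc, up_cl]
  · intro j
    rw [Matrix.mul_apply, Fin.sum_univ_castSucc]
    simp [up_ll, up_lc]
  · intro i
    rw [Matrix.mul_apply, Fin.sum_univ_castSucc]
    simp [up_ll, up_cl]
  · intro i j
    rw [Matrix.mul_apply, Fin.sum_univ_castSucc]
    simp [up_cc, up_cl, up_lc, Matrix.mul_apply]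

theorem one_cc (i j : Fin k) : (1 : Matrix (Fin (k + 1)) (Fin (k + 1)) ℤ) i.castSucc j.castSucc =
    (1 : Matrix (Fin k) (Fin k) ℤ) i j := by
  simp [Matrix.one_apply, Fin.castSucc_inj]

theorem one_lc (j : Fin k) : (1 : Matrix (Fin (k + 1)) (Fin (k + 1)) ℤ) (Fin.last k) j.castSucc =
    0 := by
  rw [Matrix.one_apply, if_neg]
  exact (Fin.castSucc_lt_last j).ne'

theorem one_cl (i : Fin k) : (1 : Matrix (Fin (k + 1)) (Fin (k + 1)) ℤ) i.castSucc (Fin.last k) =
    0 := by
  rw [Matrix.one_apply, if_neg]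
  exact (Fin.castSucc_lt_last i).ne

theorem one_ll : (1 : Matrix (Fin (k + 1)) (Fin (k + 1)) ℤ) (Fin.last k) (Fin.last k) = 1 := by
  simp

theorem up_one : up (1 : SL k) = 1 := by
  apply ext4
  · rw [up_ll, one_ll]
  · intro j
    rw [up_lc, one_lc]
  · intro i
    rw [up_cl, one_cl]
  · intro i j
    rw [up_cc, one_cc]
    rfl

theorem det_up (g : SL k) : (up g).det = 1 := by
  have h : (up g).submatrix (finSumFinEquiv (m := k) (n := 1)) finSumFinEquiv =
      Matrix.fromBlocks g.1 0 0 1 := by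
    ext i j
    rcases i with i | i <;> rcases j with j | j
    · simp only [Matrix.submatrix_apply, finSumFinEquiv_apply_left, Matrix.fromBlocks_apply₁₁]
      exact up_cc g i j
    · simp only [Matrix.submatrix_apply, finSumFinEquiv_apply_left, finSumFinEquiv_apply_right,
        Matrix.fromBlocks_apply₁₂, Matrix.zero_apply]
      have : Fin.natAdd k j = Fin.last k := by
        ext
        simp
      rw [this]
      exact up_cl g i
    · simp only [Matrix.submatrix_apply, finSumFinEquiv_apply_left, finSumFinEquiv_apply_right,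
        Matrix.fromBlocks_apply₂₁, Matrix.zero_apply]
      have : Fin.natAdd k i = Fin.last k := by
        ext
        simp
      rw [this]
      exact up_lc g j
    · simp only [Matrix.submatrix_apply, finSumFinEquiv_apply_right, Matrix.fromBlocks_apply₂₂]
      have h1 : Fin.natAdd k i = Fin.last k := by
        ext
        simp
      have h2 : Fin.natAdd k j = Fin.last k := by
        ext
        simp
      rw [h1, h2, up_ll, Subsingleton.elim i j, Matrix.one_apply_eq]
  rw [← Matrix.det_submatrix_equiv_self (finSumFinEquiv (m := k) (n := 1)), h,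
    Matrix.det_fromBlocks_zero₂₁, g.2, Matrix.det_one, one_mul]

/-- `up` as a homomorphism -/
def upH (k : ℕ) : SL k →* SL (k + 1) where
  toFun g := ⟨up g, det_up g⟩
  map_one' := Subtype.ext up_one
  map_mul' g h := Subtype.ext (up_mul g h)

theorem upH_val (g : SL k) : (upH k g).1 = up g := rfl

end updefs

section elem

variable {k : ℕ}

theorem el_apply (i j : Fin k) (h : i ≠ j) (t : ℤ) (a b : Fin k) :
    (el i j h t).1 a b = (1 : Matrix (Fin k) (Fin k) ℤ) a b + if i = a ∧ j = b then t else 0 := by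
  simp [el, Matrix.transvection, Matrix.single_apply]

theorem upH_el (i j : Fin k) (h : i ≠ j) (t : ℤ) : upH k (el i j h t) =
    el i.castSucc j.castSucc (fun h' => h (Fin.castSucc_injective k h')) t := by
  apply Subtype.ext
  rw [upH_val]
  apply ext4
  · rw [up_ll, el_apply, one_ll, if_neg, add_zero]
    rintro ⟨h1, -⟩
    exact (Fin.castSucc_lt_last i).ne h1
  · intro b
    rw [up_lc, el_apply, one_lc, if_neg, add_zero]
    rintro ⟨h1, -⟩
    exact (Fin.castSucc_lt_last i).ne h1
  · intro a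
    rw [up_cl, el_apply, one_cl, if_neg, add_zero]
    rintro ⟨-, h1⟩
    exact (Fin.castSucc_lt_last j).ne h1
  · intro a b
    rw [up_cc, el_apply, el_apply, one_cc]
    simp only [Fin.castSucc_inj]

theorem isEl_upH {x : SL k} (hx : IsEl x) : IsEl (upH k x) := by
  obtain ⟨i, j, h, t, rfl⟩ := hx
  exact ⟨_, _, _, t, upH_el i j h t⟩

theorem el_mul_el (i j : Fin k) (h : i ≠ j) (s t : ℤ) : el i j h s * el i j h t = el i j h (s + t) := by
  apply Subtype.ext
  exact Matrix.transvection_mul_transvection_same i j h s t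

theorem el_zero (i j : Fin k) (h : i ≠ j) : el i j h 0 = 1 := by
  apply Subtype.ext
  exact Matrix.transvection_zero i j

theorem el_inv (i j : Fin k) (h : i ≠ j) (t : ℤ) : (el i j h t)⁻¹ = el i j h (-t) := by
  rw [inv_eq_iff_mul_eq_one, el_mul_el, add_neg_cancel, el_zero]

theorem isEl_inv {x : SL k} (hx : IsEl x) : IsEl x⁻¹ := by
  obtain ⟨i, j, h, t, rfl⟩ := hx
  exact ⟨i, j, h, -t, el_inv i j h t⟩

theorem elProd_inv {r : ℕ} {x : SL k} (hx : ElProd r x) : ElProd r x⁻¹ := by
  obtain ⟨l, hl, h, rfl⟩ := hx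
  refine ⟨(l.map fun y => y⁻¹).reverse, by simpa using hl, ?_, ?_⟩
  · intro y hy
    rw [List.mem_reverse, List.mem_map] at hy
    obtain ⟨z, hz, rfl⟩ := hy
    exact isEl_inv (h z hz)
  · rw [List.prod_inv_reverse]

theorem elProd_mul {r s : ℕ} {x y : SL k} (hx : ElProd r x) (hy : ElProd s y) :
    ElProd (r + s) (x * y) := by
  obtain ⟨l, hl, h, rfl⟩ := hx
  obtain ⟨l', hl', h', rfl⟩ := hy
  refine ⟨l ++ l', by rw [List.length_append]; omega, ?_, by simp⟩
  intro z hz
  rcases List.mem_append.1 hz with hz | hz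
  · exact h z hz
  · exact h' z hz

theorem elProd_mono {r s : ℕ} {x : SL k} (hx : ElProd r x) (h : r ≤ s) : ElProd s x := by
  obtain ⟨l, hl, h', rfl⟩ := hx
  exact ⟨l, hl.trans h, h', rfl⟩

theorem elProd_upH {r : ℕ} {x : SL k} (hx : ElProd r x) : ElProd r (upH k x) := by
  obtain ⟨l, hl, h, rfl⟩ := hx
  refine ⟨l.map (upH k), by simpa using hl, ?_, by rw [map_list_prod]⟩
  intro y hy
  rw [List.mem_map] at hy
  obtain ⟨z, hz, rfl⟩ := hy
  exact isEl_upH (h z hz)

theorem elProd_mem {r : ℕ} {x : SL k} (hx : ElProd r x) :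
    x ∈ Subgroup.closure {x : SL k | IsEl x} := by
  obtain ⟨l, -, h, rfl⟩ := hx
  exact Subgroup.list_prod_mem _ fun y hy => Subgroup.subset_closure (h y hy)

theorem inBlock_upH {x : SL k} (hx : InBlock x) : InBlock (upH k x) := by
  intro i j
  rw [upH_val]
  refine Fin.lastCases ?_ (fun i' => ?_) i
  · refine Fin.lastCases ?_ (fun j' => ?_) j
    · intro _
      rw [up_ll, one_ll]
    · intro _
      rw [up_lc, one_lc]
  · refine Fin.lastCases ?_ (fun j' => ?_) j
    · intro _
      rw [up_cl, one_cl]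
    · intro hij
      rw [up_cc, one_cc]
      exact hx i' j' (by simpa using hij)

theorem cong_upH {m : ℕ} {x : SL k} (hx : Cong m x) : Cong m (upH k x) := by
  intro i j
  rw [upH_val]
  refine Fin.lastCases ?_ (fun i' => ?_) i
  · refine Fin.lastCases ?_ (fun j' => ?_) j
    · rw [up_ll, one_ll, sub_self]
      exact dvd_zero _
    · rw [up_lc, one_lc, sub_self]
      exact dvd_zero _
  · refine Fin.lastCases ?_ (fun j' => ?_) j
    · rw [up_cl, one_cl, sub_self]
      exact dvd_zero _
    · rw [up_cc, one_cc]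
      exact hx i' j'

end elem

theorem decomp_of (hstep : StepStmt) (hmod : ModStmt) (k : ℕ) (hk : 2 ≤ k) : ∃ r : ℕ, ∀ (m : ℕ), 0 < m → ∀ g : SL k,
    ∃ p q c : SL k, ElProd r p ∧ ElProd r q ∧ InBlock c ∧ Cong m c ∧ g = p * c * q := by
  induction k, hk using Nat.le_induction with
  | base =>
    obtain ⟨r, hr⟩ := hmod
    refine ⟨r, fun m hm g => ?_⟩
    obtain ⟨p, hp, hc⟩ := hr m hm g
    refine ⟨p⁻¹, 1, p * g, elProd_inv hp, ⟨[], by simp, by simp, by simp⟩, ?_, hc, by group⟩
    intro i j hij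
    rcases hij with h | h
    · exact absurd i.2 (by omega)
    · exact absurd j.2 (by omega)
  | succ k hk ih =>
    obtain ⟨r, hr⟩ := ih
    obtain ⟨s, hs⟩ := hstep k hk
    refine ⟨s + r, fun m hm g => ?_⟩
    obtain ⟨p, q, g', hp, hq, hg⟩ := hs g
    obtain ⟨p', q', c, hp', hq', hb, hc, hg'⟩ := hr m hm g'
    have h1 : p * g * q = upH k g' := Subtype.ext hg
    refine ⟨p⁻¹ * upH k p', upH k q' * q⁻¹, upH k c, elProd_mul (elProd_inv hp) (elProd_upH hp'),
      elProd_mono (elProd_mul (elProd_upH hq') (elProd_inv hq)) (by omega), inBlock_upH hb,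
      cong_upH hc, ?_⟩
    have h2 : g = p⁻¹ * upH k g' * q⁻¹ := by
      rw [← h1]
      group
    rw [h2, hg', map_mul, map_mul]
    group

end Pool.Agent.TAU.Dec
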