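import Pool.Agent.TAU.Defs

/-!
Ulam stability of one dimensional unitary characters of a finite group.
-/

set_option autoImplicit false

namespace Pool.Agent.TAU

open Finset

theorem ulam (Q : Type) [Group Q] [Fintype Q] (z : Q → ℂ) (η : ℝ) (hη : η ≤ 1 / 10)
    (hz : ∀ q, ‖z q‖ = 1) (h : ∀ q q', ‖z (q * q') - z q * z q'‖ ≤ η) :
    ∃ ζ : Q →* ℂˣ, ∀ q, ‖(ζ q : ℂ) - z q‖ ≤ 2 * η := by
  classical
  have hη0 : 0 ≤ η := (norm_nonneg _).trans (h 1 1)
  have hz0 : ∀ q, z q ≠ 0 := fun q hq => by
    have := hz q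
    rw [hq, norm_zero] at this
    exact zero_ne_one this
  have hpi := Real.pi_pos
  have hpi4 := Real.pi_le_four
  -- the cocycle
  set c : Q → Q → ℂ := fun q q' => z q * z q' / z (q * q') with hc
  have hcn : ∀ q q', ‖c q q'‖ = 1 := by
    intro q q'
    simp only [hc, norm_div, norm_mul, hz, mul_one, div_one]
  have hc0 : ∀ q q', c q q' ≠ 0 := by
    intro q q' hq
    have := hcn q q'
    rw [hq, norm_zero] at this
    exact zero_ne_one this
  have hc1 : ∀ q q', ‖c q q' - 1‖ ≤ η := by
    intro q q'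
    have e : c q q' - 1 = (z q * z q' - z (q * q')) / z (q * q') := by
      simp only [hc]
      rw [sub_div, div_self (hz0 _)]
    rw [e, norm_div, hz, div_one, norm_sub_rev]
    exact h q q'
  set a : Q → Q → ℝ := fun q q' => (c q q').arg with ha
  have hab : ∀ q q', |a q q'| ≤ Real.pi / 2 * η := by
    intro q q'
    have h1 := Complex.angle_le_mul_norm_sub (hcn q q') (norm_one (α := ℂ))
    rw [Complex.angle_one_right (hc0 q q')] at h1
    exact h1.trans (mul_le_mul_of_nonneg_left (hc1 q q') (by positivity))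
  have hae : ∀ q q', Complex.exp ((a q q' : ℂ) * Complex.I) = c q q' := by
    intro q q'
    have h1 := Complex.norm_mul_exp_arg_mul_I (c q q')
    rw [hcn, Complex.ofReal_one, one_mul] at h1
    exact h1
  have hsmall : Real.pi / 2 * η ≤ Real.pi / 20 := by nlinarith
  -- the cocycle identity
  have hco : ∀ q q' r, a q q' + a (q * q') r - a q' r - a q (q' * r) = 0 := by
    intro q q' r
    have e1 : c q q' * c (q * q') r = c q' r * c q (q' * r) := by
      simp only [hc, mul_assoc]
      have h1 := hz0 (q * q')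
      have h2 := hz0 (q' * r)
      have h3 := hz0 (q * (q' * r))
      field_simp
    have e2 : Complex.exp (((a q q' + a (q * q') r - a q' r - a q (q' * r) : ℝ) : ℂ)
        * Complex.I) = 1 := by
      push_cast
      rw [sub_mul, sub_mul, add_mul, Complex.exp_sub, Complex.exp_sub, Complex.exp_add,
        hae, hae, hae, hae, e1]
      have h1 := hc0 q' r
      have h2 := hc0 q (q' * r)
      field_simp
    rw [Complex.exp_eq_one_iff] at e2
    obtain ⟨n, hn⟩ := e2
    have e3 : (a q q' + a (q * q') r - a q' r - a q (q' * r) : ℝ) = n * (2 * Real.pi) := by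
      have h1 : (((a q q' + a (q * q') r - a q' r - a q (q' * r) : ℝ) : ℂ)) * Complex.I
          = ((n * (2 * Real.pi) : ℝ) : ℂ) * Complex.I := by
        rw [hn]; push_cast; ring
      exact Complex.ofReal_injective (mul_right_cancel₀ Complex.I_ne_zero h1)
    have b1 := abs_le.mp (hab q q')
    have b2 := abs_le.mp (hab (q * q') r)
    have b3 := abs_le.mp (hab q' r)
    have b4 := abs_le.mp (hab q (q' * r))
    have hn0 : n = 0 := by
      have u1 : (n : ℝ) * (2 * Real.pi) < 1 * (2 * Real.pi) := by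
        rw [← e3]; linarith [b1.1, b1.2, b2.1, b2.2, b3.1, b3.2, b4.1, b4.2]
      have u2 : (-1 : ℝ) * (2 * Real.pi) < n * (2 * Real.pi) := by
        rw [← e3]; linarith [b1.1, b1.2, b2.1, b2.2, b3.1, b3.2, b4.1, b4.2]
      have v1 : (n : ℝ) < 1 := lt_of_mul_lt_mul_right u1 (by positivity)
      have v2 : (-1 : ℝ) < n := lt_of_mul_lt_mul_right u2 (by positivity)
      have w1 : n < 1 := by exact_mod_cast v1
      have w2 : -1 < n := by exact_mod_cast v2
      omega
    rw [e3, hn0]; simp
  -- averaging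
  have hN : (0 : ℝ) < (Fintype.card Q : ℝ) := by exact_mod_cast Fintype.card_pos
  set b : Q → ℝ := fun q => (∑ r, a q r) / (Fintype.card Q : ℝ) with hb
  have hbc : ∀ q q', a q q' = b q + b q' - b (q * q') := by
    intro q q'
    have h1 : ∑ r, (a q q' + a (q * q') r - a q' r - a q (q' * r)) = 0 :=
      Finset.sum_eq_zero (fun r _ => hco q q' r)
    rw [Finset.sum_sub_distrib, Finset.sum_sub_distrib, Finset.sum_add_distrib,
      Finset.sum_const, Finset.card_univ, nsmul_eq_mul] at h1
    have h2 : ∑ r, a q (q' * r) = ∑ r, a q r :=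
      Fintype.sum_equiv (Equiv.mulLeft q') _ _ (fun r => rfl)
    rw [h2] at h1
    simp only [hb]
    field_simp
    linarith
  have hbb : ∀ q, |b q| ≤ Real.pi / 2 * η := by
    intro q
    simp only [hb]
    rw [abs_div, abs_of_pos hN, div_le_iff₀ hN]
    calc |∑ r, a q r| ≤ ∑ r, |a q r| := Finset.abs_sum_le_sum_abs _ _
      _ ≤ ∑ _r : Q, Real.pi / 2 * η := Finset.sum_le_sum (fun r _ => hab q r)
      _ = Real.pi / 2 * η * (Fintype.card Q : ℝ) := by
        rw [Finset.sum_const, Finset.card_univ, nsmul_eq_mul, mul_comm]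
  -- the character
  have hmul : ∀ q q', z (q * q') * Complex.exp (-((b (q * q') : ℝ) : ℂ) * Complex.I)
      = (z q * Complex.exp (-((b q : ℝ) : ℂ) * Complex.I))
        * (z q' * Complex.exp (-((b q' : ℝ) : ℂ) * Complex.I)) := by
    intro q q'
    have e1 : z q * z q' = c q q' * z (q * q') := by
      simp only [hc]
      rw [div_mul_cancel₀ _ (hz0 _)]
    have e2 : (-((b (q * q') : ℝ) : ℂ) * Complex.I)
        = ((a q q' : ℝ) : ℂ) * Complex.I + (-((b q : ℝ) : ℂ) * Complex.I)
          + (-((b q' : ℝ) : ℂ) * Complex.I) := by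
      rw [hbc q q']; push_cast; ring
    rw [e2, Complex.exp_add, Complex.exp_add, hae]
    calc z (q * q') * (c q q' * Complex.exp (-((b q : ℝ) : ℂ) * Complex.I)
          * Complex.exp (-((b q' : ℝ) : ℂ) * Complex.I))
        = (c q q' * z (q * q')) * (Complex.exp (-((b q : ℝ) : ℂ) * Complex.I)
          * Complex.exp (-((b q' : ℝ) : ℂ) * Complex.I)) := by ring
      _ = _ := by rw [← e1]; ring
  have hne : ∀ q, z q * Complex.exp (-((b q : ℝ) : ℂ) * Complex.I) ≠ 0 := fun q =>
    mul_ne_zero (hz0 q) (Complex.exp_ne_zero _)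
  let f : Q →* ℂ :=
    { toFun := fun q => z q * Complex.exp (-((b q : ℝ) : ℂ) * Complex.I)
      map_one' := by
        have h1 := hmul 1 1
        rw [mul_one] at h1
        have h2 := hne 1
        have h3 : (z 1 * Complex.exp (-((b 1 : ℝ) : ℂ) * Complex.I)) * 1
            = (z 1 * Complex.exp (-((b 1 : ℝ) : ℂ) * Complex.I))
              * (z 1 * Complex.exp (-((b 1 : ℝ) : ℂ) * Complex.I)) := by
          rw [mul_one]; exact h1
        exact (mul_left_cancel₀ h2 h3).symm
      map_mul' := hmul }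
  refine ⟨f.toHomUnits, fun q => ?_⟩
  rw [MonoidHom.coe_toHomUnits]
  have e1 : f q - z q = z q * (Complex.exp (Complex.I * ((-(b q) : ℝ) : ℂ)) - 1) := by
    have : f q = z q * Complex.exp (-((b q : ℝ) : ℂ) * Complex.I) := rfl
    rw [this, mul_sub, mul_one]
    congr 3
    push_cast; ring
  rw [e1, norm_mul, hz, one_mul]
  calc ‖Complex.exp (Complex.I * ((-(b q) : ℝ) : ℂ)) - 1‖ ≤ ‖-(b q)‖ :=
        Real.norm_exp_I_mul_ofReal_sub_one_le
    _ = |b q| := by rw [norm_neg, Real.norm_eq_abs]
    _ ≤ Real.pi / 2 * η := hbb q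
    _ ≤ 2 * η := by nlinarith

end Pool.Agent.TAU
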