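import Pool.Agent.TAU.Asm5
import Pool.Agent.TAU.Root
import Pool.Agent.TAU.Decomp
import Pool.Agent.TAU.Central
import Pool.Agent.TAU.Gen
import Pool.Agent.TAU.Ulam
import Pool.Agent.TAU.Near

/-!
Spectral gap of `SL_k(ℤ)`, `k ≥ 3`, for the representations with finite image, from the relative
gap and the choice of a component.
-/

set_option autoImplicit false
open Finset

namespace Pool.Agent.TAU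

open Pool.Agent.H51K

theorem gapSL_of (hrel : ∃ C : ℝ, 0 < C ∧ ∀ (G H : Type) [Group G] [NormedAddCommGroup H]
    [InnerProductSpace ℂ H] (ρ : G →* (H ≃ₗᵢ[ℂ] H)) (a b g l : G) (m : ℕ), 0 < m →
    a * b = b * a → g * a = a * g → g * b = a * b * g → l * a = a * b * l → l * b = b * l →
    ρ (a ^ m) = 1 → ρ (b ^ m) = 1 → ∀ (v : H) (s : ℤ), ‖ρ (a ^ s) v - v‖ ^ 2 ≤
      C * (‖ρ a v - v‖ ^ 2 + ‖ρ b v - v‖ ^ 2 + ‖ρ g v - v‖ ^ 2 + ‖ρ l v - v‖ ^ 2))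
    (k : ℕ) (hk : 3 ≤ k)
    (hcomp : ∀ (H : Type) [NormedAddCommGroup H] [InnerProductSpace ℂ H] [CompleteSpace H]
      (ρ : SL k →* (H ≃ₗᵢ[ℂ] H)), (ρ.ker).FiniteIndex → ∀ (Z : Set (SL k)),
      (∀ c ∈ Z, ∀ g, ρ (c * g) = ρ (g * c)) → ∀ (F : Finset (SL k)) (v : H),
      v ∈ (invS ρ)ᗮ → v ≠ 0 → ∃ h : H, h ≠ 0 ∧ h ∈ (invS ρ)ᗮ ∧
      (∑ a ∈ F, ‖ρ a h - h‖ ^ 2) * ‖v‖ ^ 2 ≤ (∑ a ∈ F, ‖ρ a v - v‖ ^ 2) * ‖h‖ ^ 2 ∧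
      ∀ c ∈ Z, ∃ z : ℂ, ‖z‖ = 1 ∧ ρ c h = z • h) :
    ∃ (F : Finset (SL k)) (ε : ℝ), 0 < ε ∧ ∀ (H : Type)
    [NormedAddCommGroup H] [InnerProductSpace ℂ H] [CompleteSpace H]
    (ρ : SL k →* (H ≃ₗᵢ[ℂ] H)), (ρ.ker).FiniteIndex → ∀ v ∈ (invS ρ)ᗮ,
      ε ^ 2 * ‖v‖ ^ 2 ≤ ∑ a ∈ F, ‖ρ a v - v‖ ^ 2 := by
  obtain ⟨C, hC, hroot⟩ := root_bound hrel k hk
  obtain ⟨ε, hε, h⟩ := gap_of (gens k) C hC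
    (fun H _ _ _ ρ hfin v i j hij t => hroot H ρ hfin i j hij t v)
    (decomp k (by omega))
    (fun m N _ hN c hc hm x hx => central k hk m N hN c hc hm x hx)
    (gen k (by omega))
    (fun Q _ _ z η hη hz h => ulam Q z η hη hz h)
    (fun f x => perfect k hk ℂˣ f x)
    hcomp
  exact ⟨gens k, ε, hε, h⟩

theorem hasNear_of (hrel : ∃ C : ℝ, 0 < C ∧ ∀ (G H : Type) [Group G] [NormedAddCommGroup H]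
    [InnerProductSpace ℂ H] (ρ : G →* (H ≃ₗᵢ[ℂ] H)) (a b g l : G) (m : ℕ), 0 < m →
    a * b = b * a → g * a = a * g → g * b = a * b * g → l * a = a * b * l → l * b = b * l →
    ρ (a ^ m) = 1 → ρ (b ^ m) = 1 → ∀ (v : H) (s : ℤ), ‖ρ (a ^ s) v - v‖ ^ 2 ≤
      C * (‖ρ a v - v‖ ^ 2 + ‖ρ b v - v‖ ^ 2 + ‖ρ g v - v‖ ^ 2 + ‖ρ l v - v‖ ^ 2))
    (k : ℕ) (hk : 3 ≤ k)
    (hcomp : ∀ (H : Type) [NormedAddCommGroup H] [InnerProductSpace ℂ H] [CompleteSpace H]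
      (ρ : SL k →* (H ≃ₗᵢ[ℂ] H)), (ρ.ker).FiniteIndex → ∀ (Z : Set (SL k)),
      (∀ c ∈ Z, ∀ g, ρ (c * g) = ρ (g * c)) → ∀ (F : Finset (SL k)) (v : H),
      v ∈ (invS ρ)ᗮ → v ≠ 0 → ∃ h : H, h ≠ 0 ∧ h ∈ (invS ρ)ᗮ ∧
      (∑ a ∈ F, ‖ρ a h - h‖ ^ 2) * ‖v‖ ^ 2 ≤ (∑ a ∈ F, ‖ρ a v - v‖ ^ 2) * ‖h‖ ^ 2 ∧
      ∀ c ∈ Z, ∃ z : ℂ, ‖z‖ = 1 ∧ ρ c h = z • h) :
    Pool.Agent.FS84.HasNear (SL k) :=
  near_of_gap (gapSL_of hrel k hk hcomp)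

end Pool.Agent.TAU
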