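import Pool.Agent.TAU.Defs
import Pool.Agent.FS84.Kaz

/-!
Last step of the spectral gap: a vector on which every group element acts almost by a scalar and
which is orthogonal to the invariant vectors is zero.
-/

set_option autoImplicit false
open Finset

namespace Pool.Agent.TAU

open Pool.Agent.H51K

theorem step4 {G : Type} [Group G] {H : Type} [NormedAddCommGroup H] [InnerProductSpace ℂ H]
    (ρ : G →* (H ≃ₗᵢ[ℂ] H)) (hfin : (ρ.ker).FiniteIndex) (h : H) (hperp : h ∈ (invS ρ)ᗮ)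
    (η : ℝ) (hη : η ≤ 1 / 30)
    (hz : ∀ g, ∃ z : ℂ, ‖z‖ = 1 ∧ ‖ρ g h - z • h‖ ≤ η * ‖h‖)
    (hulam : ∀ (Q : Type) [Group Q] [Fintype Q] (z : Q → ℂ) (η : ℝ), η ≤ 1 / 10 →
      (∀ q, ‖z q‖ = 1) → (∀ q q', ‖z (q * q') - z q * z q'‖ ≤ η) →
      ∃ ζ : Q →* ℂˣ, ∀ q, ‖(ζ q : ℂ) - z q‖ ≤ 2 * η)
    (hperf : ∀ (f : G →* ℂˣ) (x : G), f x = 1) : h = 0 := by
  classical
  by_contra hne
  have hpos : 0 < ‖h‖ := norm_pos_iff.2 hne
  have hfr : Finite ρ.range := by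
    have h1 : Finite (G ⧸ ρ.ker) := Subgroup.finite_quotient_of_finiteIndex
    exact Finite.of_equiv _ (QuotientGroup.quotientKerEquivRange ρ).toEquiv
  have : Fintype ρ.range := Fintype.ofFinite _
  have hq : ∀ q : ρ.range, ∃ z : ℂ, ‖z‖ = 1 ∧ ‖q.1 h - z • h‖ ≤ η * ‖h‖ := by
    rintro ⟨q, g, rfl⟩
    exact hz g
  choose z hz1 hz2 using hq
  have hmul : ∀ q q', ‖z (q * q') - z q * z q'‖ ≤ 3 * η := by
    intro q q'
    have e1 : ‖(z (q * q') - z q * z q') • h‖ ≤ 3 * η * ‖h‖ := by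
      have a1 := hz2 (q * q')
      have a2 := hz2 q
      have a3 := hz2 q'
      have b1 : ‖q.1 (q'.1 h) - q.1 (z q' • h)‖ ≤ η * ‖h‖ := by
        rw [← map_sub, LinearIsometryEquiv.norm_map]
        exact a3
      have b2 : ‖z q' • (q.1 h - z q • h)‖ ≤ η * ‖h‖ := by
        rw [norm_smul, hz1, one_mul]
        exact a2
      have b3 : (q * q').1 h = q.1 (q'.1 h) := rfl
      rw [b3] at a1
      have e : (z (q * q') - z q * z q') • h = -(q.1 (q'.1 h) - z (q * q') • h)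
          + (q.1 (q'.1 h) - q.1 (z q' • h)) + z q' • (q.1 h - z q • h) := by
        rw [map_smul, sub_smul, smul_sub, smul_smul, mul_comm (z q') (z q)]
        abel
      rw [e]
      calc ‖-(q.1 (q'.1 h) - z (q * q') • h) + (q.1 (q'.1 h) - q.1 (z q' • h))
            + z q' • (q.1 h - z q • h)‖
          ≤ ‖-(q.1 (q'.1 h) - z (q * q') • h) + (q.1 (q'.1 h) - q.1 (z q' • h))‖
            + ‖z q' • (q.1 h - z q • h)‖ := norm_add_le _ _
        _ ≤ ‖-(q.1 (q'.1 h) - z (q * q') • h)‖ + ‖q.1 (q'.1 h) - q.1 (z q' • h)‖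
            + ‖z q' • (q.1 h - z q • h)‖ := by
              gcongr
              exact norm_add_le _ _
        _ ≤ 3 * η * ‖h‖ := by
              rw [norm_neg]
              linarith
    rw [norm_smul] at e1
    exact le_of_mul_le_mul_right e1 hpos
  obtain ⟨ζ, hζ⟩ := hulam ρ.range z (3 * η) (by linarith) hz1 hmul
  have hone : ∀ q, (ζ q : ℂ) = 1 := by
    rintro ⟨q, g, rfl⟩
    have := hperf (ζ.comp ρ.rangeRestrict) g
    have h2 : ζ ⟨ρ g, g, rfl⟩ = 1 := this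
    rw [h2]
    rfl
  have hclose : ∀ q : ρ.range, ‖q.1 h - h‖ ≤ 7 * η * ‖h‖ := by
    intro q
    have a1 := hz2 q
    have a2 := hζ q
    rw [hone] at a2
    have e : q.1 h - h = (q.1 h - z q • h) + (z q - 1) • h := by
      rw [sub_smul, one_smul]
      abel
    rw [e]
    refine (norm_add_le _ _).trans ?_
    rw [norm_smul]
    have a3 : ‖z q - 1‖ ≤ 2 * (3 * η) := by
      rw [norm_sub_rev]
      exact a2
    have a4 : ‖z q - 1‖ * ‖h‖ ≤ 2 * (3 * η) * ‖h‖ := mul_le_mul_of_nonneg_right a3 hpos.le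
    linarith
  let w : H := ∑ q : ρ.range, q.1 h
  have hw : w ∈ invS ρ := by
    rw [mem_invS]
    intro a
    change ρ a (∑ q : ρ.range, q.1 h) = ∑ q : ρ.range, q.1 h
    rw [map_sum]
    let a' : ρ.range := ⟨ρ a, a, rfl⟩
    exact Equiv.sum_comp (Equiv.mulLeft a') (fun q : ρ.range => q.1 h)
  have hin : inner ℂ w h = (0 : ℂ) := (Submodule.mem_orthogonal _ _).1 hperp w hw
  have hcardpos : 0 < (Fintype.card ρ.range : ℝ) := by
    exact_mod_cast Fintype.card_pos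
  have hsum : ‖w - (Fintype.card ρ.range : ℂ) • h‖ ≤ (Fintype.card ρ.range : ℝ) * (7 * η * ‖h‖) := by
    have e : w - (Fintype.card ρ.range : ℂ) • h = ∑ q : ρ.range, (q.1 h - h) := by
      rw [Finset.sum_sub_distrib, Finset.sum_const, Finset.card_univ]
      congr 1
      rw [Nat.cast_smul_eq_nsmul]
    rw [e]
    refine (norm_sum_le _ _).trans ?_
    refine (Finset.sum_le_sum fun q _ => hclose q).trans ?_
    rw [Finset.sum_const, Finset.card_univ, nsmul_eq_mul]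
  have hin2 : inner ℂ (w - (Fintype.card ρ.range : ℂ) • h) h
      = -((Fintype.card ρ.range : ℂ) * (inner ℂ h h : ℂ)) := by
    rw [inner_sub_left, hin, inner_smul_left, zero_sub]
    simp
  have hnorm : (Fintype.card ρ.range : ℝ) * ‖h‖ ^ 2
      ≤ (Fintype.card ρ.range : ℝ) * (7 * η * ‖h‖) * ‖h‖ := by
    have h1 := norm_inner_le_norm (𝕜 := ℂ) (w - (Fintype.card ρ.range : ℂ) • h) h
    rw [hin2, norm_neg, norm_mul, Complex.norm_natCast, inner_self_eq_norm_sq_to_K] at h1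
    have h2 : ‖((‖h‖ : ℂ)) ^ 2‖ = ‖h‖ ^ 2 := by
      rw [norm_pow]
      simp
    have h3 : ‖(((‖h‖ : ℝ) : ℂ)) ^ 2‖ = ‖h‖ ^ 2 := h2
    calc (Fintype.card ρ.range : ℝ) * ‖h‖ ^ 2
        = (Fintype.card ρ.range : ℝ) * ‖(((‖h‖ : ℝ) : ℂ)) ^ 2‖ := by rw [h3]
      _ ≤ ‖w - (Fintype.card ρ.range : ℂ) • h‖ * ‖h‖ := h1
      _ ≤ _ := mul_le_mul_of_nonneg_right hsum hpos.le
  have hfinal : ‖h‖ ^ 2 ≤ 7 * η * ‖h‖ ^ 2 := by
    have : (Fintype.card ρ.range : ℝ) * ‖h‖ ^ 2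
        ≤ (Fintype.card ρ.range : ℝ) * (7 * η * ‖h‖ ^ 2) := by
      calc _ ≤ _ := hnorm
        _ = _ := by ring
    exact le_of_mul_le_mul_left this hcardpos
  have hsq : 0 < ‖h‖ ^ 2 := by positivity
  nlinarith

end Pool.Agent.TAU
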