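import Pool.Agent.TAU.Defs

/-!
Decomposition of a Hilbert space under an action of a finite abelian group by isometries.
-/

set_option autoImplicit false
open Finset

namespace Pool.Agent.TAU

variable {A : Type} [AddCommGroup A] [Fintype A]
variable {H : Type} [NormedAddCommGroup H] [InnerProductSpace ℂ H]

/-- the component of `v` at the character `ψ` -/
noncomputable def pr (π : Multiplicative A →* (H ≃ₗᵢ[ℂ] H)) (ψ : AddChar A ℂ) (v : H) : H :=
  (Fintype.card A : ℂ)⁻¹ • ∑ a, ψ (-a) • π (Multiplicative.ofAdd a) v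

theorem card_ne : (Fintype.card A : ℂ) ≠ 0 := Nat.cast_ne_zero.2 Fintype.card_ne_zero

theorem pr_sum (π : Multiplicative A →* (H ≃ₗᵢ[ℂ] H)) (v : H) :
    ∑ ψ : AddChar A ℂ, pr π ψ v = v := by
  classical
  simp only [pr]
  rw [← Finset.smul_sum, Finset.sum_comm]
  have h : ∀ a : A, ∑ ψ : AddChar A ℂ, ψ (-a) • π (Multiplicative.ofAdd a) v
      = if a = 0 then (Fintype.card A : ℂ) • v else 0 := by
    intro a
    rw [← Finset.sum_smul, AddChar.sum_apply_eq_ite]
    by_cases ha : a = 0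
    · subst ha
      simp
    · simp [ha]
  rw [Finset.sum_congr rfl fun a _ => h a, Finset.sum_ite_eq' univ (0 : A)]
  simp only [mem_univ, if_true]
  rw [smul_smul, inv_mul_cancel₀ card_ne, one_smul]

theorem pr_add (π : Multiplicative A →* (H ≃ₗᵢ[ℂ] H)) (ψ : AddChar A ℂ) (v w : H) :
    pr π ψ (v + w) = pr π ψ v + pr π ψ w := by
  simp only [pr, map_add, smul_add, Finset.sum_add_distrib]

theorem pr_sub (π : Multiplicative A →* (H ≃ₗᵢ[ℂ] H)) (ψ : AddChar A ℂ) (v w : H) :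
    pr π ψ (v - w) = pr π ψ v - pr π ψ w := by
  simp only [pr, map_sub, smul_sub, Finset.sum_sub_distrib]

theorem pr_eigen (π : Multiplicative A →* (H ≃ₗᵢ[ℂ] H)) (ψ : AddChar A ℂ) (v : H) (b : A) :
    π (Multiplicative.ofAdd b) (pr π ψ v) = ψ b • pr π ψ v := by
  simp only [pr, map_smul, map_sum]
  rw [smul_comm (ψ b) _ _, Finset.smul_sum (r := ψ b)]
  congr 1
  have h : ∀ a, ψ (-a) • π (Multiplicative.ofAdd b) (π (Multiplicative.ofAdd a) v)
      = ψ b • (ψ (-(b + a)) • π (Multiplicative.ofAdd (b + a)) v) := by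
    intro a
    rw [ofAdd_add, map_mul, smul_smul, neg_add, AddChar.map_add_eq_mul, ← mul_assoc,
      ← AddChar.map_add_eq_mul, add_neg_cancel, AddChar.map_zero_eq_one, one_mul]
    rfl
  rw [Finset.sum_congr rfl fun a _ => h a]
  exact Equiv.sum_comp (Equiv.addLeft b) (fun a => ψ b • (ψ (-a) • π (Multiplicative.ofAdd a) v))

theorem char_norm (ψ : AddChar A ℂ) (a : A) : ‖ψ a‖ = 1 := AddChar.norm_apply ψ a

theorem pr_orth (π : Multiplicative A →* (H ≃ₗᵢ[ℂ] H)) (ψ χ : AddChar A ℂ) (h : ψ ≠ χ) (v w : H) :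
    inner ℂ (pr π ψ v) (pr π χ w) = (0 : ℂ) := by
  obtain ⟨a, ha⟩ := DFunLike.ne_iff.1 h
  have h1 : inner ℂ (pr π ψ v) (pr π χ w)
      = (starRingEnd ℂ (ψ a) * χ a) * inner ℂ (pr π ψ v) (pr π χ w) := by
    calc inner ℂ (pr π ψ v) (pr π χ w)
        = inner ℂ (π (Multiplicative.ofAdd a) (pr π ψ v)) (π (Multiplicative.ofAdd a) (pr π χ w)) :=
          ((π (Multiplicative.ofAdd a)).inner_map_map _ _).symm
      _ = _ := by
          rw [pr_eigen, pr_eigen, inner_smul_left, inner_smul_right]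
          ring
  have h2 : starRingEnd ℂ (ψ a) * χ a ≠ 1 := by
    intro h3
    apply ha
    have h4 : ψ a * starRingEnd ℂ (ψ a) = 1 := by
      rw [Complex.mul_conj, Complex.normSq_eq_norm_sq, char_norm]
      simp
    calc ψ a = ψ a * (starRingEnd ℂ (ψ a) * χ a) := by rw [h3, mul_one]
      _ = χ a := by rw [← mul_assoc, h4, one_mul]
  have h3 : (1 - starRingEnd ℂ (ψ a) * χ a) * inner ℂ (pr π ψ v) (pr π χ w) = 0 := by
    rw [sub_mul, one_mul, ← h1, sub_self]
  rcases mul_eq_zero.1 h3 with h4 | h4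
  · exact absurd (sub_eq_zero.1 h4).symm h2
  · exact h4

/-- Parseval -/
theorem pr_norm (π : Multiplicative A →* (H ≃ₗᵢ[ℂ] H)) (v : H) :
    ∑ ψ : AddChar A ℂ, ‖pr π ψ v‖ ^ 2 = ‖v‖ ^ 2 := by
  classical
  have h : inner ℂ v v = ∑ ψ : AddChar A ℂ, (inner ℂ (pr π ψ v) (pr π ψ v) : ℂ) := by
    conv_lhs => rw [← pr_sum π v]
    rw [sum_inner]
    apply Finset.sum_congr rfl
    intro ψ _
    rw [inner_sum, Finset.sum_eq_single ψ]
    · intro χ _ hχ
      exact pr_orth π ψ χ hχ.symm v v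
    · intro h
      exact absurd (mem_univ _) h
  have h2 := congrArg Complex.re h
  rw [Complex.re_sum] at h2
  have e : ∀ w : H, (inner ℂ w w : ℂ).re = ‖w‖ ^ 2 := fun w => by
    rw [← inner_self_eq_norm_sq (𝕜 := ℂ) w]
    rfl
  rw [e] at h2
  rw [h2]
  apply Finset.sum_congr rfl
  intro ψ _
  exact (e _).symm

/-- a linear isometry which commutes with `π` commutes with `pr` -/
theorem pr_comm (π : Multiplicative A →* (H ≃ₗᵢ[ℂ] H)) (u : H ≃ₗᵢ[ℂ] H)
    (hu : ∀ a v, u (π (Multiplicative.ofAdd a) v) = π (Multiplicative.ofAdd a) (u v))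
    (ψ : AddChar A ℂ) (v : H) : u (pr π ψ v) = pr π ψ (u v) := by
  simp only [pr, map_smul, map_sum, hu]

end Pool.Agent.TAU
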