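import Pool.Agent.TAU.Four
import Pool.Agent.TAU.Cone

/-!
The relative spectral gap for two commuting isometries of finite order and two shears.
-/

set_option autoImplicit false
set_option linter.unusedSectionVars false
open Finset Real

namespace Pool.Agent.TAU.RB

variable {H : Type} [NormedAddCommGroup H] [InnerProductSpace ℂ H]

/-- Minkowski's inequality for square roots of sums of squares -/
theorem sqrt_add {ι : Type} [Fintype ι] (k f h : ι → ℝ) (hk : ∀ i, 0 ≤ k i)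
    (hle : ∀ i, k i ≤ f i + h i) :
    √(∑ i, k i ^ 2) ≤ √(∑ i, f i ^ 2) + √(∑ i, h i ^ 2) := by
  have h1 : √(∑ i, k i ^ 2) ≤ √(∑ i, (f i + h i) ^ 2) := by
    apply Real.sqrt_le_sqrt
    apply Finset.sum_le_sum
    intro i _
    exact pow_le_pow_left₀ (hk i) (hle i) 2
  refine h1.trans ?_
  have h2 := norm_add_le (WithLp.toLp 2 f : EuclideanSpace ℝ ι) (WithLp.toLp 2 h)
  rw [EuclideanSpace.norm_eq, EuclideanSpace.norm_eq, EuclideanSpace.norm_eq] at h2
  simpa using h2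

section trans

variable {A : Type} [AddCommGroup A] [Fintype A]

/-- precomposition of characters -/
def tr (e : A ≃+ A) (ψ : AddChar A ℂ) : AddChar A ℂ := ψ.compAddMonoidHom e.toAddMonoidHom

theorem tr_apply (e : A ≃+ A) (ψ : AddChar A ℂ) (x : A) : tr e ψ x = ψ (e x) := rfl

theorem tr_symm (e : A ≃+ A) (ψ : AddChar A ℂ) : tr e.symm (tr e ψ) = ψ := by
  ext x
  rw [tr_apply, tr_apply, AddEquiv.apply_symm_apply]

theorem tr_symm' (e : A ≃+ A) (ψ : AddChar A ℂ) : tr e (tr e.symm ψ) = ψ := by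
  ext x
  rw [tr_apply, tr_apply, AddEquiv.symm_apply_apply]

/-- precomposition as an equivalence -/
def trE (e : A ≃+ A) : AddChar A ℂ ≃ AddChar A ℂ :=
  ⟨tr e, tr e.symm, tr_symm e, tr_symm' e⟩

theorem pr_trans (τ : Multiplicative A →* (H ≃ₗᵢ[ℂ] H)) (u : H ≃ₗᵢ[ℂ] H) (e : A ≃+ A)
    (hu : ∀ x v, u (τ (Multiplicative.ofAdd (e x)) v) = τ (Multiplicative.ofAdd x) (u v))
    (ψ : AddChar A ℂ) (v : H) : u (pr τ ψ v) = pr τ (tr e ψ) (u v) := by
  simp only [pr, map_smul, map_sum]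
  congr 1
  rw [← Equiv.sum_comp e.toEquiv (fun a => ψ (-a) • u (τ (Multiplicative.ofAdd a) v))]
  apply Finset.sum_congr rfl
  intro x _
  change ψ (-(e x)) • u (τ (Multiplicative.ofAdd (e x)) v) = _
  rw [hu, tr_apply, map_neg e]

/-- the mass at the nontrivial characters -/
noncomputable def wt (τ : Multiplicative A →* (H ≃ₗᵢ[ℂ] H)) (v : H) (ψ : AddChar A ℂ) : ℝ :=
  open Classical in if ψ = 1 then 0 else ‖pr τ ψ v‖ ^ 2

theorem wt_nonneg (τ : Multiplicative A →* (H ≃ₗᵢ[ℂ] H)) (v : H) (ψ : AddChar A ℂ) :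
    0 ≤ wt τ v ψ := by
  unfold wt
  split_ifs <;> positivity

theorem wt_le (τ : Multiplicative A →* (H ≃ₗᵢ[ℂ] H)) (v : H) (ψ : AddChar A ℂ) :
    wt τ v ψ ≤ ‖pr τ ψ v‖ ^ 2 := by
  unfold wt
  split_ifs
  · positivity
  · exact le_refl _

theorem mass_trans (τ : Multiplicative A →* (H ≃ₗᵢ[ℂ] H)) (u : H ≃ₗᵢ[ℂ] H) (e : A ≃+ A)
    (hu : ∀ x v, u (τ (Multiplicative.ofAdd (e x)) v) = τ (Multiplicative.ofAdd x) (u v))
    (v : H) (ε : ℝ) (hε : ‖u v - v‖ ≤ ε) (P P' : AddChar A ℂ → Prop)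
    (hP : ∀ ψ, P ψ → P' (tr e ψ)) :
    √(mu (wt τ v) P) ≤ √(mu (wt τ v) P') + ε := by
  classical
  have h1 : mu (wt τ v) P = ∑ ψ, (if P ψ ∧ ψ ≠ 1 then ‖pr τ ψ v‖ else 0) ^ 2 := by
    unfold mu
    apply Finset.sum_congr rfl
    intro ψ _
    unfold wt
    by_cases h1 : P ψ <;> by_cases h2 : ψ = 1 <;> simp [Set.indicator, h1, h2]
  have h2 := sqrt_add (fun ψ => if P ψ ∧ ψ ≠ 1 then ‖pr τ ψ v‖ else 0)
    (fun ψ => if P ψ ∧ ψ ≠ 1 then ‖pr τ (tr e ψ) v‖ else 0)
    (fun ψ => if P ψ ∧ ψ ≠ 1 then ‖pr τ (tr e ψ) (u v - v)‖ else 0)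
    (by
      intro ψ
      split_ifs <;> positivity)
    (by
      intro ψ
      split_ifs
      · have e1 : ‖pr τ ψ v‖ = ‖pr τ (tr e ψ) (u v)‖ := by
          rw [← pr_trans τ u e hu, u.norm_map]
        rw [e1]
        have e2 : pr τ (tr e ψ) (u v) = pr τ (tr e ψ) v + pr τ (tr e ψ) (u v - v) := by
          rw [← pr_add]
          congr 1
          abel
        rw [e2]
        exact norm_add_le _ _
      · simp)
  rw [h1]
  refine h2.trans (add_le_add ?_ ?_)
  · apply Real.sqrt_le_sqrt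
    have h3 : mu (wt τ v) P' = ∑ ψ, Set.indicator {ψ | P' ψ} (wt τ v) (tr e ψ) :=
      (Equiv.sum_comp (trE e) (fun ψ => Set.indicator {ψ | P' ψ} (wt τ v) ψ)).symm
    rw [h3]
    apply Finset.sum_le_sum
    intro ψ _
    by_cases h4 : P ψ ∧ ψ ≠ 1
    · have h5 : tr e ψ ≠ 1 := by
        intro h
        apply h4.2
        rw [← tr_symm e ψ, h]
        ext x
        rw [tr_apply]
        rfl
      rw [Set.indicator_of_mem (by exact hP ψ h4.1)]
      simp only [h4, wt, h5, ne_eq, not_false_eq_true, and_self, if_true, if_false]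
      exact le_refl _
    · simp only [h4, if_false]
      have := ind_nonneg (wt_nonneg τ v) P' (tr e ψ)
      simpa using this
  · have h6 : ∑ ψ, (if P ψ ∧ ψ ≠ 1 then ‖pr τ (tr e ψ) (u v - v)‖ else 0) ^ 2 ≤
        ‖u v - v‖ ^ 2 := by
      rw [← pr_norm τ (u v - v)]
      rw [← Equiv.sum_comp (trE e) (fun ψ => ‖pr τ ψ (u v - v)‖ ^ 2)]
      apply Finset.sum_le_sum
      intro ψ _
      change _ ≤ ‖pr τ (tr e ψ) (u v - v)‖ ^ 2
      split_ifs
      · exact le_refl _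
      · rw [zero_pow two_ne_zero]
        positivity
    refine (Real.sqrt_le_sqrt h6).trans ?_
    rw [Real.sqrt_sq (norm_nonneg _)]
    exact hε

/-- a unit complex number with a large argument is far from `1` -/
theorem far_one {z : ℂ} (hz : ‖z‖ = 1) (h : π / 4 ≤ |z.arg|) : 1 ≤ 2 * ‖z - 1‖ ^ 2 := by
  have h1 : ‖z - 1‖ ^ 2 = 2 - 2 * z.re := by
    have h2 : ‖z‖ ^ 2 = 1 := by rw [hz]; norm_num
    rw [← Complex.normSq_eq_norm_sq, Complex.normSq_apply] at h2 ⊢
    simp only [Complex.sub_re, Complex.sub_im, Complex.one_re, Complex.one_im]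
    nlinarith
  have h3 : z.re = Real.cos |z.arg| := by
    rw [Real.cos_abs, Complex.cos_arg (by
      intro h0
      rw [h0, norm_zero] at hz
      norm_num at hz), hz, div_one]
  have h4 : Real.cos |z.arg| ≤ Real.cos (π / 4) :=
    Real.cos_le_cos_of_nonneg_of_le_pi (by positivity) (Complex.abs_arg_le_pi z) h
  rw [Real.cos_pi_div_four] at h4
  have h5 : √2 ≤ 1.5 := by
    rw [Real.sqrt_le_left (by norm_num)]
    norm_num
  rw [h1, h3]
  linarith

theorem mass_far (σ : Multiplicative A →* (H ≃ₗᵢ[ℂ] H)) (v : H) (c : A) :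
    mu (wt σ v) (fun ψ => π / 4 ≤ |(ψ c).arg|) ≤
      2 * ‖σ (Multiplicative.ofAdd c) v - v‖ ^ 2 := by
  classical
  rw [← pr_norm σ (σ (Multiplicative.ofAdd c) v - v), Finset.mul_sum]
  apply Finset.sum_le_sum
  intro ψ _
  have h1 : pr σ ψ (σ (Multiplicative.ofAdd c) v - v) = (ψ c - 1) • pr σ ψ v := by
    rw [pr_sub, sub_smul, one_smul, ← pr_eigen]
    congr 1
    symm
    apply pr_comm
    intro a w
    have h2 : σ (Multiplicative.ofAdd c) * σ (Multiplicative.ofAdd a) =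
        σ (Multiplicative.ofAdd a) * σ (Multiplicative.ofAdd c) := by
      rw [← map_mul σ, ← map_mul σ, mul_comm]
    exact congrArg (fun L : H ≃ₗᵢ[ℂ] H => L w) h2
  rw [h1, norm_smul, mul_pow]
  by_cases h2 : π / 4 ≤ |(ψ c).arg|
  · rw [Set.indicator_of_mem (by exact h2)]
    have h3 := far_one (char_norm ψ c) h2
    have h4 := wt_le σ v ψ
    have h5 : 0 ≤ ‖pr σ ψ v‖ ^ 2 := by positivity
    nlinarith
  · rw [Set.indicator_of_notMem (by exact h2)]
    positivity

end trans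

/-- the shear `(i, j) ↦ (i + j, j)` -/
def sh1 (m : ℕ) : (ZMod m × ZMod m) ≃+ (ZMod m × ZMod m) where
  toFun x := (x.1 + x.2, x.2)
  invFun x := (x.1 - x.2, x.2)
  left_inv x := by simp
  right_inv x := by simp
  map_add' x y := by
    ext
    · simp only [Prod.fst_add, Prod.snd_add]
      ring
    · simp

/-- the shear `(i, j) ↦ (i, i + j)` -/
def sh2 (m : ℕ) : (ZMod m × ZMod m) ≃+ (ZMod m × ZMod m) where
  toFun x := (x.1, x.1 + x.2)
  invFun x := (x.1, x.2 - x.1)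
  left_inv x := by simp
  right_inv x := by simp
  map_add' x y := by
    ext
    · simp
    · simp only [Prod.fst_add, Prod.snd_add]
      ring

section group

variable {L : Type} [Group L]

theorem pow_val_add {m : ℕ} [NeZero m] (x : L) (hx : x ^ m = 1) (i j : ZMod m) :
    x ^ (i + j).val = x ^ i.val * x ^ j.val := by
  rw [ZMod.val_add, ← pow_eq_pow_mod _ hx, pow_add]

/-- the action of `(ℤ/m)²` -/
noncomputable def act (m : ℕ) [NeZero m] (x y : L) (hx : x ^ m = 1) (hy : y ^ m = 1)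
    (hxy : Commute x y) : Multiplicative (ZMod m × ZMod m) →* L where
  toFun c := x ^ (Multiplicative.toAdd c).1.val * y ^ (Multiplicative.toAdd c).2.val
  map_one' := by
    simp
  map_mul' c d := by
    simp only [toAdd_mul, Prod.fst_add, Prod.snd_add]
    rw [pow_val_add x hx, pow_val_add y hy]
    have h := (hxy.pow_pow (Multiplicative.toAdd d).1.val (Multiplicative.toAdd c).2.val).eq
    rw [mul_assoc, mul_assoc, ← mul_assoc (x ^ (Multiplicative.toAdd d).1.val), h,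
      ← mul_assoc, ← mul_assoc, ← mul_assoc, ← mul_assoc]

theorem act_apply (m : ℕ) [NeZero m] (x y : L) (hx : x ^ m = 1) (hy : y ^ m = 1)
    (hxy : Commute x y) (c : ZMod m × ZMod m) :
    act m x y hx hy hxy (Multiplicative.ofAdd c) = x ^ c.1.val * y ^ c.2.val := rfl

/-- `u y = x y u`, `u x = x u` -/
theorem act_sh1 (m : ℕ) [NeZero m] (x y : L) (hx : x ^ m = 1) (hy : y ^ m = 1)
    (hxy : Commute x y) (u : L) (h1 : u * x = x * u) (h2 : u * y = x * y * u)
    (c : ZMod m × ZMod m) :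
    u * act m x y hx hy hxy (Multiplicative.ofAdd c) =
      act m x y hx hy hxy (Multiplicative.ofAdd (sh1 m c)) * u := by
  rw [act_apply, act_apply]
  change u * (x ^ c.1.val * y ^ c.2.val) = x ^ (c.1 + c.2).val * y ^ c.2.val * u
  rw [pow_val_add x hx]
  have e1 : SemiconjBy u x x := h1
  have e2 : SemiconjBy u y (x * y) := h2
  have e3 := (e1.pow_right c.1.val).mul_right (e2.pow_right c.2.val)
  rw [e3.eq, hxy.mul_pow, mul_assoc (x ^ c.1.val) (x ^ c.2.val)]

/-- `u x = x y u`, `u y = y u` -/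
theorem act_sh2 (m : ℕ) [NeZero m] (x y : L) (hx : x ^ m = 1) (hy : y ^ m = 1)
    (hxy : Commute x y) (u : L) (h1 : u * x = x * y * u) (h2 : u * y = y * u)
    (c : ZMod m × ZMod m) :
    u * act m x y hx hy hxy (Multiplicative.ofAdd c) =
      act m x y hx hy hxy (Multiplicative.ofAdd (sh2 m c)) * u := by
  rw [act_apply, act_apply]
  change u * (x ^ c.1.val * y ^ c.2.val) = x ^ c.1.val * y ^ (c.1 + c.2).val * u
  rw [pow_val_add y hy]
  have e1 : SemiconjBy u x (x * y) := h1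
  have e2 : SemiconjBy u y y := h2
  have e3 := (e1.pow_right c.1.val).mul_right (e2.pow_right c.2.val)
  rw [e3.eq, hxy.mul_pow, mul_assoc (x ^ c.1.val) (y ^ c.1.val)]

end group

theorem arg_add {z w : ℂ} (hz : ‖z‖ = 1) (hw : ‖w‖ = 1) (h1 : |z.arg| < π / 4)
    (h2 : |w.arg| < π / 4) : (z * w).arg = z.arg + w.arg := by
  have hz0 : z ≠ 0 := by
    intro h0
    rw [h0, norm_zero] at hz
    norm_num at hz
  have hw0 : w ≠ 0 := by
    intro h0
    rw [h0, norm_zero] at hw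
    norm_num at hw
  rw [Complex.arg_mul_eq_add_arg_iff hz0 hw0]
  have hp := Real.pi_pos
  rw [abs_lt] at h1 h2
  constructor <;> linarith [h1.1, h1.2, h2.1, h2.2]

theorem arg_neg' {z : ℂ} (h1 : |z.arg| < π / 4) : (z⁻¹).arg = - z.arg := by
  rw [Complex.arg_inv, if_neg]
  intro h
  rw [h, abs_of_pos Real.pi_pos] at h1
  linarith [Real.pi_pos]

/-- a character of `(ℤ/m)²` is trivial if it is trivial at the two basis elements -/
theorem char_eq_one {m : ℕ} [NeZero m] (ψ : AddChar (ZMod m × ZMod m) ℂ) (h1 : ψ (1, 0) = 1)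
    (h2 : ψ (0, 1) = 1) : ψ = 1 := by
  ext x
  obtain ⟨i, j⟩ := x
  have e : ((i, j) : ZMod m × ZMod m) = i.val • (1, 0) + j.val • (0, 1) := by
    ext <;> simp
  rw [e, AddChar.map_add_eq_mul, AddChar.map_nsmul_eq_pow, AddChar.map_nsmul_eq_pow, h1, h2]
  simp

end Pool.Agent.TAU.RB

namespace Pool.Agent.TAU

open Pool.Agent.TAU.RB

/-- the relative gap -/
theorem relgapB : ∃ C : ℝ, 0 < C ∧ ∀ (G H : Type) [Group G] [NormedAddCommGroup H]
    [InnerProductSpace ℂ H] (ρ : G →* (H ≃ₗᵢ[ℂ] H)) (a b g l : G) (m : ℕ), 0 < m →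
    a * b = b * a → g * a = a * g → g * b = a * b * g → l * a = a * b * l → l * b = b * l →
    ρ (a ^ m) = 1 → ρ (b ^ m) = 1 → ∀ (v : H) (s : ℤ), ‖ρ (a ^ s) v - v‖ ^ 2 ≤
      C * (‖ρ a v - v‖ ^ 2 + ‖ρ b v - v‖ ^ 2 + ‖ρ g v - v‖ ^ 2 + ‖ρ l v - v‖ ^ 2) := by
  refine ⟨1600, by norm_num, ?_⟩
  intro G H _ _ _ ρ a b g l m hm hab hga hgb hla hlb ham hbm v s
  have : NeZero m := ⟨hm.ne'⟩
  have hx : (ρ a) ^ m = 1 := by rw [← map_pow, ham]
  have hy : (ρ b) ^ m = 1 := by rw [← map_pow, hbm]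
  have hxy : Commute (ρ a) (ρ b) := by
    change ρ a * ρ b = ρ b * ρ a
    rw [← map_mul, hab, map_mul]
  set P := act m (ρ a) (ρ b) hx hy hxy with hP
  have hPa : m = 1 ∨ P (Multiplicative.ofAdd ((1, 0) : ZMod m × ZMod m)) = ρ a := by
    rcases Nat.lt_or_ge 1 m with h | h
    · right
      have : Fact (1 < m) := ⟨h⟩
      rw [hP, act_apply]
      simp [ZMod.val_one]
    · left
      omega
  -- values at the basis elements without a case distinction
  have hPa' : P (Multiplicative.ofAdd ((1, 0) : ZMod m × ZMod m)) = ρ a := by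
    rcases hPa with h | h
    · subst h
      rw [pow_one] at hx
      rw [hP, act_apply, hx, one_pow, one_mul]
      simp
    · exact h
  have hPb' : P (Multiplicative.ofAdd ((0, 1) : ZMod m × ZMod m)) = ρ b := by
    rcases Nat.lt_or_ge 1 m with h | h
    · have : Fact (1 < m) := ⟨h⟩
      rw [hP, act_apply]
      simp [ZMod.val_one]
    · have h1 : m = 1 := by omega
      subst h1
      rw [pow_one] at hy
      rw [hP, act_apply, hy, one_pow, mul_one]
      simp
  set E := ‖ρ a v - v‖ ^ 2 + ‖ρ b v - v‖ ^ 2 + ‖ρ g v - v‖ ^ 2 + ‖ρ l v - v‖ ^ 2 with hE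
  have hE0 : 0 ≤ E := by positivity
  set ε := √E with hεd
  have hε0 : 0 ≤ ε := Real.sqrt_nonneg _
  have hεsq : ε ^ 2 = E := Real.sq_sqrt hE0
  have hb : ∀ t : ℝ, 0 ≤ t → t ^ 2 ≤ E → t ≤ ε := by
    intro t ht h
    rw [hεd]
    exact Real.le_sqrt_of_sq_le h
  have hga' : ‖ρ g v - v‖ ≤ ε := hb _ (norm_nonneg _) (by
    have h1 := sq_nonneg ‖ρ a v - v‖
    have h2 := sq_nonneg ‖ρ b v - v‖
    have h3 := sq_nonneg ‖ρ l v - v‖
    rw [hE]; linarith)
  have hla' : ‖ρ l v - v‖ ≤ ε := hb _ (norm_nonneg _) (by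
    have h1 := sq_nonneg ‖ρ a v - v‖
    have h2 := sq_nonneg ‖ρ b v - v‖
    have h3 := sq_nonneg ‖ρ g v - v‖
    rw [hE]; linarith)
  have hinv : ∀ u : H ≃ₗᵢ[ℂ] H, ‖u⁻¹ v - v‖ = ‖u v - v‖ := by
    intro u
    have h1 : u (u⁻¹ v - v) = v - u v := by
      rw [map_sub]
      congr 1
      exact u.apply_symm_apply v
    rw [← u.norm_map, h1, norm_sub_rev]
  have G1 := act_sh1 m (ρ a) (ρ b) hx hy hxy (ρ g) (by rw [← map_mul, hga, map_mul])
    (by rw [← map_mul, hgb, map_mul, map_mul])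
  have L1 := act_sh2 m (ρ a) (ρ b) hx hy hxy (ρ l) (by rw [← map_mul, hla, map_mul, map_mul])
    (by rw [← map_mul, hlb, map_mul])
  have ap : ∀ {X Y : H ≃ₗᵢ[ℂ] H}, X = Y → ∀ w, X w = Y w := by
    intro X Y h w
    rw [h]
  -- the four shears
  have t4 : ∀ x w, (ρ g) (P (Multiplicative.ofAdd ((sh1 m).symm x)) w) =
      P (Multiplicative.ofAdd x) ((ρ g) w) := by
    intro x w
    have h := G1 ((sh1 m).symm x)
    rw [AddEquiv.apply_symm_apply] at h
    exact ap h w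
  have t2 : ∀ x w, (ρ g)⁻¹ (P (Multiplicative.ofAdd ((sh1 m) x)) w) =
      P (Multiplicative.ofAdd x) ((ρ g)⁻¹ w) := by
    intro x w
    have h := G1 x
    have h2 : (ρ g)⁻¹ * P (Multiplicative.ofAdd (sh1 m x)) =
        P (Multiplicative.ofAdd x) * (ρ g)⁻¹ := by
      rw [inv_mul_eq_iff_eq_mul, ← mul_assoc, hP, h, mul_assoc, mul_inv_cancel, mul_one]
    exact ap h2 w
  have t3 : ∀ x w, (ρ l) (P (Multiplicative.ofAdd ((sh2 m).symm x)) w) =
      P (Multiplicative.ofAdd x) ((ρ l) w) := by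
    intro x w
    have h := L1 ((sh2 m).symm x)
    rw [AddEquiv.apply_symm_apply] at h
    exact ap h w
  have t1 : ∀ x w, (ρ l)⁻¹ (P (Multiplicative.ofAdd ((sh2 m) x)) w) =
      P (Multiplicative.ofAdd x) ((ρ l)⁻¹ w) := by
    intro x w
    have h := L1 x
    have h2 : (ρ l)⁻¹ * P (Multiplicative.ofAdd (sh2 m x)) =
        P (Multiplicative.ofAdd x) * (ρ l)⁻¹ := by
      rw [inv_mul_eq_iff_eq_mul, ← mul_assoc, hP, h, mul_assoc, mul_inv_cancel, mul_one]
    exact ap h2 w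
  set V2 := mu (wt P v) (fun _ => True) with hV2
  have hV20 : 0 ≤ V2 := mu_nonneg (wt_nonneg P v) _
  have key := cone (wt_nonneg P v) (fun ψ => (ψ (1, 0)).arg) (fun ψ => (ψ (0, 1)).arg)
    (fun ψ => |(ψ (1, 0)).arg| < π / 4 ∧ |(ψ (0, 1)).arg| < π / 4)
    (tr (sh2 m)) (tr (sh1 m)) (tr (sh2 m).symm) (tr (sh1 m).symm) (V := √V2) (ε := ε)
    (Real.sqrt_nonneg _) hε0 (Real.sq_sqrt hV20)
    (by
      have h1 : mu (wt P v) (fun ψ => ¬ (|(ψ (1, 0)).arg| < π / 4 ∧ |(ψ (0, 1)).arg| < π / 4)) ≤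
          mu (wt P v) (fun ψ => π / 4 ≤ |(ψ (1, 0)).arg|) +
          mu (wt P v) (fun ψ => π / 4 ≤ |(ψ (0, 1)).arg|) := by
        refine le_trans (mu_mono (wt_nonneg P v) ?_) (mu_or (wt_nonneg P v) _ _)
        intro ψ hψ
        by_contra hc
        rw [not_or, not_le, not_le] at hc
        exact hψ hc
      have h2 := mass_far P v ((1, 0) : ZMod m × ZMod m)
      have h3 := mass_far P v ((0, 1) : ZMod m × ZMod m)
      rw [hPa'] at h2
      rw [hPb'] at h3
      have h4 := sq_nonneg ‖ρ g v - v‖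
      have h5 := sq_nonneg ‖ρ l v - v‖
      rw [hεsq, hE]
      linarith)
    (fun Q Q' h => mass_trans P _ (sh2 m) t1 v ε (by rw [hinv]; exact hla') Q Q' h)
    (fun Q Q' h => mass_trans P _ (sh1 m) t2 v ε (by rw [hinv]; exact hga') Q Q' h)
    (fun Q Q' h => mass_trans P _ (sh2 m).symm t3 v ε hla' Q Q' h)
    (fun Q Q' h => mass_trans P _ (sh1 m).symm t4 v ε hga' Q Q' h)
    (by
      intro ψ hψ
      rw [tr_apply, tr_apply]
      have e1 : (sh2 m) ((1, 0) : ZMod m × ZMod m) = (1, 0) + (0, 1) := by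
        simp [sh2]
      have e2 : (sh2 m) ((0, 1) : ZMod m × ZMod m) = (0, 1) := by
        simp [sh2]
      rw [e1, e2, AddChar.map_add_eq_mul]
      exact ⟨arg_add (char_norm ψ _) (char_norm ψ _) hψ.1 hψ.2, rfl⟩)
    (by
      intro ψ hψ
      rw [tr_apply, tr_apply]
      have e1 : (sh1 m) ((0, 1) : ZMod m × ZMod m) = (1, 0) + (0, 1) := by
        simp [sh1]
      have e2 : (sh1 m) ((1, 0) : ZMod m × ZMod m) = (1, 0) := by
        simp [sh1]
      rw [e1, e2, AddChar.map_add_eq_mul]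
      exact ⟨arg_add (char_norm ψ _) (char_norm ψ _) hψ.1 hψ.2, rfl⟩)
    (by
      intro ψ hψ
      rw [tr_apply, tr_apply]
      have e1 : (sh2 m).symm ((1, 0) : ZMod m × ZMod m) = (1, 0) + -(0, 1) := by
        change ((1 : ZMod m), (0 : ZMod m) - 1) = _
        ext <;> simp
      have e2 : (sh2 m).symm ((0, 1) : ZMod m × ZMod m) = (0, 1) := by
        change ((0 : ZMod m), (1 : ZMod m) - 0) = _
        ext <;> simp
      rw [e1, e2, AddChar.map_add_eq_mul, AddChar.map_neg_eq_inv]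
      refine ⟨?_, rfl⟩
      rw [arg_add (char_norm ψ _) (by rw [norm_inv, char_norm, inv_one]) hψ.1
        (by rw [arg_neg' hψ.2, abs_neg]; exact hψ.2), arg_neg' hψ.2]
      ring)
    (by
      intro ψ hψ
      rw [tr_apply, tr_apply]
      have e1 : (sh1 m).symm ((0, 1) : ZMod m × ZMod m) = -(1, 0) + (0, 1) := by
        change ((0 : ZMod m) - 1, (1 : ZMod m)) = _
        ext <;> simp
      have e2 : (sh1 m).symm ((1, 0) : ZMod m × ZMod m) = (1, 0) := by
        change ((1 : ZMod m) - 0, (0 : ZMod m)) = _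
        ext <;> simp
      rw [e1, e2, AddChar.map_add_eq_mul, AddChar.map_neg_eq_inv]
      refine ⟨?_, rfl⟩
      rw [arg_add (by rw [norm_inv, char_norm, inv_one]) (char_norm ψ _)
        (by rw [arg_neg' hψ.1, abs_neg]; exact hψ.1) hψ.2, arg_neg' hψ.1]
      ring)
    (by
      intro ψ _ h1 h2
      have f : ∀ z : ℂ, ‖z‖ = 1 → z.arg = 0 → z = 1 := by
        intro z hz h
        rw [← Complex.norm_mul_exp_arg_mul_I z, hz, h]
        simp
      have h3 : ψ = 1 := char_eq_one ψ (f _ (char_norm ψ _) h1) (f _ (char_norm ψ _) h2)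
      unfold wt
      rw [if_pos h3])
  rw [Real.sq_sqrt hV20, hεsq] at key
  -- the displacement
  have hs : ∃ c : ZMod m × ZMod m, P (Multiplicative.ofAdd c) = ρ (a ^ s) := by
    refine ⟨s • (1, 0), ?_⟩
    rw [ofAdd_zsmul, map_zpow, hPa', map_zpow]
  obtain ⟨c, hc⟩ := hs
  rw [← hc]
  have h1 : ‖P (Multiplicative.ofAdd c) v - v‖ ^ 2 ≤ 4 * V2 := by
    classical
    rw [← pr_norm P, hV2]
    unfold mu
    rw [Finset.mul_sum]
    apply Finset.sum_le_sum
    intro ψ _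
    have h2 : pr P ψ (P (Multiplicative.ofAdd c) v - v) = (ψ c - 1) • pr P ψ v := by
      rw [pr_sub, sub_smul, one_smul, ← pr_eigen]
      congr 1
      symm
      apply pr_comm
      intro d w
      have h2 : P (Multiplicative.ofAdd c) * P (Multiplicative.ofAdd d) =
          P (Multiplicative.ofAdd d) * P (Multiplicative.ofAdd c) := by
        rw [← map_mul P, ← map_mul P, mul_comm]
      exact congrArg (fun L : H ≃ₗᵢ[ℂ] H => L w) h2
    rw [h2, norm_smul, mul_pow, Set.indicator_of_mem (by exact trivial)]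
    unfold wt
    split_ifs with h3
    · rw [h3]
      simp
    · have h4 : ‖ψ c - 1‖ ≤ 2 := by
        refine (norm_sub_le _ _).trans ?_
        rw [char_norm, norm_one]
        norm_num
      have h5 : ‖ψ c - 1‖ ^ 2 ≤ 4 := by nlinarith [norm_nonneg (ψ c - 1)]
      have h6 : 0 ≤ ‖pr P ψ v‖ ^ 2 := by positivity
      nlinarith
  linarith

end Pool.Agent.TAU
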