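import Pool.Agent.TAU.Four
import Pool.Agent.TAU.Cone

/-!
The shift lemma: the mass of a set of characters under a shear.
-/

set_option autoImplicit false
open Finset

namespace Pool.Agent.TAU

section shift

variable {A : Type} [AddCommGroup A] [Fintype A]
variable {H : Type} [NormedAddCommGroup H] [InnerProductSpace ℂ H]

theorem pr_shift (π : Multiplicative A →* (H ≃ₗᵢ[ℂ] H)) (σ : A ≃+ A) (u : H ≃ₗᵢ[ℂ] H)
    (hu : ∀ a v, u (π (Multiplicative.ofAdd a) v) = π (Multiplicative.ofAdd (σ a)) (u v))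
    (ψ : AddChar A ℂ) (v : H) :
    pr π ψ (u v) = u (pr π (ψ.compAddMonoidHom (σ : A →+ A)) v) := by
  simp only [pr, map_smul, map_sum]
  congr 1
  have h : ∀ a, (ψ.compAddMonoidHom (σ : A →+ A)) (-a) • u (π (Multiplicative.ofAdd a) v)
      = ψ (-(σ a)) • π (Multiplicative.ofAdd (σ a)) (u v) := by
    intro a
    rw [hu]
    congr 1
    show ψ (σ (-a)) = ψ (-(σ a))
    rw [map_neg]
  rw [Finset.sum_congr rfl fun a _ => h a]
  exact (Equiv.sum_comp σ.toEquiv (fun a => ψ (-a) • π (Multiplicative.ofAdd a) (u v))).symm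

theorem comp_inj (σ : A ≃+ A) :
    Function.Injective fun ψ : AddChar A ℂ => ψ.compAddMonoidHom (σ : A →+ A) := by
  intro ψ χ h
  apply AddChar.ext
  intro a
  have h1 := congrArg (fun f : AddChar A ℂ => f (σ.symm a)) h
  have h2 : ψ (σ (σ.symm a)) = χ (σ (σ.symm a)) := h1
  rwa [σ.apply_symm_apply] at h2

theorem mink {ι : Type} (s : Finset ι) (a b c : ι → ℝ) (ha : ∀ i, 0 ≤ a i)
    (h : ∀ i, a i ≤ b i + c i) :
    Real.sqrt (∑ i ∈ s, a i ^ 2) ≤ Real.sqrt (∑ i ∈ s, b i ^ 2) + Real.sqrt (∑ i ∈ s, c i ^ 2) := by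
  rw [Real.sqrt_le_iff]
  refine ⟨by positivity, ?_⟩
  have h1 := Real.sum_mul_le_sqrt_mul_sqrt s b c
  have hb : 0 ≤ ∑ i ∈ s, b i ^ 2 := Finset.sum_nonneg fun i _ => sq_nonneg _
  have hc : 0 ≤ ∑ i ∈ s, c i ^ 2 := Finset.sum_nonneg fun i _ => sq_nonneg _
  have h2 : ∑ i ∈ s, a i ^ 2 ≤ ∑ i ∈ s, (b i ^ 2 + 2 * (b i * c i) + c i ^ 2) := by
    apply Finset.sum_le_sum
    intro i _
    have h3 := pow_le_pow_left₀ (ha i) (h i) 2
    nlinarith
  rw [Finset.sum_add_distrib, Finset.sum_add_distrib, ← Finset.mul_sum] at h2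
  have e1 := Real.sq_sqrt hb
  have e2 := Real.sq_sqrt hc
  nlinarith

theorem mu_eq {ι : Type} [Fintype ι] [DecidableEq ι] (w : ι → ℝ) (P : ι → Prop)
    [DecidablePred P] : mu w P = ∑ i ∈ univ.filter P, w i := by
  unfold mu
  rw [Finset.sum_filter]
  apply Finset.sum_congr rfl
  intro i _
  by_cases h : P i <;> simp [Set.indicator, h]

theorem shift_mass (π : Multiplicative A →* (H ≃ₗᵢ[ℂ] H)) (σ : A ≃+ A) (u : H ≃ₗᵢ[ℂ] H)
    (hu : ∀ a v, u (π (Multiplicative.ofAdd a) v) = π (Multiplicative.ofAdd (σ a)) (u v))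
    (v : H) (ε : ℝ) (hε : ‖u v - v‖ ≤ ε) (P P' : AddChar A ℂ → Prop)
    (hP : ∀ ψ, P ψ → P' (ψ.compAddMonoidHom (σ : A →+ A))) :
    Real.sqrt (mu (fun ψ => ‖pr π ψ v‖ ^ 2) P) ≤
      Real.sqrt (mu (fun ψ => ‖pr π ψ v‖ ^ 2) P') + ε := by
  classical
  rw [mu_eq, mu_eq]
  have h1 := mink (univ.filter P) (fun ψ => ‖pr π ψ v‖) (fun ψ => ‖pr π ψ (u v)‖)
    (fun ψ => ‖pr π ψ (u v - v)‖) (fun ψ => norm_nonneg _) (fun ψ => by
      have : pr π ψ v = pr π ψ (u v) - pr π ψ (u v - v) := by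
        rw [pr_sub]
        abel
      rw [this]
      exact norm_sub_le _ _)
  refine h1.trans (add_le_add ?_ ?_)
  · apply Real.sqrt_le_sqrt
    have e : ∀ ψ, ‖pr π ψ (u v)‖ ^ 2 = (fun χ => ‖pr π χ v‖ ^ 2)
        (ψ.compAddMonoidHom (σ : A →+ A)) := by
      intro ψ
      rw [pr_shift π σ u hu, LinearIsometryEquiv.norm_map]
    rw [Finset.sum_congr rfl fun ψ _ => e ψ]
    rw [← Finset.sum_image (f := fun χ => ‖pr π χ v‖ ^ 2)
      (g := fun ψ : AddChar A ℂ => ψ.compAddMonoidHom (σ : A →+ A))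
      (fun ψ _ χ _ h => comp_inj σ h)]
    apply Finset.sum_le_sum_of_subset_of_nonneg
    · intro χ hχ
      obtain ⟨ψ, hψ, rfl⟩ := Finset.mem_image.1 hχ
      rw [mem_filter]
      exact ⟨mem_univ _, hP ψ (mem_filter.1 hψ).2⟩
    · intro _ _ _
      positivity
  · refine le_trans ?_ hε
    rw [Real.sqrt_le_left (norm_nonneg _), ← pr_norm π (u v - v)]
    apply Finset.sum_le_sum_of_subset_of_nonneg (Finset.subset_univ _)
    intro _ _ _
    positivity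

end shift

end Pool.Agent.TAU
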