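import Pool.Agent.TAU.M2

/-!
# One step of the reduction, in the form with the embedding of `SL_k(ℤ)` in `SL_(k+1)(ℤ)`
-/

set_option autoImplicit false

namespace Pool.Agent.TAU

/-- a matrix in the upper left `k × k` block comes from `SL_k(ℤ)` -/
theorem exists_up {k : ℕ} (y : SL (k + 1)) (hy : M2.InBlk k y) : ∃ g' : SL k, y.1 = up g' := by
  have hll : y.1 (Fin.last k) (Fin.last k) = 1 := by
    rw [hy _ _ (Or.inl (by simp)), Matrix.one_apply_eq]
  have hlc : ∀ j : Fin k, y.1 (Fin.last k) j.castSucc = 0 := by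
    intro j
    rw [hy _ _ (Or.inl (by simp)), Matrix.one_apply_ne (Fin.castSucc_lt_last j).ne']
  have hcl : ∀ i : Fin k, y.1 i.castSucc (Fin.last k) = 0 := by
    intro i
    rw [hy _ _ (Or.inr (by simp)), Matrix.one_apply_ne (Fin.castSucc_lt_last i).ne]
  have hdet : (y.1.submatrix Fin.castSucc Fin.castSucc : Matrix (Fin k) (Fin k) ℤ).det = 1 := by
    have h := y.2
    rw [Matrix.det_succ_row y.1 (Fin.last k), Fin.sum_univ_castSucc, Finset.sum_eq_zero] at h
    · rw [hll, zero_add, mul_one, Fin.succAbove_last] at h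
      have h1 : ((-1 : ℤ)) ^ (((Fin.last k : Fin (k + 1)) : ℕ) + ((Fin.last k : Fin (k + 1)) : ℕ)) = 1 := by
        rw [← two_mul, pow_mul]; simp
      rw [h1, one_mul] at h
      exact h
    · intro j _
      rw [hlc, mul_zero, zero_mul]
  refine ⟨⟨_, hdet⟩, ?_⟩
  ext i j
  refine Fin.lastCases ?_ (fun i => ?_) i <;> refine Fin.lastCases ?_ (fun j => ?_) j
  · rw [hll]; simp [up]
  · rw [hlc]; simp [up]
  · rw [hcl]; simp [up]
  · simp [up]

theorem stepK (k : ℕ) (hk : 2 ≤ k) : ∃ r : ℕ, ∀ g : SL (k + 1), ∃ p q : SL (k + 1), ∃ g' : SL k,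
    ElProd r p ∧ ElProd r q ∧ (p * g * q).1 = up g' := by
  refine ⟨2 * (k + 1) + 2, fun g => ?_⟩
  have hg : M2.InBlk (k + 1) g := by
    intro i j hij
    exact absurd hij (by have := i.2; have := j.2; omega)
  obtain ⟨p, y, q, hp, hq, hy, hx⟩ := M2.step (n := k + 1) (by omega) le_rfl g hg
  obtain ⟨g', hg'⟩ := exists_up y hy
  refine ⟨p⁻¹, q⁻¹, g', M2.ElProd.inv hp, M2.ElProd.inv hq, ?_⟩
  have h : p⁻¹ * g * q⁻¹ = y := by rw [hx]; group
  rw [h, hg']

end Pool.Agent.TAU
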